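import Pool.Agent.Helper9.TP.Main
import Pool.Agent.Helper79.CP.Geo6

/-!
# Trinomial pencils: further definitions and blocks
-/

set_option autoImplicit false

namespace Pool.Agent.Helper9.TP

open Pool.Agent.Helper29.CQ Pool.Agent.Helper65.CC Pool.Agent.Helper87.CC
  Pool.Agent.Helper65.CC.KFn
open Pool.Agent.Helper9.QP (A4 Cst)
open Pool.Agent.Helper71.CP (ev ev_map)

variable {K : Type} [Field K] {G : ∀ (R : Type) [CommRing R] [Algebra K R], Prop}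

/-- the cone over the conic bundle `F₀ - r ^ j F₁ + c r ^ (i + j) F₂ = 0`, `r` invertible -/
noncomputable def CB (F₀ F₁ F₂ : MvPolynomial (Fin 3) K) (i j : ℕ) (c : K) : KFn K :=
  ((A4 K).cls ⟨fun {R} _ _ x => ev F₀ x.1 x.2.1 x.2.2.1 -
      x.2.2.2 ^ j * ev F₁ x.1 x.2.1 x.2.2.1 +
      algebraMap K R c * x.2.2.2 ^ (i + j) * ev F₂ x.1 x.2.1 x.2.2.1, fun f x => by
    rw [map_add, map_sub, map_mul, map_mul, map_mul, map_pow, map_pow, ev_map, ev_map, ev_map,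
      AlgHom.commutes]
    rfl⟩).opn ⟨fun {R} _ _ x => x.1.2.2.2, fun f x => rfl⟩

instance (F₀ F₁ F₂ : MvPolynomial (Fin 3) K) (i j : ℕ) (c : K) : Rp (CB F₀ F₁ F₂ i j c) := by
  unfold CB
  infer_instance

/-- the quadratic form `F₀ - r ^ j F₁ + c r ^ (i + j) F₂` over `K[r]` is invariant under the
translations with the direction `v(r)` -/
def InvB (F₀ F₁ F₂ : MvPolynomial (Fin 3) K) (i j : ℕ) (c : K) (v : Fin 3 → Polynomial K) :
    Prop :=
  ∀ (R : Type) [CommRing R] [Algebra K R] (x y z r t : R),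
    ev F₀ (x + t * Polynomial.aeval r (v 0)) (y + t * Polynomial.aeval r (v 1))
        (z + t * Polynomial.aeval r (v 2)) -
      r ^ j * ev F₁ (x + t * Polynomial.aeval r (v 0)) (y + t * Polynomial.aeval r (v 1))
        (z + t * Polynomial.aeval r (v 2)) +
      algebraMap K R c * r ^ (i + j) * ev F₂ (x + t * Polynomial.aeval r (v 0))
        (y + t * Polynomial.aeval r (v 1)) (z + t * Polynomial.aeval r (v 2)) =
    ev F₀ x y z - r ^ j * ev F₁ x y z + algebraMap K R c * r ^ (i + j) * ev F₂ x y z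

/-! Statements to be proved (blocks).

CONE PENCILS (weights `1, 2, 1`; `wt`, `NoX`, `NoY`, `Chg` of `Helper71/CP/Defs.lean`).

(F6) the fibres: for `e ≠ 0` put `V = E (1 - 2 v)`, so that `V ^ 2 = E ^ 2 - 4 e F`, `E` and `F`
invertible; the parts `E = 0` (`conic6`) and `F = 0` (`V ^ 2 = E ^ 2`) of the cone are constant;
`e = 0`: `v (1 - v) = 0`
theorem fib6_ne [IsAlgClosed K] (h2 : (2 : K) ≠ 0) (hG : GOps K G) {k : Type} [Field k] [Finite k]
    [Algebra k K] (hW : Cst k G) (F E : MvPolynomial (Fin 3) k)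
    (hF : IsWeightedHomogeneous wt F 6) (hE : IsWeightedHomogeneous wt E 3) (hF0 : F ≠ 0)
    (hE0 : E ≠ 0) (e : K) (he : e ≠ 0)
    (h : (CW (Qp (MvPolynomial.map (algebraMap k K) F) (MvPolynomial.map (algebraMap k K) E) 1
      (-(4 * e)))).Mem G) :
    (FibT (MvPolynomial.map (algebraMap k K) F) (MvPolynomial.map (algebraMap k K) (E ^ 2))
      (MvPolynomial.map (algebraMap k K) (F * E)) 1 1 e).Mem G
theorem fib6_zero [IsAlgClosed K] (hG : GOps K G) {k : Type} [Field k] [Finite k]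
    [Algebra k K] (hW : Cst k G) (F E : MvPolynomial (Fin 3) k)
    (hF : IsWeightedHomogeneous wt F 6) (hE : IsWeightedHomogeneous wt E 3) (hF0 : F ≠ 0)
    (hE0 : E ≠ 0) :
    (FibT (MvPolynomial.map (algebraMap k K) F) (MvPolynomial.map (algebraMap k K) (E ^ 2))
      (MvPolynomial.map (algebraMap k K) (F * E)) 1 1 0).Mem G

(P6) the product cases (`QA`, `qa_bin`, `qa_poly`, `qa_equiv` of `Helper9/TP`)
theorem prod6_x {p : ℕ} {P} [Finite k] (hP : FormalClass p P) (hk : (p : k) = 0) {n : ℕ}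
    (hn : n ≠ 0) (F E : MvPolynomial (Fin 3) k) (hF : IsWeightedHomogeneous wt F 6)
    (hE : IsWeightedHomogeneous wt E 3) (k' : Type) [Field k'] [Algebra k k'] [Module.Finite k k']
    (τ : Chg k') (h : NoX (aeval τ.fwd (MvPolynomial.map (algebraMap k k') F)))
    (h' : NoX (aeval τ.fwd (MvPolynomial.map (algebraMap k k') E))) :
    QA P n F (E ^ 2) ⊥ (F * E)
theorem prod6_y {p : ℕ} {P} [Finite k] (hP : FormalClass p P) (hk : (p : k) = 0) {n : ℕ}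
    (hn : n ≠ 0) (F E : MvPolynomial (Fin 3) k) (hF : IsWeightedHomogeneous wt F 6)
    (hE : IsWeightedHomogeneous wt E 3) (h : NoY F) (h' : NoY E) : QA P n F (E ^ 2) ⊥ (F * E)

THREE CONICS (`F₀, F₁, F₂` quadratic forms, `i, j > 0` coprime, `a = F₀ ^ i F₂ ^ j / F₁ ^ (i+j)`).

(C1) `tsen`: elementary descent on `deg a + deg b`: `a` squarefree, `b = s ^ 2 mod a`,
`s ^ 2 - b = a a'`, `deg a' < deg a`, and `a a'` is a norm from `K(r)(√b)`
theorem tsen [IsAlgClosed K] (h2 : (2 : K) ≠ 0) (a b : Polynomial K) (ha : a ≠ 0) (hb : b ≠ 0) :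
    ∃ x y z : Polynomial K, (x ≠ 0 ∨ y ≠ 0 ∨ z ≠ 0) ∧ x ^ 2 = a * y ^ 2 + b * z ^ 2

(C2) `cb_nd`: the generic fibre is a smooth conic
theorem cb_nd [IsAlgClosed K] (h2 : (2 : K) ≠ 0) (hG : GOps K G)
    (F₀ F₁ F₂ : MvPolynomial (Fin 3) K) (h₀ : F₀.IsHomogeneous 2) (h₁ : F₁.IsHomogeneous 2)
    (h₂ : F₂.IsHomogeneous 2) (i j : ℕ) (c : K)
    (h : ∀ v : Fin 3 → Polynomial K, v ≠ 0 → ¬ InvB F₀ F₁ F₂ i j c v) : (CB F₀ F₁ F₂ i j c).Mem G

(C3) `cb_fin`: the same without hypothesis if the bundle is defined over a finite field (points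
`c` which are algebraic over `k`; the double cover `s ^ 2 = δ(r)` is then a constant curve)
theorem cb_fin [IsAlgClosed K] (h2 : (2 : K) ≠ 0) (hG : GOps K G) {k : Type} [Field k] [Finite k]
    [Algebra k K] (hW : Cst k G) (F₀ F₁ F₂ : MvPolynomial (Fin 3) k) (h₀ : F₀.IsHomogeneous 2)
    (h₁ : F₁.IsHomogeneous 2) (h₂ : F₂.IsHomogeneous 2) (i j : ℕ) (c : k) :
    (CB (MvPolynomial.map (algebraMap k K) F₀) (MvPolynomial.map (algebraMap k K) F₁)
      (MvPolynomial.map (algebraMap k K) F₂) i j (algebraMap k K c)).Mem G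

(C3') `cb_line`: a common line: `{l = 0}` and the linear form `m₀ - r ^ j m₁ + c r ^ (i + j) m₂`
theorem cb_line [IsAlgClosed K] (hG : GOps K G)
    (l m₀ m₁ m₂ : MvPolynomial (Fin 3) K) (hl : l.IsHomogeneous 1) (h₀ : m₀.IsHomogeneous 1)
    (h₁ : m₁.IsHomogeneous 1) (h₂ : m₂.IsHomogeneous 1) (i j : ℕ) (c : K) :
    (CB (l * m₀) (l * m₁) (l * m₂) i j c).Mem G

(C4) `net`: for a transcendental parameter a degenerate bundle comes from a net of singular conics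
theorem net [IsAlgClosed K] (h2 : (2 : K) ≠ 0) {k : Type} [Field k] [Finite k] [Algebra k K]
    (F₀ F₁ F₂ : MvPolynomial (Fin 3) k) (h₀ : F₀.IsHomogeneous 2) (h₁ : F₁.IsHomogeneous 2)
    (h₂ : F₂.IsHomogeneous 2) (n₀ : F₀ ≠ 0) (n₁ : F₁ ≠ 0) (n₂ : F₂ ≠ 0) (i j : ℕ) (hi : 0 < i)
    (hj : 0 < j) (c : K) (hc : Transcendental k c) (v : Fin 3 → Polynomial K) (hv : v ≠ 0)
    (h : InvB (MvPolynomial.map (algebraMap k K) F₀) (MvPolynomial.map (algebraMap k K) F₁)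
      (MvPolynomial.map (algebraMap k K) F₂) i j c v) :
    (∃ u : Fin 3 → k, u ≠ 0 ∧ InvP F₀ u ∧ InvP F₁ u ∧ InvP F₂ u) ∨
    (∃ l m₀ m₁ m₂ : MvPolynomial (Fin 3) k, l.IsHomogeneous 1 ∧ m₀.IsHomogeneous 1 ∧
      m₁.IsHomogeneous 1 ∧ m₂.IsHomogeneous 1 ∧ F₀ = l * m₀ ∧ F₁ = l * m₁ ∧ F₂ = l * m₂)

(C5) `fib2_ne`, `fib2_zero`: the fibres, `v = F₀ / (r ^ j F₁)`, `1 - v = c r ^ i F₂ / F₁`,
`c ^ j = e`
theorem fib2_ne [IsAlgClosed K] (hG : GOps K G) {k : Type} [Field k] [Finite k]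
    [Algebra k K] (hW : Cst k G) (F₀ F₁ F₂ : MvPolynomial (Fin 3) k) (h₀ : F₀.IsHomogeneous 2)
    (h₁ : F₁.IsHomogeneous 2) (h₂ : F₂.IsHomogeneous 2) (n₀ : F₀ ≠ 0) (n₁ : F₁ ≠ 0) (n₂ : F₂ ≠ 0)
    (i j : ℕ) (hi : 0 < i) (hj : 0 < j) (hij : i.Coprime j) (c : K) (hc : c ≠ 0)
    (h : (CB (MvPolynomial.map (algebraMap k K) F₀) (MvPolynomial.map (algebraMap k K) F₁)
      (MvPolynomial.map (algebraMap k K) F₂) i j c).Mem G) :
    (FibT (MvPolynomial.map (algebraMap k K) (F₀ ^ i * F₂ ^ j))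
      (MvPolynomial.map (algebraMap k K) (F₁ ^ (i + j)))
      (MvPolynomial.map (algebraMap k K) (F₀ * F₁ * F₂)) i j (c ^ j)).Mem G
theorem fib2_zero [IsAlgClosed K] (hG : GOps K G) {k : Type} [Field k] [Finite k]
    [Algebra k K] (hW : Cst k G) (F₀ F₁ F₂ : MvPolynomial (Fin 3) k) (h₀ : F₀.IsHomogeneous 2)
    (h₁ : F₁.IsHomogeneous 2) (h₂ : F₂.IsHomogeneous 2) (n₀ : F₀ ≠ 0) (n₁ : F₁ ≠ 0) (n₂ : F₂ ≠ 0)
    (i j : ℕ) (hi : 0 < i) (hj : 0 < j) :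
    (FibT (MvPolynomial.map (algebraMap k K) (F₀ ^ i * F₂ ^ j))
      (MvPolynomial.map (algebraMap k K) (F₁ ^ (i + j)))
      (MvPolynomial.map (algebraMap k K) (F₀ * F₁ * F₂)) i j 0).Mem G
-/

end Pool.Agent.Helper9.TP
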