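import Pool.Agent.Helper9.TP.Main
import Pool.Agent.Helper9.TP.Defs2

/-!
# Fano trinomials in the weighted plane: further definitions and blocks
-/

set_option autoImplicit false

namespace Pool.Agent.Helper9.TP

open Pool.Agent.Helper29.CQ Pool.Agent.Helper65.CC Pool.Agent.Helper87.CC
  Pool.Agent.Helper65.CC.KFn
open Pool.Agent.Helper9.QP (A4 Cst)
open Pool.Agent.Helper71.CP (ev ev_map)
open MvPolynomial (X C aeval IsWeightedHomogeneous)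

variable {K : Type} [Field K] {G : ∀ (R : Type) [CommRing R] [Algebra K R], Prop}

/-- the affine cone `F₀ - r ^ t F₁ + c r ^ (s + t) F₂ = 0` -/
noncomputable def TS (F₀ F₁ F₂ : MvPolynomial (Fin 3) K) (s t : ℕ) (c : K) : KFn K :=
  (A4 K).cls ⟨fun {R} _ _ x => ev F₀ x.1 x.2.1 x.2.2.1 -
      x.2.2.2 ^ t * ev F₁ x.1 x.2.1 x.2.2.1 +
      algebraMap K R c * x.2.2.2 ^ (s + t) * ev F₂ x.1 x.2.1 x.2.2.1, fun f x => by
    rw [map_add, map_sub, map_mul, map_mul, map_mul, map_pow, map_pow, ev_map, ev_map, ev_map,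
      AlgHom.commutes]
    rfl⟩

instance (F₀ F₁ F₂ : MvPolynomial (Fin 3) K) (s t : ℕ) (c : K) : Rp (TS F₀ F₁ F₂ s t c) := by
  unfold TS
  infer_instance

/-- the value of `r` -/
noncomputable def TS.r (F₀ F₁ F₂ : MvPolynomial (Fin 3) K) (s t : ℕ) (c : K) :
    Coord (TS F₀ F₁ F₂ s t c) where
  val x := x.1.2.2.2
  nat _ _ := rfl

theorem cb_eq (F₀ F₁ F₂ : MvPolynomial (Fin 3) K) (s t : ℕ) (c : K) :
    CB F₀ F₁ F₂ s t c = (TS F₀ F₁ F₂ s t c).opn (TS.r F₀ F₁ F₂ s t c) := rfl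

/-- automorphisms of the graded ring `K[x, y, z]` with the weights `w` -/
structure ChgW (w : Fin 3 → ℕ) (K : Type) [Field K] where
  /-- the automorphism -/
  fwd : Fin 3 → MvPolynomial (Fin 3) K
  /-- the inverse automorphism -/
  bwd : Fin 3 → MvPolynomial (Fin 3) K
  hfwd : ∀ i, IsWeightedHomogeneous w (fwd i) (w i)
  hbwd : ∀ i, IsWeightedHomogeneous w (bwd i) (w i)
  fwd_bwd : ∀ i, aeval fwd (bwd i) = X i
  bwd_fwd : ∀ i, aeval bwd (fwd i) = X i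

/-- the polynomial does not contain the variable `X i` -/
def NoV (i : Fin 3) (F : MvPolynomial (Fin 3) K) : Prop := ∀ m ∈ F.support, m i = 0

/-! Blocks.

FINAL THEOREM (`a, b, c` weights of `x, y, r`): if `f - r ^ t g + r ^ (s + t) h` has weight
`≤ a + b + c`, `s, t ≥ 1` coprime, then `g ^ (s + t) w ^ n = f ^ s h ^ t` is in the class. Besides
the known cases (`s = t = 1`; cubic + conic; three conics) these are the cases (W2) (W3) (W4) (W5).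

(W1) the fibres for arbitrary weights (as (C5); `γ` is the weight of `r`)
theorem fibw_ne [IsAlgClosed K] (hG : GOps K G) {k : Type} [Field k] [Finite k] [Algebra k K]
    (hW : Cst k G) {w : Fin 3 → ℕ} (hw : ∀ i, 0 < w i) (F₀ F₁ F₂ : MvPolynomial (Fin 3) k)
    {d₀ d₁ d₂ γ : ℕ} (h₀ : IsWeightedHomogeneous w F₀ d₀) (h₁ : IsWeightedHomogeneous w F₁ d₁)
    (h₂ : IsWeightedHomogeneous w F₂ d₂) (n₀ : F₀ ≠ 0) (n₁ : F₁ ≠ 0) (n₂ : F₂ ≠ 0) (s t : ℕ)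
    (hs : 0 < s) (ht : 0 < t) (hst : s.Coprime t) (hγ : 0 < γ) (e₁ : d₀ = d₁ + t * γ)
    (e₂ : d₀ = d₂ + (s + t) * γ) (c : K) (hc : c ≠ 0)
    (h : (TS (MvPolynomial.map (algebraMap k K) F₀) (MvPolynomial.map (algebraMap k K) F₁)
      (MvPolynomial.map (algebraMap k K) F₂) s t c).Mem G) :
    (FibT (MvPolynomial.map (algebraMap k K) (F₀ ^ s * F₂ ^ t))
      (MvPolynomial.map (algebraMap k K) (F₁ ^ (s + t)))
      (MvPolynomial.map (algebraMap k K) (F₀ * F₁ * F₂)) s t (c ^ t)).Mem G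
theorem fibw_zero (hG : GOps K G) {k : Type} [Field k] [Finite k] [Algebra k K]
    (hW : Cst k G) {w : Fin 3 → ℕ} (hw : ∀ i, 0 < w i) (F₀ F₁ F₂ : MvPolynomial (Fin 3) k)
    {d₀ d₁ d₂ : ℕ} (h₀ : IsWeightedHomogeneous w F₀ d₀) (h₁ : IsWeightedHomogeneous w F₁ d₁)
    (h₂ : IsWeightedHomogeneous w F₂ d₂) (n₀ : F₀ ≠ 0) (n₁ : F₁ ≠ 0) (n₂ : F₂ ≠ 0) (s t : ℕ)
    (hs : 0 < s) (ht : 0 < t) :
    (FibT (MvPolynomial.map (algebraMap k K) (F₀ ^ s * F₂ ^ t))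
      (MvPolynomial.map (algebraMap k K) (F₁ ^ (s + t)))
      (MvPolynomial.map (algebraMap k K) (F₀ * F₁ * F₂)) s t 0).Mem G

In (W2) - (W4): `F₀ = a₀ y ^ 2 + A₀ y + B₀`, `F₁ = A₁ y + B₁`, `F₂ = A₂ y + B₂` with `A_i, B_i` in
`k[x, z]`, and `TS` is the cone `Y ^ 2 = H(x, z, r)`, `Y = 2 a₀ y + A`,
`H = A ^ 2 - 4 a₀ B`, `A = A₀ - r ^ t A₁ + c r ^ (s + t) A₂`, `B` similarly. THE TRICK: if the cone
has a vertex (`H` is invariant under a direction, up to a graded change of coordinates) and `r` is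
not invariant, then the cone is a line times a surface which is dominated by the part `r = 0`,
`Y ^ 2 = A₀ ^ 2 - 4 a₀ B₀`, and this part is constant (defined over `k`). If `r` is invariant, then
compare the coefficients of the powers of `r` in `H`.

(W2) weights `1, 2, 1; 1`: `A₂ = 0`, `H = H₀ + r ^ t H₁ + r ^ (2 t) A₁ ^ 2 - 4 a₀ c r ^ (s + t) B₂`
is a quartic form in `x, z, r` (`cone_mem` of `Helper71/QP`); `H₀ = A₀ ^ 2 - 4 a₀ B₀`,
`H₁ = 4 a₀ B₁ - 2 A₀ A₁`. The exponents `0, t, 2 t, s + t` are different: if `r` is invariant then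
`H₀, H₁, A₁, B₂` are invariant under a direction of the `x, z`-plane, which is defined over `k`
(`desc`, add the polynomial `X 1` to the set), and `y + A₀ / (2 a₀)` is the new `y`.
theorem mem_one [IsAlgClosed K] (h2 : (2 : K) ≠ 0) (hG : GOps K G) (hW : CstA G) {k : Type}
    [Field k] [Finite k] [Algebra k K] (F₀ F₁ F₂ : MvPolynomial (Fin 3) k) (s t : ℕ) (hs : 0 < s)
    (ht : 0 < t) (hst : s ≠ t) (hle : s + t ≤ 4) (h₀ : IsWeightedHomogeneous ![1, 2, 1] F₀ 4)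
    (h₁ : IsWeightedHomogeneous ![1, 2, 1] F₁ (4 - t))
    (h₂ : IsWeightedHomogeneous ![1, 2, 1] F₂ (4 - (s + t)))
    (hy : F₀.coeff (Finsupp.single 1 2) ≠ 0) (n₁ : F₁ ≠ 0) (n₂ : F₂ ≠ 0) (c : K) (hc : c ≠ 0) :
    (TS (MvPolynomial.map (algebraMap k K) F₀) (MvPolynomial.map (algebraMap k K) F₁)
      (MvPolynomial.map (algebraMap k K) F₂) s t c).Mem G ∨
    ∃ τ : ChgW ![1, 2, 1] k, NoV 0 (aeval τ.fwd F₀) ∧ NoV 0 (aeval τ.fwd F₁) ∧
      NoV 0 (aeval τ.fwd F₂)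

(W3) weights `1, 3, 1; 2`, `s = 2`, `t = 1`: `A₂ = 0`, `B₂` is a constant,
`H = H₀ + r H₁ + r ^ 2 A₁ ^ 2 - 4 a₀ c B₂ r ^ 3` is a sextic form in `x, r, z` with the weights
`1, 2, 1` (`cone6_mem` of `Helper49/CP`, `al H ≠ 0`); a trick lemma as `cone6_trx` for `E = r` of
weight two is needed (`r = α r' + q(x, z)`: if `q` is not a multiple of `z ^ 2`).
theorem mem_three [IsAlgClosed K] (h2 : (2 : K) ≠ 0) (hG : GOps K G) (hW : CstA G) {k : Type}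
    [Field k] [Finite k] [Algebra k K] (F₀ F₁ F₂ : MvPolynomial (Fin 3) k)
    (h₀ : IsWeightedHomogeneous ![1, 3, 1] F₀ 6) (h₁ : IsWeightedHomogeneous ![1, 3, 1] F₁ 4)
    (h₂ : IsWeightedHomogeneous ![1, 3, 1] F₂ 0) (hy : F₀.coeff (Finsupp.single 1 2) ≠ 0)
    (n₁ : F₁ ≠ 0) (n₂ : F₂ ≠ 0) (c : K) (hc : c ≠ 0) :
    (TS (MvPolynomial.map (algebraMap k K) F₀) (MvPolynomial.map (algebraMap k K) F₁)
      (MvPolynomial.map (algebraMap k K) F₂) 2 1 c).Mem G ∨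
    ∃ τ : ChgW ![1, 3, 1] k, NoV 0 (aeval τ.fwd F₀) ∧ NoV 0 (aeval τ.fwd F₁) ∧
      NoV 0 (aeval τ.fwd F₂)

(W4) weights `2, 3, 1; 1`: `H` is a sextic form in `r, x, z` with the weights `1, 2, 1`, and the
coefficient of `x ^ 3` is `≠ 0`; `τ H` does not contain one of the two variables of weight one. If
`r` is not invariant: the trick (the part `r = 0` is isomorphic to the surface). If `r` is
invariant: `H(x, r, z) = Γ(x - q₀ z ^ 2 - q₁ r z, r)`; `q₀` is in `k` (`r = 0`; if `p = 3` take the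
cube root), so WLOG `q₀ = 0`, and WLOG `A₀ = 0`; `Γ = g₀ x ^ 3 + g₁ x ^ 2 r ^ 2 + g₂ x r ^ 4 +
g₃ r ^ 6`. If `q₁ = 0` compare coefficients (the exponents `t, 2 t, s + t, s + 2 t, 2 s + 2 t` of `r`
in `H` are different) and get the second alternative. If `q₁ ≠ 0`: the coefficients of `r, ..., r ^ 6`
are `- 3 g₀ q₁ x ^ 2 z`, `3 g₀ q₁ ^ 2 x z ^ 2 + g₁ x ^ 2`, `- g₀ q₁ ^ 3 z ^ 3 - 2 g₁ q₁ x z`,
`g₁ q₁ ^ 2 z ^ 2 + g₂ x`, `- g₂ q₁ z`, `g₃`; the third is not zero: `t = 3` or `s + t = 3`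
(`3 = 2 t, s + 2 t, 2 s + 2 t` is impossible). `t = 3`: `g₁ = 0`, then `g₂ = 0`, `B₂ = 0`,
contradiction. `(s, t) = (2, 1)`: `A₁ ^ 2 = 3 g₀ q₁ ^ 2 x z ^ 2 + g₁ x ^ 2`, so `p = 3`, `B₁ = 0`,
`- 2 c A₁ A₂ = g₁ q₁ ^ 2 z ^ 2`, so `g₁ = 0`, `A₁ = 0`, contradiction. `(s, t) = (1, 2)`: `p = 3`,
`A₁ = α z`, `α ^ 2 = g₁ q₁ ^ 2`, `4 a₀ B₁ = g₁ x ^ 2`, so `g₁ ≠ 0` and `q₁` is algebraic over `k`, and
`4 a₀ c B₂ = g₀ q₁ ^ 3 z ^ 3 + 2 g₁ q₁ x z`, so `c` is algebraic over `k`: then the cone is a line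
times a constant surface (`Cst` for the finite field `k(c, q₁)`).
theorem mem_two [IsAlgClosed K] (h2 : (2 : K) ≠ 0) (hG : GOps K G) (hW : CstA G) {k : Type}
    [Field k] [Finite k] [Algebra k K] (F₀ F₁ F₂ : MvPolynomial (Fin 3) k) (s t : ℕ) (hs : 0 < s)
    (ht : 0 < t) (hst : s ≠ t) (hle : s + t ≤ 6) (h₀ : IsWeightedHomogeneous ![2, 3, 1] F₀ 6)
    (h₁ : IsWeightedHomogeneous ![2, 3, 1] F₁ (6 - t))
    (h₂ : IsWeightedHomogeneous ![2, 3, 1] F₂ (6 - (s + t)))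
    (hx : F₀.coeff (Finsupp.single 0 3) ≠ 0) (hy : F₀.coeff (Finsupp.single 1 2) ≠ 0)
    (n₁ : F₁ ≠ 0) (n₂ : F₂ ≠ 0) (c : K) (hc : c ≠ 0) :
    (TS (MvPolynomial.map (algebraMap k K) F₀) (MvPolynomial.map (algebraMap k K) F₁)
      (MvPolynomial.map (algebraMap k K) F₂) s t c).Mem G ∨
    ∃ τ : ChgW ![2, 3, 1] k, NoV 2 (aeval τ.fwd F₀) ∧ NoV 2 (aeval τ.fwd F₁) ∧
      NoV 2 (aeval τ.fwd F₂)

(W5) three polynomials which are linear in `y` (any degree in `x`). Proof: `γ₀ f₀ + γ₁ f₁ + γ₂ f₂ = 0`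
with `γ_i` in `k[x]` (minors). If all `γ_i ≠ 0`: over the open set `γ₀ γ₁ γ₂ ≠ 0` (the rest is a curve:
`qa_curve`, `qa_glue`) `v = - γ₀ f₀ / (γ₁ f₁)` is a coordinate of the line over `x`, and
`v ^ s (1 - v) ^ t = κ(x) f₀ ^ s f₂ ^ t / f₁ ^ (s + t)`; the covers `u ^ n = κ(x)` and
`w' ^ n = v ^ s (1 - v) ^ t` are curves, and the product of the two curves is finite over the cover
(`transfer`). If a minor vanishes two of the three are proportional over `k(x)`, and the quotient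
has the form `κ(x) v ^ i` (`v = f / g` a coordinate) or `κ(x)`.
theorem qa_lin {p : ℕ} {P : ∀ (A : Type) [CommRing A], Prop} {k : Type} [Field k] [Finite k]
    (hP : FormalClass p P) (hk : (p : k) = 0) {n : ℕ} (hn : n ≠ 0)
    (f₀ f₁ f₂ : MvPolynomial (Fin 2) k) (l₀ : ∀ m ∈ f₀.support, m 1 ≤ 1)
    (l₁ : ∀ m ∈ f₁.support, m 1 ≤ 1) (l₂ : ∀ m ∈ f₂.support, m 1 ≤ 1) (n₀ : f₀ ≠ 0)
    (n₁ : f₁ ≠ 0) (n₂ : f₂ ≠ 0) (s t : ℕ) (hs : 0 < s) (ht : 0 < t) :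
    QA P n (f₀ ^ s * f₂ ^ t) (f₁ ^ (s + t)) ⊥ (f₀ * f₁ * f₂)

(W6) `qa_bin` for arbitrary weights, and the product cases.
theorem qa_binw {p : ℕ} {P : ∀ (A : Type) [CommRing A], Prop} {k : Type} [Field k] [Finite k]
    (hP : FormalClass p P) (hk : (p : k) = 0) {n : ℕ} (hn : n ≠ 0) {a b d e N : ℕ} (ha : 0 < a)
    (hb : 0 < b) {A B u : MvPolynomial (Fin 2) k} (hA : Hom ![a, b] d A) (hB : Hom ![a, b] d B)
    (hu : Hom ![a, b] e u) (hBu : B ∣ u ^ N) : QA P n A B ⊥ u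
(finite free cover `x = ξ ^ a`, `y = η ^ b`, `qa_bin` and `transfer`)
theorem qa_chg {p : ℕ} {P : ∀ (A : Type) [CommRing A], Prop} {k : Type} [Field k] [Finite k]
    (hP : FormalClass p P) (hk : (p : k) = 0) {n : ℕ} (hn : n ≠ 0) {w : Fin 3 → ℕ}
    (hw : ∀ i, 0 < w i) {d e N : ℕ} {A B u : MvPolynomial (Fin 3) k}
    (hA : IsWeightedHomogeneous w A d) (hB : IsWeightedHomogeneous w B d)
    (hu : IsWeightedHomogeneous w u e) (hBu : B ∣ u ^ N) (τ : ChgW w k) (i : Fin 3)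
    (nA : NoV i (aeval τ.fwd A)) (nB : NoV i (aeval τ.fwd B)) (nu : NoV i (aeval τ.fwd u)) :
    QA P n A B ⊥ u
-/

end Pool.Agent.Helper9.TP
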