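import Pool.Agent.Helper9.TP.Main

/-!
# Cyclic covers of the plane given by pencils `F ^ 2 = t G ^ 3`
-/

set_option autoImplicit false

namespace Pool.Agent.Helper9.TP

open Polynomial
open Pool.Agent.Helper29.CQ (FormalClass GOps)
open Pool.Agent.Helper29.PF (StableClass)
open Pool.Agent.Helper65.CC Pool.Agent.Helper65.CC.KFn
open Pool.Agent.Helper9.QP (Gen gen_insep Cst)
open Pool.Agent.Helper67.CQ (ex_root)
open Pool.Agent.Helper71.CP (ev ev_map)

/-- the blocks of the geometric part -/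
structure CubicBlocks : Prop where
  cu_mem : ∀ {K : Type} [Field K] [IsAlgClosed K]
    {G : ∀ (R : Type) [CommRing R] [Algebra K R], Prop} (_ : (2 : K) ≠ 0) (_ : GOps K G)
    (F Q : MvPolynomial (Fin 3) K), F.IsHomogeneous 3 → Q.IsHomogeneous 2 → ∀ e : K, e ≠ 0 →
    (∀ v : Fin 4 → K, v ≠ 0 → ¬ InvU F Q e v) → (CU F Q e).Mem G
  cu_inv : ∀ {K : Type} [Field K] [IsAlgClosed K]
    {G : ∀ (R : Type) [CommRing R] [Algebra K R], Prop} (_ : (2 : K) ≠ 0) (_ : GOps K G)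
    {k : Type} [Field k] [Finite k] [Algebra k K], Cst k G →
    ∀ (F Q : MvPolynomial (Fin 3) k), F.IsHomogeneous 3 → Q.IsHomogeneous 2 → F ≠ 0 →
    ∀ e : K, e ≠ 0 → ∀ v : Fin 4 → K, v ≠ 0 →
    InvU (MvPolynomial.map (algebraMap k K) F) (MvPolynomial.map (algebraMap k K) Q) e v →
    (CU (MvPolynomial.map (algebraMap k K) F) (MvPolynomial.map (algebraMap k K) Q) e).Mem G ∨
    ∃ u : Fin 3 → K, u ≠ 0 ∧ InvP (MvPolynomial.map (algebraMap k K) F) u ∧
      InvP (MvPolynomial.map (algebraMap k K) Q) u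
  fib3_ne : ∀ {K : Type} [Field K] [IsAlgClosed K]
    {G : ∀ (R : Type) [CommRing R] [Algebra K R], Prop} (_ : (2 : K) ≠ 0) (_ : GOps K G)
    {k : Type} [Field k] [Finite k] [Algebra k K], Cst k G →
    ∀ (F Q : MvPolynomial (Fin 3) k), F.IsHomogeneous 3 → Q.IsHomogeneous 2 → F ≠ 0 → Q ≠ 0 →
    ∀ e : K, e ≠ 0 →
    (CU (MvPolynomial.map (algebraMap k K) F) (MvPolynomial.map (algebraMap k K) Q) e).Mem G →
    (FibT (MvPolynomial.map (algebraMap k K) (F ^ 2)) (MvPolynomial.map (algebraMap k K) (Q ^ 3))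
      (MvPolynomial.map (algebraMap k K) (F * Q)) 2 1 e).Mem G
  fib3_zero : ∀ {K : Type} [Field K] [IsAlgClosed K]
    {G : ∀ (R : Type) [CommRing R] [Algebra K R], Prop} (_ : GOps K G)
    {k : Type} [Field k] [Finite k] [Algebra k K], Cst k G →
    ∀ (F Q : MvPolynomial (Fin 3) k), F.IsHomogeneous 3 → Q.IsHomogeneous 2 → F ≠ 0 → Q ≠ 0 →
    (FibT (MvPolynomial.map (algebraMap k K) (F ^ 2)) (MvPolynomial.map (algebraMap k K) (Q ^ 3))
      (MvPolynomial.map (algebraMap k K) (F * Q)) 2 1 0).Mem G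
  desc : ∀ {k K : Type} [Field k] [Finite k] [Field K] [Algebra k K]
    (S : Set (MvPolynomial (Fin 3) k)) (v : Fin 3 → K), v ≠ 0 →
    (∀ F ∈ S, InvP (MvPolynomial.map (algebraMap k K) F) v) →
    ∃ u : Fin 3 → k, u ≠ 0 ∧ ∀ F ∈ S, InvP F u

variable {p : ℕ} {P : ∀ (A : Type) [CommRing A], Prop} {k : Type} [Field k]

theorem two_ne {K : Type} [Field K] (hp : p.Prime) (hp2 : p ≠ 2) [CharP K p] : (2 : K) ≠ 0 := by
  intro h0
  have h1 := (CharP.cast_eq_zero_iff K p 2).1 (by exact_mod_cast h0)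
  exact hp2 ((Nat.prime_dvd_prime_iff_eq hp Nat.prime_two).1 h1)

/-- the fibres of the cubic type -/
theorem fib3 (Bl : CubicBlocks) [Finite k] (F Q : MvPolynomial (Fin 3) k)
    (hF : F.IsHomogeneous 3) (hQ : Q.IsHomogeneous 2) (hF0 : F ≠ 0) (hQ0 : Q ≠ 0)
    (hinv : ¬ ∃ u : Fin 3 → k, u ≠ 0 ∧ InvP F u ∧ InvP Q u)
    {K : Type} [Field K] [IsAlgClosed K] [Algebra k K]
    {G : ∀ (R : Type) [CommRing R] [Algebra K R], Prop} (h2 : (2 : K) ≠ 0) (hG : GOps K G)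
    (hW : Cst k G) (e : K) :
    (FibT (MvPolynomial.map (algebraMap k K) (F ^ 2)) (MvPolynomial.map (algebraMap k K) (Q ^ 3))
      (MvPolynomial.map (algebraMap k K) (F * Q)) 2 1 e).Mem G := by
  by_cases he : e = 0
  · rw [he]
    exact Bl.fib3_zero hG hW F Q hF hQ hF0 hQ0
  refine Bl.fib3_ne h2 hG hW F Q hF hQ hF0 hQ0 e he ?_
  by_cases h : ∀ v : Fin 4 → K, v ≠ 0 → ¬ InvU (MvPolynomial.map (algebraMap k K) F)
      (MvPolynomial.map (algebraMap k K) Q) e v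
  · exact Bl.cu_mem h2 hG _ _ (hF.map _) (hQ.map _) e he h
  push Not at h
  obtain ⟨v, hv, hi⟩ := h
  rcases Bl.cu_inv h2 hG hW F Q hF hQ hF0 e he v hv hi with h1 | ⟨u, hu, hu1, hu2⟩
  · exact h1
  · exfalso
    obtain ⟨w, hw, hw1⟩ := Bl.desc {F, Q} u hu (by
      rintro H (rfl | hH)
      · exact hu1
      · rw [Set.mem_singleton_iff] at hH
        rw [hH]
        exact hu2)
    exact hinv ⟨w, hw, hw1 F (by simp), hw1 Q (by simp)⟩

/-- the open part of the cyclic cover of the plane -/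
theorem cubic_open (Bl : CubicBlocks) (hp : p.Prime) (hp2 : p ≠ 2) (hP : TriClass p P) [Finite k]
    [CharP k p] {n : ℕ} (hn : n ≠ 0) (hpn : ¬ p ∣ n) (f g : MvPolynomial (Fin 2) k)
    (hf : f.totalDegree ≤ 3) (hg : g.totalDegree ≤ 2) (hf0 : f ≠ 0) (hg0 : g ≠ 0) :
    QA P n (f ^ 2) (g ^ 3) ⊥ (f * g) := by
  have hdeg : ∀ (h : MvPolynomial (Fin 2) k) (d : ℕ), h.totalDegree ≤ d →
      ∀ m ∈ h.support, m 0 + 1 * m 1 ≤ d := by
    intro h d hd m hm
    have h2 := MvPolynomial.le_totalDegree hm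
    have h3 : (m.sum fun _ e => e) = m 0 + m 1 := by
      rw [Finsupp.sum_fintype _ _ (fun _ => rfl), Fin.sum_univ_two]
    omega
  obtain ⟨F, hF, rfl⟩ := exists_hom (b := 1) f (hdeg f 3 hf)
  obtain ⟨Q, hQ, rfl⟩ := exists_hom (b := 1) g (hdeg g 2 hg)
  have hw : (![1, 1, 1] : Fin 3 → ℕ) = 1 := by
    funext i
    fin_cases i <;> rfl
  have hF' : F.IsHomogeneous 3 := by
    rw [hw] at hF
    exact hF
  have hQ' : Q.IsHomogeneous 2 := by
    rw [hw] at hQ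
    exact hQ
  have hF0 : F ≠ 0 := fun h => hf0 (by rw [h, map_zero])
  have hQ0 : Q ≠ 0 := fun h => hg0 (by rw [h, map_zero])
  have hA : Hom ![1, 1, 1] (3 * 2) (F ^ 2) := (Hom.of_wh hF).pow 2
  have hB : Hom ![1, 1, 1] (3 * 2) (Q ^ 3) := (Hom.of_wh hQ).pow 3
  have hu : Hom ![1, 1, 1] (3 + 2) (F * Q) := (Hom.of_wh hF).mul (Hom.of_wh hQ)
  have hBu : Q ^ 3 ∣ (F * Q) ^ 3 := by
    rw [mul_pow]
    exact Dvd.intro_left _ rfl
  have hAu : F ^ 2 ∣ (F * Q) ^ 2 := by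
    rw [mul_pow]
    exact Dvd.intro _ rfl
  have key : QA P n (F ^ 2) (Q ^ 3) ⊥ (F * Q) := by
    by_cases hinv : ∃ u : Fin 3 → k, u ≠ 0 ∧ InvP F u ∧ InvP Q u
    · obtain ⟨u, hu0, h1, h2⟩ := hinv
      exact qa_prod hP.toFormalClass (CharP.cast_eq_zero k p) hn hA hB hu hBu u hu0 (h1.pow 2)
        (h2.pow 3) (h1.mul h2)
    · refine red_cone hp hP hpn hBu hAu two_pos one_pos ?_
      intro K _ _ _ _ G hG hW e
      exact fib3 Bl F Q hF' hQ' hF0 hQ0 hinv (two_ne hp hp2) hG hW e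
  have := red_aff hP.toStableClass hn hA hB hu hBu key
  rwa [map_pow, map_pow, map_mul] at this

/-- **Cyclic covers of the plane branched along a cubic curve and a conic**:
`g ^ 3 w ^ n = f ^ 2`. -/
theorem cubic_pencils (Bl : CubicBlocks) (hp : p.Prime) (hp2 : p ≠ 2) (hP : TriClass p P)
    [Finite k] [CharP k p] (f g : MvPolynomial (Fin 2) k) (hf : f.totalDegree ≤ 3)
    (hg : g.totalDegree ≤ 2) (n : ℕ) (hn : 0 < n) :
    P (Gen (MvPolynomial (Fin 2) k) n (g ^ 3) (f ^ 2)) := by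
  have hpp : Fact p.Prime := ⟨hp⟩
  have hk : (p : k) = 0 := CharP.cast_eq_zero k p
  have hP' := hP.toFormalClass
  induction n using Nat.strong_induction_on generalizing f g with
  | _ n ih =>
  by_cases hpn : p ∣ n
  · obtain ⟨m, rfl⟩ := hpn
    have hm : 0 < m := Nat.pos_of_mul_pos_left hn
    obtain ⟨φ, hφ⟩ := ex_root hk f
    obtain ⟨φ', hφ'⟩ := ex_root hk g
    have hd : ∀ (ψ : k →+* k) (a : MvPolynomial (Fin 2) k) (d : ℕ), a.totalDegree ≤ d →
        (MvPolynomial.map ψ a).totalDegree ≤ d := fun ψ a d ha =>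
      (Finset.sup_mono (MvPolynomial.support_map_subset ψ a)).trans ha
    refine gen_insep hP' hk (g ^ 3) (f ^ 2) (MvPolynomial.map φ' g ^ 3)
      (MvPolynomial.map φ f ^ 2) ?_ ?_ ?_
    · rw [map_pow, hφ', ← pow_mul, ← pow_mul, mul_comm]
    · rw [map_pow, hφ, ← pow_mul, ← pow_mul, mul_comm]
    · exact ih m (by nlinarith [hp.two_le]) _ _ (hd φ f 3 hf) (hd φ' g 2 hg) hm
  · refine gen_mem hP' hk hn.ne' (g ^ 3) (f ^ 2) fun hA hB => ?_
    have hf0 : f ≠ 0 := fun h => hA (by rw [h, zero_pow two_ne_zero])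
    have hg0 : g ≠ 0 := fun h => hB (by rw [h, zero_pow three_ne_zero])
    refine qa_big hP' hk hn.ne' (mul_ne_zero hf0 hg0) (N := 3) ?_
      (cubic_open Bl hp hp2 hP hn.ne' hpn f g hf hg hf0 hg0)
    rw [mul_pow]
    exact Dvd.intro_left _ rfl

end Pool.Agent.Helper9.TP
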