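import Pool.Agent.Helper9.CT.Fibres
import Pool.Agent.Helper29.PF.Stable

/-!
# The fibres of the threefolds `a z ^ n = v ^ s (1 - v) ^ t` over the `z`-line
-/

set_option autoImplicit false

namespace Pool.Agent.Helper9.TP

open Pool.Agent.Helper29.CQ Pool.Agent.Helper65.CC Pool.Agent.Helper87.CC
  Pool.Agent.Helper65.CC.KFn
open Pool.Agent.Helper29.PF (StableClass)
open Pool.Agent.Helper9.CT (base base_C base_X)
open Polynomial TensorProduct

/-- Stable classes with the untwisting by the curves `u ^ n = v ^ s (1 - v) ^ t`. -/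
structure TriClass (p : ℕ) (P : ∀ (A : Type) [CommRing A], Prop) : Prop
    extends StableClass p P where
  /-- untwisting: `Spec A[z, v] / (a z ^ n - v ^ s (1 - v) ^ t)` is the quotient by the roots of
  unity of the product of `w ^ n = a` and the curve `u ^ n = v ^ s (1 - v) ^ t` -/
  untwist : ∀ (A : Type) [CommRing A] (a : A) (n s t : ℕ), IsUnit a → ¬ p ∣ n → 0 < s → 0 < t →
    P (AdjoinRoot (C (C a * X ^ n) - X ^ s * (1 - X) ^ t : Polynomial (Polynomial A))) →
    P (AdjoinRoot (X ^ n - C a : Polynomial A))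

/-- `D = R[z, v] / (a z ^ n - v ^ s (1 - v) ^ t)` -/
structure IsTri {R D : Type} [CommRing R] [CommRing D] (i : R →+* D) (z v : D) (n s t : ℕ)
    (a : R) : Prop where
  rel : i a * z ^ n = v ^ s * (1 - v) ^ t
  ex : ∀ (E : Type) [CommRing E] (u : R →+* E) (c d : E), u a * c ^ n = d ^ s * (1 - d) ^ t →
    ∃ h : D →+* E, h.comp i = u ∧ h z = c ∧ h v = d
  uniq : ∀ (E : Type) [CommRing E] (h h' : D →+* E), h.comp i = h'.comp i → h z = h' z →
    h v = h' v → h = h'

/-- the standard model -/
abbrev Tri (R : Type) [CommRing R] (n s t : ℕ) (a : R) : Type :=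
  AdjoinRoot (C (C a * X ^ n) - X ^ s * (1 - X) ^ t : R[X][X])

theorem isTri_std {R : Type} [CommRing R] (n s t : ℕ) (a : R) :
    IsTri ((AdjoinRoot.of (C (C a * X ^ n) - X ^ s * (1 - X) ^ t : R[X][X])).comp C)
      (AdjoinRoot.of (C (C a * X ^ n) - X ^ s * (1 - X) ^ t : R[X][X]) X)
      (AdjoinRoot.root (C (C a * X ^ n) - X ^ s * (1 - X) ^ t : R[X][X])) n s t a where
  rel := by
    have h := AdjoinRoot.eval₂_root (C (C a * X ^ n) - X ^ s * (1 - X) ^ t : R[X][X])
    rw [eval₂_sub, eval₂_C, eval₂_mul, eval₂_pow, eval₂_pow, eval₂_sub, eval₂_X, eval₂_one,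
      sub_eq_zero] at h
    refine Eq.trans ?_ h
    rw [RingHom.comp_apply, ← map_pow, ← map_mul]
  ex E _ u c d h := by
    have h1 : (C (C a * X ^ n) - X ^ s * (1 - X) ^ t : R[X][X]).eval₂ (eval₂RingHom u c) d = 0 := by
      rw [eval₂_sub, eval₂_C, eval₂_mul, eval₂_pow, eval₂_pow, eval₂_sub, eval₂_X, eval₂_one,
        sub_eq_zero, map_mul, map_pow, coe_eval₂RingHom, eval₂_C, eval₂_X]
      exact h
    refine ⟨AdjoinRoot.lift (eval₂RingHom u c) d h1, ?_, ?_, ?_⟩
    · rw [← RingHom.comp_assoc, AdjoinRoot.lift_comp_of]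
      ext x
      simp
    · rw [AdjoinRoot.lift_of, coe_eval₂RingHom, eval₂_X]
    · rw [AdjoinRoot.lift_root]
  uniq E _ h h' h1 h2 h3 := by
    refine AdjoinRoot.ringHom_ext ?_ h3
    refine Polynomial.ringHom_ext' ?_ h2
    rw [RingHom.comp_assoc, h1, RingHom.comp_assoc]

theorem tri_ft {R : Type} [CommRing R] (n s t : ℕ) (a : R) (hR : Algebra.FiniteType ℤ R) :
    Algebra.FiniteType ℤ (Tri R n s t a) := by
  have h1 : Algebra.FiniteType ℤ R[X] := ft_alg hR inferInstance
  have h1' : Algebra.FiniteType ℤ R[X][X] := ft_alg h1 inferInstance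
  exact ft_of_surj h1' (AdjoinRoot.mk _) AdjoinRoot.mk_surjective

section

variable {k R : Type} [Field k] [CommRing R] [Algebra k R]

/-- the fibre: points `ρ : R → S` and `v` in `S` with `ρ(a) z ^ n = v ^ s (1 - v) ^ t` -/
def triF {K : Type} [Field K] (φ : k[X] →+* K) (a : R) (n s t : ℕ) : KFn K where
  obj S _ _ := {q : (R →+* S) × S // (∀ c : k, q.1 (algebraMap k R c) = algebraMap K S (φ (C c))) ∧
    q.1 a * algebraMap K S (φ X) ^ n = q.2 ^ s * (1 - q.2) ^ t}
  map {S T} _ _ _ _ g q := ⟨((g : S →+* T).comp q.1.1, g q.1.2), fun c => by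
      change g (q.1.1 (algebraMap k R c)) = _
      rw [q.2.1 c, g.commutes], by
      have h1 := congrArg g q.2.2
      have h2 : g (q.1.1 a * algebraMap K S (φ X) ^ n) = g (q.1.1 a) * algebraMap K T (φ X) ^ n := by
        rw [map_mul, map_pow, g.commutes]
      have h3 : g (q.1.2 ^ s * (1 - q.1.2) ^ t) = g q.1.2 ^ s * (1 - g q.1.2) ^ t := by
        rw [map_mul, map_pow, map_pow, map_sub, map_one]
      exact h2.symm.trans (h1.trans h3)⟩
  id_map q := rfl
  comp_map _ _ _ := rfl

theorem rep_triF {D : Type} [CommRing D] {i : R →+* D} {z v : D} {n s t : ℕ} {a : R}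
    (hD : IsTri i z v n s t a) {K : Type} [Field K] [Algebra k[X] K] :
    let _ : Algebra k[X] D := (base (k := k) i z).toAlgebra
    ∃ pt, (triF (algebraMap k[X] K) a n s t).Rep (K ⊗[k[X]] D) pt := by
  intro _
  let ι : D →ₐ[k[X]] K ⊗[k[X]] D := Algebra.TensorProduct.includeRight
  have hι : ∀ r : k[X], algebraMap K (K ⊗[k[X]] D) (algebraMap k[X] K r) =
      ι (base (k := k) i z r) := by
    intro r
    have h1 := ι.commutes r
    change ι (base (k := k) i z r) = _ at h1
    rw [h1, IsScalarTower.algebraMap_apply k[X] K (K ⊗[k[X]] D)]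
  refine ⟨⟨((ι : D →+* K ⊗[k[X]] D).comp i, ι v), ?_, ?_⟩, ?_⟩
  · intro c
    change ι (i (algebraMap k R c)) = _
    rw [hι, base_C]
  · change ι (i a) * _ = ι v ^ s * (1 - ι v) ^ t
    rw [hι, base_X, ← map_pow, ← map_mul, hD.rel, map_mul, map_pow, map_pow, map_sub, map_one]
  · intro S _ _ q
    let _ : Algebra k[X] S := ((algebraMap K S).comp (algebraMap k[X] K)).toAlgebra
    have hst : IsScalarTower k[X] K S := IsScalarTower.of_algebraMap_eq fun _ => rfl
    obtain ⟨h2, h2i, h2z, h2v⟩ := hD.ex S q.1.1 (algebraMap K S (algebraMap k[X] K X)) q.1.2 q.2.2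
    have hcomm : ∀ r : k[X], h2 (base (k := k) i z r) =
        algebraMap K S (algebraMap k[X] K r) := by
      intro r
      have h3 : h2.comp (base (k := k) i z) = (algebraMap K S).comp (algebraMap k[X] K) := by
        apply Polynomial.ringHom_ext
        · intro c
          rw [RingHom.comp_apply, base_C, ← RingHom.comp_apply, h2i, q.2.1]
          rfl
        · rw [RingHom.comp_apply, base_X, h2z]
          rfl
      exact RingHom.congr_fun h3 r
    let h2' : D →ₐ[k[X]] S := { h2 with commutes' := hcomm }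
    let g0 : K ⊗[k[X]] D →ₐ[K] S :=
      Algebra.TensorProduct.lift (Algebra.ofId K S) h2' (fun _ _ => Commute.all _ _)
    have hg0 : ∀ d : D, g0 (ι d) = h2 d := by
      intro d
      change g0 ((1 : K) ⊗ₜ d) = h2 d
      simp only [g0, Algebra.TensorProduct.lift_tmul, map_one, one_mul]
      rfl
    refine ⟨g0, ?_, ?_⟩
    · apply Subtype.ext
      refine Prod.ext ?_ ?_
      · refine RingHom.ext fun x => ?_
        change g0 (ι (i x)) = q.1.1 x
        rw [hg0, ← h2i]
        rfl
      · change g0 (ι v) = q.1.2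
        rw [hg0, h2v]
    · intro g' hg'
      have e0 := congrArg Subtype.val hg'
      have e1 : ∀ x, g' (ι (i x)) = q.1.1 x := by
        intro x
        have := congrArg (fun r => r.1 x) e0
        exact this
      have e2 : g' (ι v) = q.1.2 := congrArg (fun r => r.2) e0
      apply Algebra.TensorProduct.ext
      · ext
      · apply AlgHom.coe_ringHom_injective
        apply hD.uniq
        · refine RingHom.ext fun x => ?_
          change g' (ι (i x)) = g0 (ι (i x))
          rw [e1, hg0, ← h2i]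
          rfl
        · change g' (ι z) = g0 (ι z)
          rw [← base_X (k := k) i z, ← hι, AlgHom.commutes, AlgHom.commutes]
        · change g' (ι v) = g0 (ι v)
          rw [e2, hg0, h2v]

end

/-- **the fibre decomposition** over the `z`-line; all constant curves over finite fields are in
the class `G` -/
theorem tri_mem' {p : ℕ} (hp : p.Prime) {P : ∀ (A : Type) [CommRing A], Prop}
    (hP : FormalClass p P) (k : Type) [Field k] [Finite k] [CharP k p] (R : Type) [CommRing R]
    [Algebra k R] (hR : Algebra.FiniteType ℤ R) (a : R) (n s t : ℕ)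
    (h : ∀ (K : Type) [Field K] [IsAlgClosed K] [CharP K p] (φ : k[X] →+* K)
      (G : ∀ (R : Type) [CommRing R] [Algebra K R], Prop), GOps K G →
      (∀ (k' : Type) [Field k'] [Finite k'] [Algebra k' K] (W : Type) [CommRing W] [Algebra k' W],
        Algebra.FiniteType ℤ W → ringKrullDim W ≤ 1 → G (K ⊗[k'] W)) → (triF φ a n s t).Mem G) :
    P (Tri R n s t a) := by
  have hS := Pool.Agent.Helper9.CQ.Sops.sops hp hP
  have hft1 : Algebra.FiniteType ℤ k := by
    have : Module.Finite ℤ k := Module.Finite.of_finite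
    infer_instance
  have hft2 : Algebra.FiniteType ℤ k[X] := ft_alg hft1 inferInstance
  have hD := isTri_std n s t a
  have hft3 : Algebra.FiniteType ℤ (Tri R n s t a) := tri_ft n s t a hR
  let _ : Algebra k[X] (Tri R n s t a) := (base (k := k)
    ((AdjoinRoot.of (C (C a * X ^ n) - X ^ s * (1 - X) ^ t : R[X][X])).comp C)
      (AdjoinRoot.of (C (C a * X ^ n) - X ^ s * (1 - X) ^ t : R[X][X]) X)).toAlgebra
  have hft4 : Algebra.FiniteType k[X] (Tri R n s t a) :=
    Algebra.FiniteType.of_restrictScalars_finiteType ℤ k[X] (Tri R n s t a)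
  have hdim : ∀ q : Ideal k[X], ringKrullDim (k[X] ⧸ q) ≤ 1 := by
    intro q
    refine (ringKrullDim_quotient_le q).trans ?_
    rw [Polynomial.ringKrullDim_of_isNoetherianRing, ringKrullDim_eq_zero_of_field]
    exact le_of_eq (zero_add 1)
  have hmult : MultS (fun A _ => Algebra.FiniteType ℤ A ∧ P (ZMod p ⊗[ℤ] A)) (Tri R n s t a) := by
    refine Pool.Agent.Helper20.BL.fibres_mult hS hft2 hft4 ?_ ?_
    · intro q _ _
      have hcp : CharP (AlgebraicClosure q.ResidueField) p :=
        charP_of_injective_ringHom (((algebraMap k[X]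
          (AlgebraicClosure q.ResidueField)).comp C).injective) p
      obtain ⟨pt, hpt⟩ := rep_triF (k := k) hD (K := AlgebraicClosure q.ResidueField)
      have hmem := h (AlgebraicClosure q.ResidueField)
        (algebraMap k[X] (AlgebraicClosure q.ResidueField)) _
        (Pool.Agent.Helper9.CQ.Thr.geo_gops hS (AlgebraicClosure q.ResidueField))
        (fun _ _ _ _ W _ _ h1 h3 => Pool.Agent.Helper9.CQ.ConstOver.const_over W
            (MultS.curve hS (CurveProd.of_dim h1 h3)))
      exact hmem _ pt (Algebra.FiniteType.baseChange _) hpt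
    · intro q _ h
      exact absurd h (not_lt.2 (hdim q))
  have h1 := (MultS.mem hS hmult).2
  have hchar : ((p : ℕ) : Tri R n s t a) = 0 := by
    have h5 : ((p : ℕ) : k) = 0 := CharP.cast_eq_zero k p
    have h6 := congrArg (((AdjoinRoot.of
      (C (C a * X ^ n) - X ^ s * (1 - X) ^ t : R[X][X])).comp C).comp (algebraMap k R)) h5
    rwa [map_natCast, map_zero] at h6
  obtain ⟨e⟩ := Pool.Agent.Helper9.CQ.Thr.zmod_ten (Tri R n s t a) hchar
  exact hP.iso _ _ e h1

/-- **the fibre decomposition** over the `z`-line -/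
theorem tri_mem {p : ℕ} (hp : p.Prime) {P : ∀ (A : Type) [CommRing A], Prop}
    (hP : FormalClass p P) (k : Type) [Field k] [Finite k] [CharP k p] (R : Type) [CommRing R]
    [Algebra k R] (hR : Algebra.FiniteType ℤ R) (a : R) (n s t : ℕ)
    (h : ∀ (K : Type) [Field K] [IsAlgClosed K] [CharP K p] (φ : k[X] →+* K)
      (G : ∀ (R : Type) [CommRing R] [Algebra K R], Prop), GOps K G →
      (∀ (_ : Algebra k K) (W : Type) [CommRing W] [Algebra k W], Algebra.FiniteType ℤ W →
        ringKrullDim W ≤ 1 → G (K ⊗[k] W)) → (triF φ a n s t).Mem G) :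
    P (Tri R n s t a) :=
  tri_mem' hp hP k R hR a n s t fun K _ _ _ φ G hG hW =>
    h K φ G hG fun _ W _ _ h1 h2 => hW k W h1 h2

end Pool.Agent.Helper9.TP
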