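import Pool.Agent.Helper9.TP.Arith
import Pool.Agent.Helper9.QP.Prod

/-!
# Forms in two linear forms
-/

set_option autoImplicit false

namespace Pool.Agent.Helper9.TP

open Polynomial
open Pool.Agent.Helper87.CC (IsLC isLC_std ft_of_surj ft_of_hom ft_loc ft_alg)
open Pool.Agent.Helper29.CQ (FormalClass)
open Pool.Agent.Helper67.CQ
open Pool.Agent.Helper9.QP (sg sg_X ex_equiv)
open Pool.Agent.Helper71.CP (ev ev_map)

variable {p : ℕ} {P : ∀ (A : Type) [CommRing A], Prop} {k : Type} [Field k]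

section

variable (v : Fin 3 → k) (i : Fin 3) (m : Fin 2 → Fin 3) (Y : Fin 3 → MvPolynomial (Fin 2) k)

/-- the restriction to the plane -/
noncomputable def rs : MvPolynomial (Fin 3) k →ₐ[k] MvPolynomial (Fin 2) k :=
  MvPolynomial.aeval Y

theorem sg_inv (F : MvPolynomial (Fin 3) k) (hF : InvP F v) : sg v Y F = C (rs Y F) := by
  have h1 := hF (MvPolynomial (Fin 2) k)[X] (C (Y 0)) (C (Y 1)) (C (Y 2)) X
  have h2 : ∀ l, C (MvPolynomial.C (v l)) * X =
      X * algebraMap k (MvPolynomial (Fin 2) k)[X] (v l) := fun l => mul_comm _ _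
  have h3 : sg v Y = MvPolynomial.aeval ![C (Y 0) + X * algebraMap k _ (v 0),
      C (Y 1) + X * algebraMap k _ (v 1), C (Y 2) + X * algebraMap k _ (v 2)] := by
    apply MvPolynomial.algHom_ext
    intro l
    rw [sg_X, MvPolynomial.aeval_X, h2]
    fin_cases l <;> rfl
  have h4 : (IsScalarTower.toAlgHom k (MvPolynomial (Fin 2) k) (MvPolynomial (Fin 2) k)[X]).comp
      (rs Y) = MvPolynomial.aeval ![C (Y 0), C (Y 1), C (Y 2)] := by
    apply MvPolynomial.algHom_ext
    intro l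
    rw [AlgHom.comp_apply, rs, MvPolynomial.aeval_X, MvPolynomial.aeval_X]
    fin_cases l <;> rfl
  have h5 := DFunLike.congr_fun h4 F
  have h6 := DFunLike.congr_fun h3 F
  exact h6.trans (h1.trans h5.symm)

variable (hv : v i ≠ 0) (hY : Y i = 0) (hm : ∀ s, Y (m s) = MvPolynomial.X s)
  (hall : ∀ l, l = i ∨ ∃ s, l = m s)

include hY hm hall in
theorem rs_hom {d : ℕ} {F : MvPolynomial (Fin 3) k} (hF : Hom ![1, 1, 1] d F) :
    Hom ![1, 1] d (rs Y F) := by
  intro R _ _ x t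
  have h1 : ∀ y : Fin 2 → R, MvPolynomial.aeval y (rs Y F) =
      MvPolynomial.aeval (fun l => MvPolynomial.aeval y (Y l)) F := by
    intro y
    have h2 : (MvPolynomial.aeval y).comp (rs Y) =
        MvPolynomial.aeval (fun l => MvPolynomial.aeval y (Y l)) := by
      apply MvPolynomial.algHom_ext
      intro l
      simp [rs]
    exact DFunLike.congr_fun h2 F
  rw [h1, h1]
  have h3 := hF R (fun l => MvPolynomial.aeval x (Y l)) t
  rw [← h3]
  congr 1
  congr 1
  funext l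
  have h4 : (![1, 1, 1] : Fin 3 → ℕ) l = 1 := by fin_cases l <;> rfl
  rw [h4, pow_one]
  rcases hall l with rfl | ⟨s, rfl⟩
  · rw [hY, map_zero, map_zero, mul_zero]
  · rw [hm, MvPolynomial.aeval_X, MvPolynomial.aeval_X]
    have h5 : (![1, 1] : Fin 2 → ℕ) s = 1 := by fin_cases s <;> rfl
    rw [h5, pow_one]

include hv hY hm hall in
theorem prod_step [Finite k] (hP : FormalClass p P) (hk : (p : k) = 0) {n : ℕ} (hn : n ≠ 0)
    {d e N : ℕ} {A B u : MvPolynomial (Fin 3) k} (hA : Hom ![1, 1, 1] d A)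
    (hB : Hom ![1, 1, 1] d B) (hu : Hom ![1, 1, 1] e u) (hBu : B ∣ u ^ N)
    (iA : InvP A v) (iB : InvP B v) (iu : InvP u v) : QA P n A B ⊥ u := by
  obtain ⟨f, hf⟩ := ex_equiv v i m Y hv hY hm hall
  apply qa_equiv f
  rw [hf, hf, hf, sg_inv v Y A iA, sg_inv v Y B iB, sg_inv v Y u iu]
  have h1 : rs Y B ∣ rs Y u ^ N := by
    rw [← map_pow]
    exact map_dvd (rs Y) hBu
  refine qa_poly hP h1 (qa_bin hP hk hn (b := 1) (rs_hom i m Y hY hm hall hA)
    (rs_hom i m Y hY hm hall hB) (rs_hom i m Y hY hm hall hu) h1)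

end

/-- **the product case** -/
theorem qa_prod [Finite k] (hP : FormalClass p P) (hk : (p : k) = 0) {n : ℕ} (hn : n ≠ 0)
    {d e N : ℕ} {A B u : MvPolynomial (Fin 3) k} (hA : Hom ![1, 1, 1] d A)
    (hB : Hom ![1, 1, 1] d B) (hu : Hom ![1, 1, 1] e u) (hBu : B ∣ u ^ N) (v : Fin 3 → k)
    (hv : v ≠ 0) (iA : InvP A v) (iB : InvP B v) (iu : InvP u v) : QA P n A B ⊥ u := by
  obtain ⟨i, hi⟩ := Function.ne_iff.1 hv
  have hi : v i ≠ 0 := hi
  fin_cases i
  · refine prod_step v 0 ![1, 2] ![0, MvPolynomial.X 0, MvPolynomial.X 1] hi rfl ?_ ?_ hP hk hn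
      hA hB hu hBu iA iB iu
    · intro s
      fin_cases s <;> rfl
    · intro l
      fin_cases l
      · exact Or.inl rfl
      · exact Or.inr ⟨0, rfl⟩
      · exact Or.inr ⟨1, rfl⟩
  · refine prod_step v 1 ![0, 2] ![MvPolynomial.X 0, 0, MvPolynomial.X 1] hi rfl ?_ ?_ hP hk hn
      hA hB hu hBu iA iB iu
    · intro s
      fin_cases s <;> rfl
    · intro l
      fin_cases l
      · exact Or.inr ⟨0, rfl⟩
      · exact Or.inl rfl
      · exact Or.inr ⟨1, rfl⟩
  · refine prod_step v 2 ![0, 1] ![MvPolynomial.X 0, MvPolynomial.X 1, 0] hi rfl ?_ ?_ hP hk hn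
      hA hB hu hBu iA iB iu
    · intro s
      fin_cases s <;> rfl
    · intro l
      fin_cases l
      · exact Or.inr ⟨0, rfl⟩
      · exact Or.inr ⟨1, rfl⟩
      · exact Or.inl rfl

theorem InvP.mul {F G : MvPolynomial (Fin 3) k} {v : Fin 3 → k} (hF : InvP F v) (hG : InvP G v) :
    InvP (F * G) v := by
  intro R _ _ x y z t
  rw [Pool.Agent.Helper71.CP.ev_mul, Pool.Agent.Helper71.CP.ev_mul, hF, hG]

theorem InvP.pow {F : MvPolynomial (Fin 3) k} {v : Fin 3 → k} (hF : InvP F v) (n : ℕ) :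
    InvP (F ^ n) v := by
  intro R _ _ x y z t
  rw [Pool.Agent.Helper71.CP.ev_pow, Pool.Agent.Helper71.CP.ev_pow, hF]

end Pool.Agent.Helper9.TP
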