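import Pool.Agent.Helper9.TP.Fibre
import Pool.Agent.Helper9.TP.Prod
import Pool.Agent.Helper9.QP.Main

/-!
# Cyclic covers of the plane given by pencils: the reduction to the fibres
-/

set_option autoImplicit false

namespace Pool.Agent.Helper9.TP

open Polynomial
open Pool.Agent.Helper87.CC (IsLC isLC_std ft_of_surj ft_of_hom ft_loc ft_alg)
open Pool.Agent.Helper29.CQ (FormalClass GOps)
open Pool.Agent.Helper29.PF (StableClass)
open Pool.Agent.Helper67.CQ
open Pool.Agent.Helper9.QP (PK Lau cL lc_comp lc_quot lc_away pk_glue pk_open pk_curve pk_poly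
  pk_lau pk_iso dim_away lc_ft lc_char lc_equiv ft_fin char_fin pk_of_lau torus_rule pk_zero Gen
  IsGen isGen_std p_closed Cst)

variable {p : ℕ} {P : ∀ (A : Type) [CommRing A], Prop} {k : Type} [Field k]

/-! ### The cone -/

/-- **the reduction**: the cyclic cover `w ^ n = A / B` of the complement of `u = 0` in the
weighted projective plane with the weights `1, b, 1`, from the fibres of the threefold
`A z ^ n = B v ^ s (1 - v) ^ t` -/
theorem red_cone'' (hp : p.Prime) (hP : FormalClass p P) [Finite k] [CharP k p] {n s t : ℕ}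
    (hU : ∀ (R : Type) [CommRing R] (a : R), IsUnit a → P (Tri R n s t a) → PK P n a)
    {N M : ℕ} {A B u : MvPolynomial (Fin 3) k} (hBu : B ∣ u ^ N)
    (hAu : A ∣ u ^ M)
    (hfib : ∀ (K : Type) [Field K] [IsAlgClosed K] [CharP K p] [Algebra k K]
      (G : ∀ (R : Type) [CommRing R] [Algebra K R], Prop), GOps K G → CstA G → ∀ e : K,
      (FibT (MvPolynomial.map (algebraMap k K) A) (MvPolynomial.map (algebraMap k K) B)
        (MvPolynomial.map (algebraMap k K) u) s t e).Mem G) :
    QA P n A B ⊥ u := by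
  have hj := isLC_away u
  have hu1 : IsUnit (algebraMap (MvPolynomial (Fin 3) k) (R3 u) u) := hj.unit
  have hB1 : IsUnit (algebraMap (MvPolynomial (Fin 3) k) (R3 u) B) := dvd_unit hBu hu1
  have hA1 : IsUnit (algebraMap (MvPolynomial (Fin 3) k) (R3 u) A) := dvd_unit hAu hu1
  obtain ⟨a, ha⟩ := ex_b (algebraMap (MvPolynomial (Fin 3) k) (R3 u)) A B hB1
  have hau : IsUnit a := by
    rw [← ha] at hA1
    exact isUnit_of_mul_isUnit_left hA1
  refine qa_model hP hj ha (hU _ a hau ?_)
  exact tri_cone' hp hP A B hBu n s t hfib a ha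

/-- the reduction, with constant curves over `k` only -/
theorem red_cone' (hp : p.Prime) (hP : FormalClass p P) [Finite k] [CharP k p] {n s t : ℕ}
    (hU : ∀ (R : Type) [CommRing R] (a : R), IsUnit a → P (Tri R n s t a) → PK P n a)
    {N M : ℕ} {A B u : MvPolynomial (Fin 3) k} (hBu : B ∣ u ^ N)
    (hAu : A ∣ u ^ M)
    (hfib : ∀ (K : Type) [Field K] [IsAlgClosed K] [CharP K p] [Algebra k K]
      (G : ∀ (R : Type) [CommRing R] [Algebra K R], Prop), GOps K G → Cst k G → ∀ e : K,
      (FibT (MvPolynomial.map (algebraMap k K) A) (MvPolynomial.map (algebraMap k K) B)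
        (MvPolynomial.map (algebraMap k K) u) s t e).Mem G) :
    QA P n A B ⊥ u :=
  red_cone'' hp hP hU hBu hAu fun K _ _ _ _ G hG hW => hfib K G hG (hW k)

theorem untwist_tri (hP : TriClass p P) {n s t : ℕ} (hpn : ¬ p ∣ n) (hs : 0 < s) (ht : 0 < t)
    (R : Type) [CommRing R] (a : R) (ha : IsUnit a) (h : P (Tri R n s t a)) : PK P n a :=
  hP.untwist R a n s t ha hpn hs ht h

theorem untwist_one (hP : FormalClass p P) {n : ℕ} (hpn : ¬ p ∣ n)
    (R : Type) [CommRing R] (a : R) (ha : IsUnit a) (h : P (Tri R n 1 1 a)) : PK P n a := by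
  refine hP.twist R a n ha hpn ?_
  have e1 : (C (C a * X ^ n) - X ^ 1 * (1 - X) ^ 1 : R[X][X]) = C (C a * X ^ n) - X * (1 - X) := by
    rw [pow_one, pow_one]
  have h1 : ∀ f g : R[X][X], f = g → P (AdjoinRoot f) → P (AdjoinRoot g) := by
    rintro f g rfl h
    exact h
  exact h1 _ _ e1 h

/-- the reduction for classes with the rule `untwist` -/
theorem red_cone (hp : p.Prime) (hP : TriClass p P) [Finite k] [CharP k p] {n : ℕ}
    (hpn : ¬ p ∣ n) {N M : ℕ} {A B u : MvPolynomial (Fin 3) k} (hBu : B ∣ u ^ N)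
    (hAu : A ∣ u ^ M) {s t : ℕ} (hs : 0 < s) (ht : 0 < t)
    (hfib : ∀ (K : Type) [Field K] [IsAlgClosed K] [CharP K p] [Algebra k K]
      (G : ∀ (R : Type) [CommRing R] [Algebra K R], Prop), GOps K G → Cst k G → ∀ e : K,
      (FibT (MvPolynomial.map (algebraMap k K) A) (MvPolynomial.map (algebraMap k K) B)
        (MvPolynomial.map (algebraMap k K) u) s t e).Mem G) :
    QA P n A B ⊥ u :=
  red_cone' hp hP.toFormalClass (untwist_tri hP hpn hs ht) hBu hAu hfib

/-- the reduction for the affine plane -/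
theorem red_aff (hP : StableClass p P) [Finite k] [CharP k p] {n : ℕ} (hn : n ≠ 0)
    {b d e N : ℕ} {A B u : MvPolynomial (Fin 3) k}
    (hA : Hom ![1, b, 1] d A) (hB : Hom ![1, b, 1] d B) (hu : Hom ![1, b, 1] e u)
    (hBu : B ∣ u ^ N) (h : QA P n A B ⊥ u) :
    QA P n (de k A) (de k B) ⊥ (de k u) :=
  qa_aff hP.toFormalClass (fun A _ hA _ h => torus_rule hP A hA h)
    (CharP.cast_eq_zero k p) hn hA hB hu hBu h

/-! ### The affine plane -/

theorem lc_congr {S T : Type} [CommRing S] [CommRing T] {j : S →+* T} {I : Ideal S} {u u' : S}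
    (h : IsLC j I u) {N M : ℕ} (h1 : u ∣ u' ^ N) (h2 : u' ∣ u ^ M) : IsLC j I u' where
  zero := h.zero
  unit := unit_of_dvd j h2 h.unit
  ex E _ v hv hu := h.ex E v hv (unit_of_dvd v h1 hu)
  uniq := h.uniq

theorem qa_congr {n : ℕ} {S : Type} [CommRing S] {A B : S} {I : Ideal S} {u u' : S} {N M : ℕ}
    (h1 : u ∣ u' ^ N) (h2 : u' ∣ u ^ M) (h : QA P n A B I u) : QA P n A B I u' :=
  fun T _ j a hj hB ha => h T j a (lc_congr hj h2 h1) hB ha

/-- the cyclic cover over the locus `B ≠ 0` -/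
theorem qa_big [Finite k] (hP : FormalClass p P) (hk : (p : k) = 0) {n : ℕ} (hn : n ≠ 0)
    {A B u : MvPolynomial (Fin 2) k} (hu0 : u ≠ 0) {N : ℕ} (hBu : B ∣ u ^ N)
    (h : QA P n A B ⊥ u) : QA P n A B ⊥ B := by
  refine qa_glue hP (ft_fin 2) (char_fin hk 2) u ?_ ?_
  · refine qa_curve hP hn (ft_fin 2) (char_fin hk 2) ?_
    rw [bot_sup_eq]
    exact dim_quot hu0
  · refine qa_congr (N := 1) (M := N + 1) ?_ ?_ h
    · rw [pow_one]
      exact Dvd.intro_left _ rfl
    · rw [pow_succ]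
      exact mul_dvd_mul_right hBu u

theorem qa_zero [Finite k] (hP : FormalClass p P) (hk : (p : k) = 0) {n : ℕ} (hn : n ≠ 0)
    {B : MvPolynomial (Fin 2) k} (hB : B ≠ 0) : QA P n 0 B ⊥ B := by
  intro T _ j a hj hG ha
  have ha0 : a = 0 := by
    rw [map_zero] at ha
    exact (hG.mul_left_eq_zero).1 ha
  rw [ha0]
  refine pk_zero hP hn (lc_ft hj (ft_fin 2)) (lc_char j (char_fin hk 2)) ?_
  exact opn' hP B (isLC_quot B) hj (plane hP hk) (plane_curve hP hk hB)

/-- the locus `B = 0`: `S/(B, A)[w]` -/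
theorem gen_closed {S D : Type} [CommRing S] [CommRing D] {i : S →+* D} {w : D} {n : ℕ} {B A : S}
    (hD : IsGen i w n B A) :
    ∃ q : D →+* (S ⧸ Ideal.span {B, A})[X], IsLC q (Ideal.span {i B}) 1 := by
  have hg0 : Ideal.Quotient.mk (Ideal.span {B, A}) B = 0 :=
    Ideal.Quotient.eq_zero_iff_mem.2 (Ideal.subset_span (by simp))
  have hf0 : Ideal.Quotient.mk (Ideal.span {B, A}) A = 0 :=
    Ideal.Quotient.eq_zero_iff_mem.2 (Ideal.subset_span (by simp))
  obtain ⟨q, q1, q2⟩ := hD.ex (S ⧸ Ideal.span {B, A})[X]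
    (C.comp (Ideal.Quotient.mk (Ideal.span {B, A}))) X (by
      rw [RingHom.comp_apply, RingHom.comp_apply, hg0, hf0, map_zero, zero_mul])
  refine ⟨q, ?_, ?_, ?_, ?_⟩
  · intro b hb
    obtain ⟨c, rfl⟩ := Ideal.mem_span_singleton'.1 hb
    have h1 : q (i B) = 0 := by
      have h2 := RingHom.congr_fun q1 B
      rw [RingHom.comp_apply, RingHom.comp_apply, hg0, map_zero] at h2
      exact h2
    rw [map_mul, h1, mul_zero]
  · rw [map_one]
    exact isUnit_one
  · intro E _ v hv _
    have hvg : v (i B) = 0 := hv _ (Ideal.mem_span_singleton_self _)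
    have hvf : v (i A) = 0 := by
      rw [← hD.rel, map_mul, hvg, zero_mul]
    have hker : ∀ a ∈ Ideal.span {B, A}, (v.comp i) a = 0 := by
      have h3 : Ideal.span {B, A} ≤ RingHom.ker (v.comp i) := by
        rw [Ideal.span_le]
        rintro x (rfl | hx)
        · exact hvg
        · rw [Set.mem_singleton_iff] at hx
          rw [hx]
          exact hvf
      exact fun a ha => h3 ha
    refine ⟨eval₂RingHom (Ideal.Quotient.lift _ (v.comp i) hker) (v w), ?_⟩
    refine hD.uniq E _ _ ?_ ?_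
    · rw [RingHom.comp_assoc, q1]
      refine RingHom.ext fun a => ?_
      simp
    · rw [RingHom.comp_apply, q2]
      simp
  · intro E _ u u' hh
    refine Polynomial.ringHom_ext' ?_ ?_
    · apply Ideal.Quotient.ringHom_ext
      rw [RingHom.comp_assoc, RingHom.comp_assoc, ← q1, ← RingHom.comp_assoc, hh,
        RingHom.comp_assoc]
    · rw [← q2]
      exact RingHom.congr_fun hh w

/-- the locus `B ≠ 0` -/
theorem gen_open {S D : Type} [CommRing S] [CommRing D] {i : S →+* D} {w : D} {n : ℕ} {B A : S}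
    (hD : IsGen i w n B A) {T : Type} [CommRing T] {j : S →+* T} {a : T}
    (hj : IsLC j ⊥ B) (ha : a * j B = j A) :
    ∃ r : D →+* AdjoinRoot (X ^ n - C a : T[X]), IsLC r ⊥ (i B) := by
  have hK := isKum_std n a
  obtain ⟨r, r1, r2⟩ := hD.ex _ ((AdjoinRoot.of (X ^ n - C a : T[X])).comp j)
    (AdjoinRoot.root (X ^ n - C a : T[X])) (by
      rw [hK.rel, RingHom.comp_apply, RingHom.comp_apply, ← map_mul, ← ha, mul_comm])
  have hr : ∀ x, r (i x) = AdjoinRoot.of (X ^ n - C a : T[X]) (j x) := fun x =>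
    RingHom.congr_fun r1 x
  refine ⟨r, ?_, ?_, ?_, ?_⟩
  · intro b hb
    rw [Ideal.mem_bot.1 hb, map_zero]
  · rw [hr]
    exact hj.unit.map _
  · intro E _ v _ hv
    obtain ⟨u, hu⟩ := hj.ex E (v.comp i) (fun b hb => by rw [Ideal.mem_bot.1 hb, map_zero]) hv
    have hu' : ∀ x, u (j x) = v (i x) := fun x => RingHom.congr_fun hu x
    obtain ⟨t, t1, t2⟩ := hK.ex E u (v w) (by
      have h1 : IsUnit (v (i B)) := hv
      apply h1.mul_left_cancel
      have h2 := congrArg v hD.rel
      rw [map_mul, map_pow] at h2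
      rw [h2, ← hu', ← hu', ← ha, map_mul, mul_comm])
    refine ⟨t, hD.uniq E _ _ ?_ ?_⟩
    · refine RingHom.ext fun x => ?_
      change t (r (i x)) = v (i x)
      rw [hr, ← hu']
      exact RingHom.congr_fun t1 (j x)
    · rw [RingHom.comp_apply, r2, t2]
  · intro E _ u u' hh
    refine hK.uniq E _ _ ?_ ?_
    · apply hj.uniq
      refine RingHom.ext fun x => ?_
      have h1 := RingHom.congr_fun hh (i x)
      rw [RingHom.comp_apply, RingHom.comp_apply, hr] at h1
      exact h1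
    · rw [← r2]
      exact RingHom.congr_fun hh w

/-- the ring `k[x, y, w] / (B w ^ n - A)` -/
theorem gen_mem [Finite k] (hP : FormalClass p P) (hk : (p : k) = 0) {n : ℕ} (hn : n ≠ 0)
    (B A : MvPolynomial (Fin 2) k) (h : A ≠ 0 → B ≠ 0 → QA P n A B ⊥ B) :
    P (Gen (MvPolynomial (Fin 2) k) n B A) := by
  have hD := isGen_std n B A
  obtain ⟨q, hq⟩ := gen_closed hD
  have hftB := hD.ft (ft_fin 2)
  have hpB := hD.char (p := p) (char_fin hk 2)
  have hcl := p_closed hP hk A B
  by_cases hB : B = 0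
  · refine glue' hP _ hftB hpB hq (isLC_away _) hcl (p_zero hP ?_)
    refine (IsLocalization.subsingleton_iff (M := Submonoid.powers
      (AdjoinRoot.of (C B * X ^ n - C A : (MvPolynomial (Fin 2) k)[X]) B))).2 ⟨1, ?_⟩
    change AdjoinRoot.of (C B * X ^ n - C A : (MvPolynomial (Fin 2) k)[X]) B ^ 1 = 0
    rw [pow_one]
    have h0 : ∀ x : MvPolynomial (Fin 2) k, x = 0 →
        AdjoinRoot.of (C B * X ^ n - C A : (MvPolynomial (Fin 2) k)[X]) x = 0 := by
      rintro x rfl
      exact map_zero _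
    exact h0 B hB
  · have hj := isLC_away B
    obtain ⟨a, ha⟩ := ex_b (algebraMap (MvPolynomial (Fin 2) k) (Localization.Away B)) A B hj.unit
    obtain ⟨r, hr⟩ := gen_open hD hj ha
    refine glue' hP _ hftB hpB hq hr hcl ?_
    by_cases hA : A = 0
    · rw [hA] at ha
      exact qa_zero hP hk hn hB _ _ a hj hj.unit ha
    · exact h hA hB _ _ a hj hj.unit ha

/-! ### Homogenisation -/

theorem exists_hom {b d : ℕ} (f : MvPolynomial (Fin 2) k)
    (hf : ∀ m ∈ f.support, m 0 + b * m 1 ≤ d) : ∃ F : MvPolynomial (Fin 3) k,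
    MvPolynomial.IsWeightedHomogeneous (![1, b, 1] : Fin 3 → ℕ) F d ∧ de k F = f := by
  classical
  let T : (Fin 2 →₀ ℕ) → (Fin 3 →₀ ℕ) := fun m =>
    Finsupp.equivFunOnFinite.symm ![m 0, m 1, d - (m 0 + b * m 1)]
  refine ⟨∑ m ∈ f.support, MvPolynomial.monomial (T m) (f.coeff m), ?_, ?_⟩
  · refine MvPolynomial.IsWeightedHomogeneous.sum _ _ _ fun m hm => ?_
    refine MvPolynomial.isWeightedHomogeneous_monomial _ _ _ ?_
    rw [Finsupp.weight_apply, Finsupp.sum_fintype _ _ (fun i => by simp), Fin.sum_univ_three]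
    have h1 := hf m hm
    change m 0 • 1 + m 1 • b + (d - (m 0 + b * m 1)) • 1 = d
    simp only [smul_eq_mul, mul_one]
    rw [mul_comm (m 1) b]
    omega
  · rw [map_sum]
    conv_rhs => rw [MvPolynomial.as_sum f]
    refine Finset.sum_congr rfl fun m _ => ?_
    rw [MvPolynomial.monomial_eq, MvPolynomial.monomial_eq, Finsupp.prod_fintype _ _
      (fun _ => pow_zero _), Finsupp.prod_fintype _ _ (fun _ => pow_zero _), Fin.prod_univ_three,
      Fin.prod_univ_two, map_mul, map_mul, map_mul, map_pow, map_pow, map_pow]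
    have h1 : de k (MvPolynomial.C (f.coeff m)) = MvPolynomial.C (f.coeff m) := by
      change de k (algebraMap k _ (f.coeff m)) = _
      rw [AlgHom.commutes]
      rfl
    have h2 : de k (MvPolynomial.X 0) = MvPolynomial.X 0 := by simp [de]
    have h3 : de k (MvPolynomial.X 1) = MvPolynomial.X 1 := by simp [de]
    have h4 : de k (MvPolynomial.X 2) = 1 := by simp [de]
    rw [h1, h2, h3, h4, one_pow, mul_one]
    rfl

end Pool.Agent.Helper9.TP
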