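import Pool.Agent.Helper9.TP.FanoThm

/-!
# Fano trinomials and sums of binary forms
-/

set_option autoImplicit false

namespace Pool.Agent.Helper9.TP

open Pool.Agent.Helper29.CQ (FormalClass)
open Pool.Agent.Helper29.PF (StableClass plane_closed tower_forms fsum fsum_support fsum_indep)
open Pool.Agent.Helper67.SF (Form Small Independent comp)
open MvPolynomial (C X map rename)

variable {p : ℕ} {P : ∀ (A : Type) [CommRing A], Prop} {k : Type} [Field k]

theorem form_bin {m : ℕ} (Φ : Fin m → MvPolynomial (Fin 2) k) {n : Fin m → ℕ}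
    (hn : ∀ j, 0 < n j) (hΦ : ∀ j, (Φ j).IsHomogeneous (n j)) :
    Form (comp (fsum (fun _ : Fin m => (1 : k)) fun _ => 1) Φ) (∏ j, n j) := by
  refine Form.comp _ n _ (fun j => (((∏ i, n i) / n j : ℕ) : ℤ)) _ (fun j => Form.small _ _
    ⟨hn j, Or.inl ⟨⟨fun _ => 1, ?_⟩, Or.inl ?_⟩⟩) (fsum_indep _ fun _ => one_pos)
    (Finset.prod_pos fun i _ => hn i) ?_
  · intro u hu
    have h1 := hΦ j hu
    rw [Finsupp.weight_apply, Finsupp.sum_fintype _ _ (by simp)] at h1 ⊢
    rw [← h1]
    push_cast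
    refine Finset.sum_congr rfl fun i _ => ?_
    simp
  · simp
  · intro u hu
    obtain ⟨i, rfl⟩ := fsum_support hu
    rw [Finsupp.weight_single, one_smul, ← Nat.cast_mul,
      Nat.mul_div_cancel' (Finset.dvd_prod_of_mem n (Finset.mem_univ i))]

/-- **Towers of sums of binary forms** -/
theorem bin_tower [Finite k] [CharP k p] (hp : p.Prime) (hP : FormalClass p P) {B : Type}
    [CommRing B] [Algebra k B] (hB : Algebra.FiniteType k B) {a b : B}
    (h1 : ∀ n : ℕ, 0 < n →
      P (AdjoinRoot (Polynomial.C b * Polynomial.X ^ n - Polynomial.C a : Polynomial B)))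
    (h2 : P (B ⧸ Ideal.span {a})) (h3 : P (B ⧸ Ideal.span {b, a})) {m : ℕ}
    (Φ : Fin m → MvPolynomial (Fin 2) k) {n : Fin m → ℕ} (hn : ∀ j, 0 < n j)
    (hΦ : ∀ j, (Φ j).IsHomogeneous (n j)) :
    P (MvPolynomial (Fin m × Fin 2) B ⧸
      Ideal.span {C b * map (algebraMap k B) (∑ j, rename (Prod.mk j) (Φ j)) - C a}) := by
  have hk : (p : k) = 0 := CharP.cast_eq_zero k p
  have hF := form_bin Φ hn hΦ
  have h4 := tower_forms hP hk hB (hF.good hp hP) (h1 _ (Finset.prod_pos fun i _ => hn i)) h2 h3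
  let e := MvPolynomial.renameEquiv B (Equiv.sigmaEquivProd (Fin m) (Fin 2))
  have h6 : e (C b * map (algebraMap k B)
      (comp (fsum (fun _ : Fin m => (1 : k)) fun _ => 1) Φ) - C a) =
      C b * map (algebraMap k B) (∑ j, rename (Prod.mk j) (Φ j)) - C a := by
    simp only [e, comp, fsum, map_sub, map_mul, map_sum, map_pow, MvPolynomial.renameEquiv_apply,
      MvPolynomial.rename_C, MvPolynomial.aeval_X, map_one, one_mul, pow_one]
    congr 2
    refine Finset.sum_congr rfl fun j _ => ?_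
    rw [MvPolynomial.map_rename, MvPolynomial.map_rename, MvPolynomial.rename_rename]
    rfl
  refine hP.iso _ _ (Ideal.quotientEquiv _ _ e.toRingEquiv ?_) h4
  rw [Ideal.map_span, Set.image_singleton]
  congr 1
  rw [Set.singleton_eq_singleton_iff]
  exact h6.symm

/-- **Sums of binary forms over the weighted plane** -/
theorem fano_forms (Bl : FanoBlocks) (hp : p.Prime) (hp2 : p ≠ 2) (hP : TriClass p P) [Finite k]
    [CharP k p] {a b c s t : ℕ} (habc : 0 < a + b + c) (hs : 0 < s) (ht : 0 < t)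
    (hst : s.Coprime t) (f g h : MvPolynomial (Fin 2) k)
    (hf : ∀ m ∈ f.support, a * m 0 + b * m 1 ≤ a + b + c)
    (hg : ∀ m ∈ g.support, a * m 0 + b * m 1 + t * c ≤ a + b + c)
    (hh : ∀ m ∈ h.support, a * m 0 + b * m 1 + (s + t) * c ≤ a + b + c) {m : ℕ}
    (Φ : Fin m → MvPolynomial (Fin 2) k) {n : Fin m → ℕ} (hn : ∀ j, 0 < n j)
    (hΦ : ∀ j, (Φ j).IsHomogeneous (n j)) :
    P (MvPolynomial (Fin m × Fin 2) (MvPolynomial (Fin 2) k) ⧸
      Ideal.span {C (g ^ (s + t)) * map C (∑ j, rename (Prod.mk j) (Φ j)) -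
        C (f ^ s * h ^ t)}) := by
  have hk : (p : k) = 0 := CharP.cast_eq_zero k p
  exact bin_tower hp hP.toFormalClass inferInstance
    (fun n hn => fano_gen Bl hp hp2 hP habc hs ht hst f g h hf hg hh n hn)
    (plane_closed hP.toFormalClass hk _) (plane_closed hP.toFormalClass hk _) Φ hn hΦ

end Pool.Agent.Helper9.TP
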