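import Pool.Agent.Helper9.TP.KC
import Pool.Agent.Helper71.WP.Bridge
import Pool.Agent.Helper9.TP.Tri

/-!
# Kummer classes: the two forms of the definition
-/

set_option autoImplicit false

namespace Pool.Agent.Helper9.KC

open Polynomial TensorProduct
open Pool.Agent.Helper71.IC

variable {p : ℕ} {P : ∀ (A : Type) [CommRing A], Prop}

/-- the base of the threefold is a quotient of it -/
theorem KummerClass.fg_base (h : KummerClass p P) {A : Type} [CommRing A] {n s t : ℕ} {a : A}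
    (hn : n ≠ 0) (hs : 0 < s)
    (h3 : P (AdjoinRoot (C (C a * X ^ n) - X ^ s * (1 - X) ^ t : A[X][X]))) : Fg p A := by
  have h0 : eval₂ (eval₂RingHom (RingHom.id A) 0) (0 : A)
      (C (C a * X ^ n) - X ^ s * (1 - X) ^ t : A[X][X]) = 0 := by
    rw [eval₂_sub, eval₂_C, eval₂_mul, eval₂_pow, eval₂_X, zero_pow hs.ne', zero_mul, sub_zero,
      map_mul, map_pow, coe_eval₂RingHom, eval₂_X, zero_pow hn, mul_zero]
  let f : AdjoinRoot (C (C a * X ^ n) - X ^ s * (1 - X) ^ t : A[X][X]) →+* A :=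
    AdjoinRoot.lift (eval₂RingHom (RingHom.id A) 0) 0 h0
  refine Fg.of_surj f (fun x => ⟨AdjoinRoot.of _ (C x), ?_⟩) (h.fg _ h3)
  change AdjoinRoot.lift (eval₂RingHom (RingHom.id A) 0) 0 h0 (AdjoinRoot.of _ (C x)) = x
  rw [AdjoinRoot.lift_of]
  simp

theorem KummerClass.old (h : KummerClass p P) : Pool.Agent.Helper9.TP.TriClass p P where
  ft A _ hA := (h.fg A hA).1
  char A _ hA := (h.fg A hA).2
  curve A _ h1 h2 h3 := h.curve A ⟨h1, h2⟩ h3
  iso A B _ _ e hA := (h.pair A B).1 e hA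
  tensor A B _ _ hA hB := (h.pair A B).2 hA hB
  glue A _ a h1 h2 h3 h4 := (h.glue A a ⟨h1, h2⟩).1 h3 h4
  closed A _ a h1 h2 := (h.glue A a (h.fg A h1)).2.1 h1 h2
  opn A _ a h1 h2 := (h.glue A a (h.fg A h1)).2.2 h1 h2
  summand A _ e h1 h2 := h.summand A e (by rw [sq]; exact h1) h2
  poly A _ hA := (h.line A).1 hA
  transfer A B _ _ _ _ _ _ h3 h4 := by
    refine h.descent A B ⟨h3, ?_⟩ inferInstance inferInstance inferInstance h4
    exact char_of_inj (algebraMap A B) (FaithfulSMul.algebraMap_injective A B) (h.fg B h4).2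
  twist A _ a n h1 h2 h3 := by
    have hn : n ≠ 0 := by
      rintro rfl
      exact h2 (dvd_zero p)
    have e1 : (C (C a * X ^ n) - X * (1 - X) : A[X][X]) =
        C (C a * X ^ n) - X ^ 1 * (1 - X) ^ 1 := by rw [pow_one, pow_one]
    rw [e1] at h3
    exact h.untwist A n 1 1 a (h.fg_base hn one_pos h3) h1 h2 one_pos one_pos h3
  line A _ hA := (h.line A).2 hA
  untwist A _ a n s t h1 h2 hs ht h3 := by
    have hn : n ≠ 0 := by
      rintro rfl
      exact h2 (dvd_zero p)
    exact h.untwist A n s t a (h.fg_base hn hs h3) h1 h2 hs ht h3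

end Pool.Agent.Helper9.KC
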