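import Pool.Agent.Helper9.TP.Arith
import Pool.Agent.Helper9.TP.Tri

/-!
# The fibres over the line of the quotient of the cone
-/

set_option autoImplicit false

namespace Pool.Agent.Helper9.TP

open Pool.Agent.Helper29.CQ Pool.Agent.Helper65.CC Pool.Agent.Helper87.CC
  Pool.Agent.Helper65.CC.KFn
open Pool.Agent.Helper9.QP (Cst A4 ft_fin)
open Pool.Agent.Helper71.CP (ev ev_map)
open Polynomial

variable {k : Type} [Field k]

theorem ev_hom {R S : Type} [CommRing R] [Algebra k R] [CommRing S] {K : Type} [Field K]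
    [Algebra K S] (ρ : R →+* S) (g : k →+* K)
    (h : ∀ c, ρ (algebraMap k R c) = algebraMap K S (g c)) (F : MvPolynomial (Fin 3) k)
    (x y z : R) : ρ (ev F x y z) = ev (MvPolynomial.map g F) (ρ x) (ρ y) (ρ z) := by
  unfold ev
  have h1 : ρ.comp (MvPolynomial.aeval ![x, y, z] : MvPolynomial (Fin 3) k →ₐ[k] R).toRingHom =
      ((MvPolynomial.aeval ![ρ x, ρ y, ρ z] : MvPolynomial (Fin 3) K →ₐ[K] S).toRingHom).comp
        (MvPolynomial.map g) := by
    apply MvPolynomial.ringHom_ext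
    · intro c
      simp [h]
    · intro i
      fin_cases i <;> simp
  exact RingHom.congr_fun h1 F

section

variable (u : MvPolynomial (Fin 3) k)

/-- the complement of `u = 0` in the space -/
abbrev R3 : Type := Localization.Away u

/-- the coordinates -/
noncomputable abbrev co (i : Fin 3) : R3 u :=
  algebraMap (MvPolynomial (Fin 3) k) (R3 u) (MvPolynomial.X i)

theorem co_ev (F : MvPolynomial (Fin 3) k) : ev F (co u 0) (co u 1) (co u 2) =
    algebraMap (MvPolynomial (Fin 3) k) (R3 u) F := by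
  rw [show algebraMap (MvPolynomial (Fin 3) k) (R3 u) F =
    IsScalarTower.toAlgHom k (MvPolynomial (Fin 3) k) (R3 u) F from rfl]
  unfold ev
  have h1 : (MvPolynomial.aeval ![co u 0, co u 1, co u 2] : MvPolynomial (Fin 3) k →ₐ[k] R3 u) =
      IsScalarTower.toAlgHom k (MvPolynomial (Fin 3) k) (R3 u) := by
    apply MvPolynomial.algHom_ext
    intro i
    fin_cases i <;> simp
  exact DFunLike.congr_fun h1 F

theorem alg_R3 (d : k) : algebraMap k (R3 u) d =
    algebraMap (MvPolynomial (Fin 3) k) (R3 u) (MvPolynomial.C d) := rfl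

variable {u}

/-- ring homomorphisms from the coordinate ring -/
theorem ex_hom {K : Type} [Field K] (φ : k →+* K) {S : Type} [CommRing S] [Algebra K S]
    (x y z : S) (hU : IsUnit (ev (MvPolynomial.map φ u) x y z)) :
    ∃ ρ : R3 u →+* S, (∀ d, ρ (algebraMap k (R3 u) d) = algebraMap K S (φ d)) ∧
      ρ (co u 0) = x ∧ ρ (co u 1) = y ∧ ρ (co u 2) = z := by
  let g : MvPolynomial (Fin 3) k →+* S :=
    ((MvPolynomial.aeval ![x, y, z] : MvPolynomial (Fin 3) K →ₐ[K] S).toRingHom).comp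
      (MvPolynomial.map φ)
  have gC : ∀ d, g (MvPolynomial.C d) = algebraMap K S (φ d) := fun d => by
    simp [g]
  have g0 : g (MvPolynomial.X 0) = x := by simp [g]
  have g1 : g (MvPolynomial.X 1) = y := by simp [g]
  have g2 : g (MvPolynomial.X 2) = z := by simp [g]
  have hu : IsUnit (g u) := hU
  have hl : ∀ a, (IsLocalization.Away.lift u hu : R3 u →+* S)
      (algebraMap (MvPolynomial (Fin 3) k) (R3 u) a) = g a := fun a =>
    IsLocalization.Away.lift_eq _ hu a
  refine ⟨IsLocalization.Away.lift u hu, ?_, ?_, ?_, ?_⟩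
  · intro d
    rw [alg_R3, hl, gC]
  · rw [hl, g0]
  · rw [hl, g1]
  · rw [hl, g2]

theorem hom_ext3 {S : Type} [CommRing S] (ρ ρ' : R3 u →+* S)
    (h : ∀ d, ρ (algebraMap k (R3 u) d) = ρ' (algebraMap k (R3 u) d))
    (h3 : ∀ i, ρ (co u i) = ρ' (co u i)) : ρ = ρ' := by
  apply IsLocalization.ringHom_ext (Submonoid.powers u)
  apply MvPolynomial.ringHom_ext
  · exact h
  · exact h3

/-- the ring homomorphism with given coordinates -/
noncomputable def lft {K : Type} [Field K] (φ : k →+* K) {S : Type} [CommRing S] [Algebra K S]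
    (x y z : S) (hU : IsUnit (ev (MvPolynomial.map φ u) x y z)) : R3 u →+* S :=
  (ex_hom φ x y z hU).choose

theorem lft_spec {K : Type} [Field K] (φ : k →+* K) {S : Type} [CommRing S] [Algebra K S]
    (x y z : S) (hU : IsUnit (ev (MvPolynomial.map φ u) x y z)) :
    (∀ d, lft φ x y z hU (algebraMap k (R3 u) d) = algebraMap K S (φ d)) ∧
      lft φ x y z hU (co u 0) = x ∧ lft φ x y z hU (co u 1) = y ∧
      lft φ x y z hU (co u 2) = z :=
  (ex_hom φ x y z hU).choose_spec

theorem img {K : Type} [Field K] (φ : k →+* K) {S : Type} [CommRing S] [Algebra K S]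
    (ρ : R3 u →+* S) (hρ : ∀ d, ρ (algebraMap k (R3 u) d) = algebraMap K S (φ d))
    (F : MvPolynomial (Fin 3) k) :
    ev (MvPolynomial.map φ F) (ρ (co u 0)) (ρ (co u 1)) (ρ (co u 2)) =
      ρ (algebraMap (MvPolynomial (Fin 3) k) (R3 u) F) := by
  rw [← co_ev, ev_hom ρ φ hρ]

theorem alg_iff {S : Type} [CommRing S] {a A B E V : S} (h : a * B = A) (hu : IsUnit B) :
    a * E = V ↔ E * A - B * V = 0 := by
  constructor
  · intro h1
    rw [← h, ← h1]
    ring
  · intro h1
    apply hu.mul_left_cancel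
    rw [← h] at h1
    linear_combination h1

/-- the fibre, in coordinates -/
noncomputable def FibE {K : Type} [Field K] (φ : k →+* K) (A B u : MvPolynomial (Fin 3) k)
    (s t : ℕ) (e : K) (n : ℕ) : KFn K where
  obj S _ _ := {x : S × S × S × S //
    IsUnit (ev (MvPolynomial.map φ u) x.1 x.2.1 x.2.2.1) ∧
    algebraMap K S e ^ n * ev (MvPolynomial.map φ A) x.1 x.2.1 x.2.2.1 -
      ev (MvPolynomial.map φ B) x.1 x.2.1 x.2.2.1 * (x.2.2.2 ^ s * (1 - x.2.2.2) ^ t) = 0}
  map {S T} _ _ _ _ f x := ⟨(f x.1.1, f x.1.2.1, f x.1.2.2.1, f x.1.2.2.2), by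
      rw [← ev_map]
      exact x.2.1.map f, by
      have h1 := congrArg f x.2.2
      rw [map_zero, map_sub, map_mul, map_mul, map_mul, map_pow, map_pow, map_pow, ev_map, ev_map,
        map_sub, map_one, AlgHom.commutes] at h1
      exact h1⟩
  id_map _ := rfl
  comp_map _ _ _ := rfl

/-- the fibre in coordinates is the fibre -/
noncomputable def fibEIso {K : Type} [Field K] (φ : k →+* K) (A B u : MvPolynomial (Fin 3) k)
    (s t : ℕ) (e : K) (n : ℕ) :
    Iso (FibE φ A B u s t e n) (FibT (MvPolynomial.map φ A) (MvPolynomial.map φ B)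
      (MvPolynomial.map φ u) s t (e ^ n)) where
  hom {S} _ _ x := ⟨⟨x.1, by
      change algebraMap K S (e ^ n) * ev (MvPolynomial.map φ A) x.1.1 x.1.2.1 x.1.2.2.1 -
        ev (MvPolynomial.map φ B) x.1.1 x.1.2.1 x.1.2.2.1 *
          (x.1.2.2.2 ^ s * (1 - x.1.2.2.2) ^ t) = 0
      rw [map_pow]
      exact x.2.2⟩, x.2.1⟩
  inv {S} _ _ x := ⟨x.1.1, x.2, by
      have h : algebraMap K S (e ^ n) * ev (MvPolynomial.map φ A) x.1.1.1 x.1.1.2.1
        x.1.1.2.2.1 - ev (MvPolynomial.map φ B) x.1.1.1 x.1.1.2.1 x.1.1.2.2.1 *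
          (x.1.1.2.2.2 ^ s * (1 - x.1.1.2.2.2) ^ t) = 0 := x.1.2
      rw [map_pow] at h
      exact h⟩
  inv_hom _ := rfl
  hom_inv _ := rfl
  nat _ _ := rfl

/-- the fibre of the quotient in coordinates -/
noncomputable def fibIso {K : Type} [Field K] (φ : k[X] →+* K) (n s t : ℕ)
    (A B : MvPolynomial (Fin 3) k) (a : R3 u)
    (ha : a * algebraMap (MvPolynomial (Fin 3) k) (R3 u) B =
      algebraMap (MvPolynomial (Fin 3) k) (R3 u) A)
    (hB : IsUnit (algebraMap (MvPolynomial (Fin 3) k) (R3 u) B)) :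
    Iso (triF φ a n s t) (FibE (φ.comp C) A B u s t (φ X) n) where
  hom {S} _ _ q := ⟨(q.1.1 (co u 0), q.1.1 (co u 1), q.1.1 (co u 2), q.1.2), by
      have h := img (φ.comp C) q.1.1 q.2.1 u
      exact h ▸ (IsLocalization.Away.algebraMap_isUnit u).map q.1.1, by
      change _ * ev (MvPolynomial.map (φ.comp C) A) (q.1.1 (co u 0)) (q.1.1 (co u 1))
        (q.1.1 (co u 2)) - ev (MvPolynomial.map (φ.comp C) B) (q.1.1 (co u 0)) (q.1.1 (co u 1))
        (q.1.1 (co u 2)) * _ = 0
      rw [img (φ.comp C) q.1.1 q.2.1 A, img (φ.comp C) q.1.1 q.2.1 B]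
      refine (alg_iff ?_ (hB.map q.1.1)).1 q.2.2
      rw [← ha, map_mul]⟩
  inv {S} _ _ q := ⟨(lft (φ.comp C) q.1.1 q.1.2.1 q.1.2.2.1 q.2.1, q.1.2.2.2),
      (lft_spec (φ.comp C) q.1.1 q.1.2.1 q.1.2.2.1 q.2.1).1, by
      have h := lft_spec (φ.comp C) q.1.1 q.1.2.1 q.1.2.2.1 q.2.1
      have h1 := congrArg (lft (φ.comp C) q.1.1 q.1.2.1 q.1.2.2.1 q.2.1) ha
      rw [map_mul] at h1
      refine (alg_iff h1 (hB.map (lft (φ.comp C) q.1.1 q.1.2.1 q.1.2.2.1 q.2.1))).2 ?_
      rw [← img (φ.comp C) _ h.1 A, ← img (φ.comp C) _ h.1 B, h.2.1, h.2.2.1, h.2.2.2]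
      exact q.2.2⟩
  inv_hom {S} _ _ q := by
    apply Subtype.ext
    refine Prod.ext ?_ rfl
    have h0 : IsUnit (ev (MvPolynomial.map (φ.comp C) u) (q.1.1 (co u 0)) (q.1.1 (co u 1))
      (q.1.1 (co u 2))) := img (φ.comp C) q.1.1 q.2.1 u ▸
        (IsLocalization.Away.algebraMap_isUnit u).map q.1.1
    have hs := lft_spec (φ.comp C) (q.1.1 (co u 0)) (q.1.1 (co u 1)) (q.1.1 (co u 2)) h0
    refine hom_ext3 _ _ ?_ ?_
    · intro d
      exact (hs.1 d).trans (q.2.1 d).symm
    · intro i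
      fin_cases i
      · exact hs.2.1
      · exact hs.2.2.1
      · exact hs.2.2.2
  hom_inv {S} _ _ q := by
    have hs := lft_spec (φ.comp C) q.1.1 q.1.2.1 q.1.2.2.1 q.2.1
    apply Subtype.ext
    exact Prod.ext hs.2.1 (Prod.ext hs.2.2.1 (Prod.ext hs.2.2.2 rfl))
  nat _ _ := rfl

/-- all constant curves -/
def CstA {K : Type} [Field K] (G : ∀ (R : Type) [CommRing R] [Algebra K R], Prop) : Prop :=
  ∀ (k' : Type) [Field k'] [Finite k'] [Algebra k' K], Cst k' G

/-- **the quotient of the cone** -/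
theorem tri_cone' {p : ℕ} (hp : p.Prime)
    {P : ∀ (A : Type) [CommRing A], Prop} (hP : FormalClass p P) [Finite k] [CharP k p]
    (A B : MvPolynomial (Fin 3) k) {N : ℕ} (hBu : B ∣ u ^ N) (n s t : ℕ)
    (hfib : ∀ (K : Type) [Field K] [IsAlgClosed K] [CharP K p] [Algebra k K]
      (G : ∀ (R : Type) [CommRing R] [Algebra K R], Prop), GOps K G → CstA G → ∀ e : K,
      (FibT (MvPolynomial.map (algebraMap k K) A) (MvPolynomial.map (algebraMap k K) B)
        (MvPolynomial.map (algebraMap k K) u) s t e).Mem G)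
    (a : R3 u) (ha : a * algebraMap (MvPolynomial (Fin 3) k) (R3 u) B =
      algebraMap (MvPolynomial (Fin 3) k) (R3 u) A) : P (Tri (R3 u) n s t a) := by
  refine tri_mem' hp hP k (R3 u) (ft_loc (ft_fin 3) _) a n s t ?_
  intro K _ _ _ φ G hG hW
  refine Mem.of_iso (fibIso φ n s t A B a ha ?_) ?_
  · exact dvd_unit hBu (IsLocalization.Away.algebraMap_isUnit _)
  refine Mem.of_iso (fibEIso (φ.comp C) A B u s t (φ X) n) ?_
  let _ : Algebra k K := (φ.comp C).toAlgebra
  exact hfib K G hG (fun k' _ _ _ => hW k') _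

/-- **the quotient of the cone** -/
theorem tri_cone {p : ℕ} (hp : p.Prime)
    {P : ∀ (A : Type) [CommRing A], Prop} (hP : FormalClass p P) [Finite k] [CharP k p]
    (A B : MvPolynomial (Fin 3) k) {N : ℕ} (hBu : B ∣ u ^ N) (n s t : ℕ)
    (hfib : ∀ (K : Type) [Field K] [IsAlgClosed K] [CharP K p] [Algebra k K]
      (G : ∀ (R : Type) [CommRing R] [Algebra K R], Prop), GOps K G → Cst k G → ∀ e : K,
      (FibT (MvPolynomial.map (algebraMap k K) A) (MvPolynomial.map (algebraMap k K) B)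
        (MvPolynomial.map (algebraMap k K) u) s t e).Mem G)
    (a : R3 u) (ha : a * algebraMap (MvPolynomial (Fin 3) k) (R3 u) B =
      algebraMap (MvPolynomial (Fin 3) k) (R3 u) A) : P (Tri (R3 u) n s t a) :=
  tri_cone' hp hP A B hBu n s t (fun K _ _ _ _ G hG hW => hfib K G hG (hW k)) a ha

end

end Pool.Agent.Helper9.TP
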