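import Pool.Agent.Helper9.TP.Pow
import Pool.Agent.Helper9.TP.Forms

/-!
# Fano trinomials: arbitrary exponents
-/

set_option autoImplicit false

namespace Pool.Agent.Helper9.TP

open Pool.Agent.Helper29.CQ (FormalClass)
open Pool.Agent.Helper29.PF (StableClass plane_closed)
open Pool.Agent.Helper9.QP (Gen)

variable {p : ℕ} {P : ∀ (A : Type) [CommRing A], Prop} {k : Type} [Field k]

/-- coprime exponents, `s = t = 1` included -/
theorem fano_cop (Bl : FanoBlocks) (hp : p.Prime) (hp2 : p ≠ 2) (hP : TriClass p P) [Finite k]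
    [CharP k p] {n : ℕ} (hn : n ≠ 0) (hpn : ¬ p ∣ n) {a b c s t : ℕ}
    (habc : 0 < a + b + c) (hs : 0 < s) (ht : 0 < t) (hst : s.Coprime t)
    (f₀ f₁ f₂ : MvPolynomial (Fin 2) k)
    (g₀ : ∀ m ∈ f₀.support, a * m 0 + b * m 1 ≤ a + b + c)
    (g₁ : ∀ m ∈ f₁.support, a * m 0 + b * m 1 + t * c ≤ a + b + c)
    (g₂ : ∀ m ∈ f₂.support, a * m 0 + b * m 1 + (s + t) * c ≤ a + b + c) (n₀ : f₀ ≠ 0)
    (n₁ : f₁ ≠ 0) (n₂ : f₂ ≠ 0) :
    QA P n (f₀ ^ s * f₂ ^ t) (f₁ ^ (s + t)) ⊥ (f₀ * f₁ * f₂) := by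
  by_cases hne : s = t
  · obtain rfl := hne
    obtain rfl : s = 1 := by
      rw [Nat.coprime_self] at hst
      exact hst
    have hab : 0 < a + b := by
      obtain ⟨m, hm⟩ := MvPolynomial.support_nonempty.2 n₂
      have h4 := g₂ m hm
      omega
    refine qa_of_gen hP.toFormalClass (CharP.cast_eq_zero k p) hn ?_ ?_ ?_ (N := 2) ?_ ?_
    · exact mul_ne_zero (pow_ne_zero _ n₀) (pow_ne_zero _ n₂)
    · exact pow_ne_zero _ n₁
    · exact mul_ne_zero (mul_ne_zero n₀ n₁) n₂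
    · rw [mul_pow, mul_pow]
      exact Dvd.dvd.mul_right (Dvd.intro_left _ rfl) _
    · rw [pow_one, pow_one]
      refine Bl.tame hp hp2 hP.toStableClass hab (f₀ * f₂) f₁ ?_ ?_ n (Nat.pos_of_ne_zero hn)
      · classical
        intro m hm
        have h1 := MvPolynomial.support_mul f₀ f₂ hm
        obtain ⟨x, hx, y, hy, rfl⟩ := Finset.mem_add.1 h1
        have h2 := g₀ x hx
        have h3 := g₂ y hy
        rw [Finsupp.add_apply, Finsupp.add_apply, mul_add, mul_add]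
        omega
      · intro m hm
        have := g₁ m hm
        omega
  · exact fano_open Bl hp hp2 hP hn hpn habc hs ht hst hne f₀ f₁ f₂ g₀ g₁ g₂ n₀ n₁ n₂

theorem supp_C_map {k' : Type} [Field k'] [Algebra k k'] (ζ : k') {f : MvPolynomial (Fin 2) k}
    {Q : (Fin 2 →₀ ℕ) → Prop} (hf : ∀ m ∈ f.support, Q m) :
    ∀ m ∈ (MvPolynomial.C ζ * MvPolynomial.map (algebraMap k k') f).support, Q m := by
  intro m hm
  rw [MvPolynomial.mem_support_iff, MvPolynomial.coeff_C_mul] at hm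
  exact hf m (MvPolynomial.support_map_subset _ _
    (MvPolynomial.mem_support_iff.2 (right_ne_zero_of_mul hm)))

/-- arbitrary exponents -/
theorem fano_any (Bl : FanoBlocks) (hp : p.Prime) (hp2 : p ≠ 2) (hP : TriClass p P) [Finite k]
    [CharP k p] {n : ℕ} (hn : n ≠ 0) (hpn : ¬ p ∣ n) {a b c s t : ℕ}
    (habc : 0 < a + b + c) (hs : 0 < s) (ht : 0 < t)
    (f₀ f₁ f₂ : MvPolynomial (Fin 2) k)
    (g₀ : ∀ m ∈ f₀.support, a * m 0 + b * m 1 ≤ a + b + c)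
    (g₁ : ∀ m ∈ f₁.support, a * m 0 + b * m 1 + t * c ≤ a + b + c)
    (g₂ : ∀ m ∈ f₂.support, a * m 0 + b * m 1 + (s + t) * c ≤ a + b + c) (n₀ : f₀ ≠ 0)
    (n₁ : f₁ ≠ 0) (n₂ : f₂ ≠ 0) :
    QA P n (f₀ ^ s * f₂ ^ t) (f₁ ^ (s + t)) ⊥ (f₀ * f₁ * f₂) := by
  obtain ⟨s', t', hc, hs', ht'⟩ := Nat.exists_coprime s t
  have hd : 0 < s.gcd t := Nat.gcd_pos_of_pos_left t hs
  generalize s.gcd t = d at hs' ht' hd
  subst hs'
  subst ht'
  have hs0 : 0 < s' := Nat.pos_of_mul_pos_right hs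
  have ht0 : 0 < t' := Nat.pos_of_mul_pos_right ht
  have e1 : f₀ ^ (s' * d) * f₂ ^ (t' * d) = (f₀ ^ s' * f₂ ^ t') ^ d := by
    rw [mul_pow, ← pow_mul, ← pow_mul]
  have e2 : f₁ ^ (s' * d + t' * d) = (f₁ ^ (s' + t')) ^ d := by
    rw [← pow_mul, add_mul]
  rw [e1, e2]
  have hcd : c ≤ d * c := Nat.le_mul_of_pos_left c hd
  refine qa_pow (N := s' + t') (M := s' + t') hP.toFormalClass (CharP.cast_eq_zero k p) hd.ne'
    ?_ ?_ ?_
  · rw [mul_pow, mul_pow, pow_add f₀, pow_add f₂]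
    exact ⟨f₀ ^ t' * f₁ ^ (s' + t') * f₂ ^ s', by ring⟩
  · rw [mul_pow, mul_pow]
    exact Dvd.dvd.mul_right (Dvd.intro_left _ rfl) _
  intro k' _ _ _ ζ hζ
  have : Finite k' := Module.finite_of_finite k
  have : CharP k' p := charP_of_injective_algebraMap (algebraMap k k').injective p
  obtain ⟨u, v, huv⟩ := Nat.isCoprime_iff_coprime.2 hc
  have hu0 : ζ ^ u ≠ 0 := zpow_ne_zero u hζ
  have hv0 : ζ ^ v ≠ 0 := zpow_ne_zero v hζ
  have hζ' : ζ = (ζ ^ u) ^ s' * (ζ ^ v) ^ t' := by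
    rw [← zpow_natCast, ← zpow_natCast, ← zpow_mul, ← zpow_mul, ← zpow_add₀ hζ, huv, zpow_one]
  have hinj : Function.Injective (MvPolynomial.map (σ := Fin 2) (algebraMap k k')) :=
    MvPolynomial.map_injective _ (algebraMap k k').injective
  have hu : ∀ r : k', r ≠ 0 → IsUnit (MvPolynomial.C r : MvPolynomial (Fin 2) k') := fun r hr =>
    (isUnit_iff_ne_zero.2 hr).map MvPolynomial.C
  have m : ∀ {f : MvPolynomial (Fin 2) k}, f ≠ 0 → MvPolynomial.map (algebraMap k k') f ≠ 0 :=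
    fun hf h => hf (hinj (by rw [h, map_zero]))
  have key := fano_cop Bl hp hp2 hP (k := k') hn hpn (a := a) (b := b) (c := d * c) (s := s')
    (t := t') (by omega) hs0 ht0 hc
    (MvPolynomial.C (ζ ^ u) * MvPolynomial.map (algebraMap k k') f₀)
    (MvPolynomial.C 1 * MvPolynomial.map (algebraMap k k') f₁)
    (MvPolynomial.C (ζ ^ v) * MvPolynomial.map (algebraMap k k') f₂)
    (supp_C_map _ fun m hm => by
      have := g₀ m hm
      omega)
    (supp_C_map _ fun m hm => by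
      have h1 := g₁ m hm
      rw [mul_assoc] at h1
      omega)
    (supp_C_map _ fun m hm => by
      have h1 := g₂ m hm
      have h2 : (s' * d + t' * d) * c = (s' + t') * (d * c) := by ring
      rw [h2] at h1
      omega)
    (mul_ne_zero (hu _ hu0).ne_zero (m n₀)) (mul_ne_zero (hu _ one_ne_zero).ne_zero (m n₁))
    (mul_ne_zero (hu _ hv0).ne_zero (m n₂))
  have e3 : (MvPolynomial.C (ζ ^ u) * MvPolynomial.map (algebraMap k k') f₀) ^ s' *
      (MvPolynomial.C (ζ ^ v) * MvPolynomial.map (algebraMap k k') f₂) ^ t' =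
      MvPolynomial.C ζ * MvPolynomial.map (algebraMap k k') (f₀ ^ s' * f₂ ^ t') := by
    conv_rhs => rw [hζ']
    rw [map_mul, map_mul, map_pow, map_pow, map_pow, map_pow]
    ring
  have e4 : (MvPolynomial.C 1 * MvPolynomial.map (algebraMap k k') f₁) ^ (s' + t') =
      MvPolynomial.map (algebraMap k k') (f₁ ^ (s' + t')) := by
    rw [MvPolynomial.C_1, one_mul, map_pow]
  rw [e3, e4] at key
  have e5 : MvPolynomial.C (ζ ^ u) * MvPolynomial.map (algebraMap k k') f₀ *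
      (MvPolynomial.C 1 * MvPolynomial.map (algebraMap k k') f₁) *
      (MvPolynomial.C (ζ ^ v) * MvPolynomial.map (algebraMap k k') f₂) =
      MvPolynomial.map (algebraMap k k') (f₀ * f₁ * f₂) *
        (MvPolynomial.C (ζ ^ u) * MvPolynomial.C (ζ ^ v)) := by
    rw [MvPolynomial.C_1, map_mul, map_mul]
    ring
  refine qa_congr (N := 1) (M := 1) ?_ ?_ key
  · rw [pow_one, e5]
    exact (((hu _ hu0).mul (hu _ hv0)).mul_right_dvd).2 dvd_rfl
  · rw [pow_one, e5]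
    exact Dvd.intro _ rfl

/-- **Fano trinomials**, arbitrary exponents -/
theorem fano_gen_all (Bl : FanoBlocks) (hp : p.Prime) (hp2 : p ≠ 2) (hP : TriClass p P) [Finite k]
    [CharP k p] {a b c s t : ℕ} (habc : 0 < a + b + c) (hs : 0 < s) (ht : 0 < t)
    (f₀ f₁ f₂ : MvPolynomial (Fin 2) k)
    (g₀ : ∀ m ∈ f₀.support, a * m 0 + b * m 1 ≤ a + b + c)
    (g₁ : ∀ m ∈ f₁.support, a * m 0 + b * m 1 + t * c ≤ a + b + c)
    (g₂ : ∀ m ∈ f₂.support, a * m 0 + b * m 1 + (s + t) * c ≤ a + b + c) (n : ℕ) (hn : 0 < n) :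
    P (Gen (MvPolynomial (Fin 2) k) n (f₁ ^ (s + t)) (f₀ ^ s * f₂ ^ t)) := by
  refine gen_tri hp hP.toFormalClass (fun f₀ f₁ f₂ =>
    (∀ m ∈ f₀.support, a * m 0 + b * m 1 ≤ a + b + c) ∧
    (∀ m ∈ f₁.support, a * m 0 + b * m 1 + t * c ≤ a + b + c) ∧
    ∀ m ∈ f₂.support, a * m 0 + b * m 1 + (s + t) * c ≤ a + b + c) ?_ hs ht ?_ n hn f₀ f₁ f₂
    ⟨g₀, g₁, g₂⟩
  · rintro f₀ f₁ f₂ ⟨g₀, g₁, g₂⟩ ψ₀ ψ₁ ψ₂
    exact ⟨fun m hm => g₀ m (MvPolynomial.support_map_subset _ _ hm),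
      fun m hm => g₁ m (MvPolynomial.support_map_subset _ _ hm),
      fun m hm => g₂ m (MvPolynomial.support_map_subset _ _ hm)⟩
  · rintro n hn hpn f₀ f₁ f₂ ⟨g₀, g₁, g₂⟩ n₀ n₁ n₂
    exact fano_any Bl hp hp2 hP hn hpn habc hs ht f₀ f₁ f₂ g₀ g₁ g₂ n₀ n₁ n₂

/-- **Sums of binary forms over the weighted plane**, arbitrary exponents -/
theorem fano_forms_all (Bl : FanoBlocks) (hp : p.Prime) (hp2 : p ≠ 2) (hP : TriClass p P)
    [Finite k] [CharP k p] {a b c s t : ℕ} (habc : 0 < a + b + c) (hs : 0 < s) (ht : 0 < t)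
    (f g h : MvPolynomial (Fin 2) k)
    (hf : ∀ m ∈ f.support, a * m 0 + b * m 1 ≤ a + b + c)
    (hg : ∀ m ∈ g.support, a * m 0 + b * m 1 + t * c ≤ a + b + c)
    (hh : ∀ m ∈ h.support, a * m 0 + b * m 1 + (s + t) * c ≤ a + b + c) {m : ℕ}
    (Φ : Fin m → MvPolynomial (Fin 2) k) {n : Fin m → ℕ} (hn : ∀ j, 0 < n j)
    (hΦ : ∀ j, (Φ j).IsHomogeneous (n j)) :
    P (MvPolynomial (Fin m × Fin 2) (MvPolynomial (Fin 2) k) ⧸
      Ideal.span {MvPolynomial.C (g ^ (s + t)) * MvPolynomial.map MvPolynomial.C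
        (∑ j, MvPolynomial.rename (Prod.mk j) (Φ j)) - MvPolynomial.C (f ^ s * h ^ t)}) := by
  have hk : (p : k) = 0 := CharP.cast_eq_zero k p
  exact bin_tower hp hP.toFormalClass inferInstance
    (fun n hn => fano_gen_all Bl hp hp2 hP habc hs ht f g h hf hg hh n hn)
    (plane_closed hP.toFormalClass hk _) (plane_closed hP.toFormalClass hk _) Φ hn hΦ

end Pool.Agent.Helper9.TP
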