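import Pool.Agent.Helper9.TP.Torus

/-!
# From the cone to the affine plane
-/

set_option autoImplicit false

namespace Pool.Agent.Helper9.TP

open Polynomial
open Pool.Agent.Helper87.CC (IsLC isLC_std ft_of_surj ft_of_hom ft_loc ft_alg)
open Pool.Agent.Helper29.CQ (FormalClass)
open Pool.Agent.Helper67.CQ
open Pool.Agent.Helper9.QP (PK Lau cL lc_comp lc_quot lc_away pk_glue pk_open pk_curve pk_poly
  pk_lau pk_iso dim_away lc_ft lc_char lc_equiv ft_fin char_fin pk_of_lau)

variable {p : ℕ} {P : ∀ (A : Type) [CommRing A], Prop} {k : Type} [Field k]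

theorem dvd_unit {S' T : Type} [CommRing S'] [CommRing T] [Algebra S' T] {B u : S'} {N : ℕ}
    (h : B ∣ u ^ N) (hu : IsUnit (algebraMap S' T u)) : IsUnit (algebraMap S' T B) :=
  unit_of_dvd (algebraMap S' T) h hu

/-- forms in two variables -/
theorem qa_bin [Finite k] (hP : FormalClass p P) (hk : (p : k) = 0) {n : ℕ} (hn : n ≠ 0)
    {b d e N : ℕ} {A B u : MvPolynomial (Fin 2) k} (hA : Hom ![1, b] d A) (hB : Hom ![1, b] d B)
    (hu : Hom ![1, b] e u) (hBu : B ∣ u ^ N) : QA P n A B ⊥ u := by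
  refine qa_glue hP (ft_fin 2) (char_fin hk 2) (MvPolynomial.X 0) ?_ ?_
  · refine qa_curve hP hn (ft_fin 2) (char_fin hk 2) ?_
    rw [bot_sup_eq]
    exact dim_quot (MvPolynomial.X_ne_zero 0)
  · obtain ⟨j, hj, hja⟩ := lc_torus isChart_dx (wt := ![1, b]) rfl hA hB hu
    have hfk : Algebra.FiniteType ℤ k := by
      have : Module.Finite ℤ k := Module.Finite.of_finite
      infer_instance
    have hft : Algebra.FiniteType ℤ k[X] := ft_alg hfk inferInstance
    have hpX : (p : k[X]) = 0 := by rw [← map_natCast (C : k →+* k[X]), hk, map_zero]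
    have hG : IsUnit (algebraMap k[X] (Localization.Away (dx k u)) (dx k B)) := by
      refine dvd_unit (N := N) (u := dx k u) ?_ (IsLocalization.Away.algebraMap_isUnit _)
      rw [← map_pow]
      exact map_dvd (dx k) hBu
    obtain ⟨c, hc⟩ := ex_b (algebraMap k[X] (Localization.Away (dx k u))) (dx k A) (dx k B) hG
    refine qa_model hP hj (hja c hc) (pk_lau hP c ?_)
    refine pk_curve hP hn (ft_loc hft _) ?_ ?_ c
    · rw [← map_natCast (algebraMap k[X] _), hpX, map_zero]
    · refine dim_away _ ?_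
      rw [Polynomial.ringKrullDim_of_isNoetherianRing, ringKrullDim_eq_zero_of_field]
      exact le_of_eq (zero_add 1)

/-! ### The section `z = 0` of the cone -/

/-- the inclusion -/
noncomputable def inc (k : Type) [Field k] : MvPolynomial (Fin 2) k →ₐ[k] MvPolynomial (Fin 3) k :=
  MvPolynomial.aeval ![MvPolynomial.X 0, MvPolynomial.X 1]

theorem pr_inc (x : MvPolynomial (Fin 2) k) : pr k (inc k x) = x := by
  have h1 : (pr k).comp (inc k) = AlgHom.id k _ := by
    apply MvPolynomial.algHom_ext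
    intro i
    fin_cases i <;> simp [pr, inc]
  exact DFunLike.congr_fun h1 x

theorem comp_inc_pr {T : Type} [CommRing T] (j : MvPolynomial (Fin 3) k →+* T)
    (h : j (MvPolynomial.X 2) = 0) : (j.comp (inc k).toRingHom).comp (pr k).toRingHom = j := by
  apply MvPolynomial.ringHom_ext
  · intro c
    change j (inc k (pr k (algebraMap k _ c))) = j (algebraMap k _ c)
    rw [AlgHom.commutes, AlgHom.commutes]
  · intro i
    change j (inc k (pr k (MvPolynomial.X i))) = j (MvPolynomial.X i)
    fin_cases i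
    · simp [pr, inc]
    · simp [pr, inc]
    · simp [pr, inc, h]

theorem qa_flat {n : ℕ} {A B u : MvPolynomial (Fin 3) k}
    (h : QA P n (pr k A) (pr k B) ⊥ (pr k u)) :
    QA P n A B (⊥ ⊔ Ideal.span {MvPolynomial.X 2}) u := by
  intro T _ j a hj hG ha
  have h0 : j (MvPolynomial.X 2) = 0 :=
    hj.zero _ (Ideal.mem_sup_right (Ideal.mem_span_singleton_self _))
  have hc := comp_inc_pr j h0
  have hc' : ∀ x, j (inc k (pr k x)) = j x := fun x => RingHom.congr_fun hc x
  refine h T (j.comp (inc k).toRingHom) a ⟨?_, ?_, ?_, ?_⟩ ?_ ?_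
  · intro x hx
    rw [Ideal.mem_bot.1 hx, map_zero]
  · change IsUnit (j (inc k (pr k u)))
    rw [hc']
    exact hj.unit
  · intro E _ v _ hv
    have h1 : (⊥ ⊔ Ideal.span {MvPolynomial.X 2} : Ideal (MvPolynomial (Fin 3) k)) ≤
        RingHom.ker (v.comp (pr k).toRingHom) := by
      rw [bot_sup_eq, Ideal.span_singleton_le_iff_mem, RingHom.mem_ker]
      change v (pr k (MvPolynomial.X 2)) = 0
      simp [pr]
    obtain ⟨g, hg⟩ := hj.ex E (v.comp (pr k).toRingHom) (fun b hb => h1 hb) hv
    refine ⟨g, ?_⟩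
    refine RingHom.ext fun x => ?_
    have h2 := RingHom.congr_fun hg (inc k x)
    change g (j (inc k x)) = v (pr k (inc k x)) at h2
    rw [pr_inc] at h2
    exact h2
  · intro E _ g g' hh
    apply hj.uniq
    rw [← hc, ← RingHom.comp_assoc, hh, RingHom.comp_assoc]
  · change IsUnit (j (inc k (pr k B)))
    rw [hc']
    exact hG
  · change a * j (inc k (pr k B)) = j (inc k (pr k A))
    rw [hc', hc']
    exact ha

/-- **the affine part of the cyclic cover** of the weighted projective plane with the weights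
`1, b, 1` -/
theorem qa_aff [Finite k] (hP : FormalClass p P)
    (hT : ∀ (A : Type) [CommRing A], Algebra.FiniteType ℤ A → (p : A) = 0 → P (Lau A) → P A)
    (hk : (p : k) = 0) {n : ℕ} (hn : n ≠ 0) {b d e N : ℕ} {A B u : MvPolynomial (Fin 3) k}
    (hA : Hom ![1, b, 1] d A) (hB : Hom ![1, b, 1] d B) (hu : Hom ![1, b, 1] e u)
    (hBu : B ∣ u ^ N) (h : QA P n A B ⊥ u) : QA P n (de k A) (de k B) ⊥ (de k u) := by
  have hG : IsUnit (algebraMap (MvPolynomial (Fin 2) k) (Localization.Away (de k u))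
      (de k B)) := by
    refine dvd_unit (N := N) (u := de k u) ?_ (IsLocalization.Away.algebraMap_isUnit _)
    rw [← map_pow]
    exact map_dvd (de k) hBu
  obtain ⟨a, ha⟩ := ex_b (algebraMap (MvPolynomial (Fin 2) k) (Localization.Away (de k u)))
    (de k A) (de k B) hG
  refine qa_model hP (isLC_away (de k u)) ha ?_
  refine pk_of_lau hP hT (ft_loc (ft_fin 2) _) ?_ a ?_
  · rw [← map_natCast (algebraMap (MvPolynomial (Fin 2) k) _), char_fin hk, map_zero]
  obtain ⟨j, hj, hja⟩ := lc_torus isChart_de (wt := ![1, b, 1]) rfl hA hB hu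
  have h1 : QA P n A B ⊥ (u * MvPolynomial.X 2) := by
    refine qa_open hP _ hBu (qa_flat ?_) h
    exact qa_bin hP hk hn hA.pr hB.pr hu.pr (pr_dvd hBu)
  refine h1 _ j (cL a) hj ?_ (hja a ha)
  refine unit_of_dvd j (N := N) (u := u * MvPolynomial.X 2) ?_ hj.unit
  rw [mul_pow]
  exact hBu.mul_right _

end Pool.Agent.Helper9.TP
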