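import Pool.Agent.Helper9.TP.FanoAll
import Pool.Agent.Helper11.TP.CBnd
import Pool.Agent.Helper11.TP.CBfin
import Pool.Agent.Helper79.TP.Net
import Pool.Agent.Helper79.TP.One
import Pool.Agent.Helper49.TP.Fib2
import Pool.Agent.Helper49.TP.FibW
import Pool.Agent.Helper49.TP.Three
import Pool.Agent.Helper71.W4.Final
import Pool.Agent.Helper71.W5.Lin
import Pool.Agent.Helper71.W6.Chg
import Pool.Agent.Helper71.W7.Line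
import Pool.Agent.Helper71.WP.Tame

/-!
# Fano trinomials: the blocks and the theorem
-/

set_option autoImplicit false

namespace Pool.Agent.Helper9.TP

open Pool.Agent.Helper29.CQ (FormalClass GOps)
open Pool.Agent.Helper65.CC Pool.Agent.Helper65.CC.KFn

/-- the blocks for conics -/
theorem conicBlocks : ConicBlocks where
  cb_nd h2 hG F₀ F₁ F₂ h₀ h₁ h₂ i j c h :=
    Pool.Agent.Helper11.TP.cb_nd h2 hG F₀ F₁ F₂ h₀ h₁ h₂ i j c h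
  cb_fin h2 hG _ _ _ _ hW F₀ F₁ F₂ h₀ h₁ h₂ i j c :=
    Pool.Agent.Helper11.TP.cb_fin h2 hG hW F₀ F₁ F₂ h₀ h₁ h₂ i j c
  cb_line hG l m₀ m₁ m₂ hl h₀ h₁ h₂ i j c :=
    Pool.Agent.Helper71.W7.cb_line hG l m₀ m₁ m₂ hl h₀ h₁ h₂ i j c
  net h2 _ _ _ _ F₀ F₁ F₂ h₀ h₁ h₂ n₀ n₁ n₂ i j hi hj c hc v hv h :=
    Pool.Agent.Helper79.TP.net_block h2 F₀ F₁ F₂ h₀ h₁ h₂ n₀ n₁ n₂ i j hi hj c hc v hv h
  fib2_ne hG _ _ _ _ hW F₀ F₁ F₂ h₀ h₁ h₂ n₀ n₁ n₂ i j hi hj hij c hc h :=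
    Pool.Agent.Helper49.TP.fib2_ne hG hW F₀ F₁ F₂ h₀ h₁ h₂ n₀ n₁ n₂ i j hi hj hij c hc h
  fib2_zero hG _ _ _ _ hW F₀ F₁ F₂ h₀ h₁ h₂ n₀ n₁ n₂ i j hi hj :=
    Pool.Agent.Helper49.TP.fib2_zero hG hW F₀ F₁ F₂ h₀ h₁ h₂ n₀ n₁ n₂ i j hi hj

/-- the blocks -/
theorem fanoBlocks : FanoBlocks where
  fibw_ne hG := Pool.Agent.Helper49.TP.fibw_ne hG
  fibw_zero hG := Pool.Agent.Helper49.TP.fibw_zero hG
  mem_one h2 hG hW _ _ _ _ F₀ F₁ F₂ s t hs ht hst hle h₀ h₁ h₂ hy n₁ n₂ c hc :=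
    Pool.Agent.Helper79.TP.mem_one h2 hG hW F₀ F₁ F₂ s t hs ht hst hle h₀ h₁ h₂ hy n₁ n₂ c hc
  mem_three := Pool.Agent.Helper49.TP.mem_three
  mem_two := Pool.Agent.Helper71.W4.mem_two
  qa_lin hP hk _ hn f₀ f₁ f₂ l₀ l₁ l₂ n₀ n₁ n₂ s t _ _ :=
    Pool.Agent.Helper71.W5.qa_lin hP hk hn f₀ f₁ f₂ l₀ l₁ l₂ n₀ n₁ n₂ s t
  qa_binw hP hk _ hn _ _ _ _ _ ha _ _ _ _ hA hB hu hBu :=
    Pool.Agent.Helper71.W6.qa_binw hP hk hn ha hA hB hu hBu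
  qa_chg hP hk _ hn _ hw _ _ _ _ _ _ hA hB hu hBu τ i nA nB nu :=
    Pool.Agent.Helper71.W6.qa_chg hP hk hn hw hA hB hu hBu τ i nA nB nu
  tame hp hp2 hP _ _ hab f g hf hg n hn :=
    Pool.Agent.Helper71.WP.tame hp hp2 hP hab f g hf hg n hn
  conics := conicBlocks

/-- **Fano trinomials** -/
theorem fano_trinomials {p : ℕ} {P : ∀ (A : Type) [CommRing A], Prop} {k : Type} [Field k]
    (hp : p.Prime) (hp2 : p ≠ 2) (hP : TriClass p P)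
    [Finite k] [CharP k p] {a b c s t : ℕ} (habc : 0 < a + b + c) (hs : 0 < s) (ht : 0 < t)
    (f g h : MvPolynomial (Fin 2) k)
    (hf : ∀ m ∈ f.support, a * m 0 + b * m 1 ≤ a + b + c)
    (hg : ∀ m ∈ g.support, a * m 0 + b * m 1 + t * c ≤ a + b + c)
    (hh : ∀ m ∈ h.support, a * m 0 + b * m 1 + (s + t) * c ≤ a + b + c) {m : ℕ}
    (Φ : Fin m → MvPolynomial (Fin 2) k) {n : Fin m → ℕ} (hn : ∀ j, 0 < n j)
    (hΦ : ∀ j, (Φ j).IsHomogeneous (n j)) :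
    P (MvPolynomial (Fin m × Fin 2) (MvPolynomial (Fin 2) k) ⧸
      Ideal.span {MvPolynomial.C (g ^ (s + t)) * MvPolynomial.map MvPolynomial.C
        (∑ j, MvPolynomial.rename (Prod.mk j) (Φ j)) - MvPolynomial.C (f ^ s * h ^ t)}) :=
  fano_forms_all fanoBlocks hp hp2 hP habc hs ht f g h hf hg hh Φ hn hΦ

end Pool.Agent.Helper9.TP
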