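import Pool.Agent.Helper9.TP.Defs2
import Pool.Agent.Helper9.TP.Cubic

/-!
# Cone pencils: the tame part
-/

set_option autoImplicit false

namespace Pool.Agent.Helper9.TP

open Polynomial
open Pool.Agent.Helper29.CQ (FormalClass GOps)
open Pool.Agent.Helper29.PF (StableClass)
open Pool.Agent.Helper65.CC Pool.Agent.Helper65.CC.KFn
open Pool.Agent.Helper9.QP (Gen gen_insep Cst)
open Pool.Agent.Helper67.CQ (ex_root)
open Pool.Agent.Helper71.CP (ev ev_map wt CW Qp Chg NoX NoY)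
open MvPolynomial (IsWeightedHomogeneous)

/-- the blocks of the tame part of the cone pencils -/
structure Cone6Blocks : Prop where
  fib6_ne : ∀ {K : Type} [Field K] [IsAlgClosed K]
    {G : ∀ (R : Type) [CommRing R] [Algebra K R], Prop} (_ : (2 : K) ≠ 0) (_ : GOps K G)
    {k : Type} [Field k] [Finite k] [Algebra k K], Cst k G →
    ∀ (F E : MvPolynomial (Fin 3) k), IsWeightedHomogeneous wt F 6 →
    IsWeightedHomogeneous wt E 3 → F ≠ 0 → E ≠ 0 → ∀ e : K, e ≠ 0 →
    (CW (Qp (MvPolynomial.map (algebraMap k K) F) (MvPolynomial.map (algebraMap k K) E) 1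
      (-(4 * e)))).Mem G →
    (FibT (MvPolynomial.map (algebraMap k K) F) (MvPolynomial.map (algebraMap k K) (E ^ 2))
      (MvPolynomial.map (algebraMap k K) (F * E)) 1 1 e).Mem G
  fib6_zero : ∀ {K : Type} [Field K] [IsAlgClosed K]
    {G : ∀ (R : Type) [CommRing R] [Algebra K R], Prop} (_ : GOps K G)
    {k : Type} [Field k] [Finite k] [Algebra k K], Cst k G →
    ∀ (F E : MvPolynomial (Fin 3) k), IsWeightedHomogeneous wt F 6 →
    IsWeightedHomogeneous wt E 3 → F ≠ 0 → E ≠ 0 →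
    (FibT (MvPolynomial.map (algebraMap k K) F) (MvPolynomial.map (algebraMap k K) (E ^ 2))
      (MvPolynomial.map (algebraMap k K) (F * E)) 1 1 0).Mem G
  prod6_x : ∀ {p : ℕ} {P : ∀ (A : Type) [CommRing A], Prop} {k : Type} [Field k] [Finite k]
    (_ : FormalClass p P) (_ : (p : k) = 0) {n : ℕ} (_ : n ≠ 0) (F E : MvPolynomial (Fin 3) k),
    IsWeightedHomogeneous wt F 6 → IsWeightedHomogeneous wt E 3 →
    ∀ (k' : Type) [Field k'] [Algebra k k'] [Module.Finite k k'] (τ : Chg k'),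
    NoX (MvPolynomial.aeval τ.fwd (MvPolynomial.map (algebraMap k k') F)) →
    NoX (MvPolynomial.aeval τ.fwd (MvPolynomial.map (algebraMap k k') E)) →
    QA P n F (E ^ 2) ⊥ (F * E)
  prod6_y : ∀ {p : ℕ} {P : ∀ (A : Type) [CommRing A], Prop} {k : Type} [Field k] [Finite k]
    (_ : FormalClass p P) (_ : (p : k) = 0) {n : ℕ} (_ : n ≠ 0) (F E : MvPolynomial (Fin 3) k),
    IsWeightedHomogeneous wt F 6 → IsWeightedHomogeneous wt E 3 → NoY F → NoY E →
    QA P n F (E ^ 2) ⊥ (F * E)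

variable {p : ℕ} {P : ∀ (A : Type) [CommRing A], Prop} {k : Type} [Field k]

/-- the open part of the cyclic cover of the plane -/
theorem cone6_open (Bl : Cone6Blocks) (hp : p.Prime) (hp2 : p ≠ 2) (hP : StableClass p P)
    [Finite k] [CharP k p] {n : ℕ} (hn : n ≠ 0) (hpn : ¬ p ∣ n) (f g : MvPolynomial (Fin 2) k)
    (hf : ∀ m ∈ f.support, m 0 + 2 * m 1 ≤ 6) (hg : ∀ m ∈ g.support, m 0 + 2 * m 1 ≤ 3)
    (hf0 : f ≠ 0) (hg0 : g ≠ 0) : QA P n f (g ^ 2) ⊥ (f * g) := by
  obtain ⟨F, hF, rfl⟩ := exists_hom (b := 2) f hf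
  obtain ⟨E, hE, rfl⟩ := exists_hom (b := 2) g hg
  have hF0 : F ≠ 0 := fun h => hf0 (by rw [h, map_zero])
  have hE0 : E ≠ 0 := fun h => hg0 (by rw [h, map_zero])
  have hA : Hom ![1, 2, 1] 6 F := Hom.of_wh hF
  have hB : Hom ![1, 2, 1] 6 (E ^ 2) := (Hom.of_wh hE).pow 2
  have hu : Hom ![1, 2, 1] (6 + 3) (F * E) := (Hom.of_wh hF).mul (Hom.of_wh hE)
  have hBu : E ^ 2 ∣ (F * E) ^ 2 := by
    rw [mul_pow]
    exact Dvd.intro_left _ rfl
  have hAu : F ∣ (F * E) ^ 1 := by
    rw [pow_one]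
    exact Dvd.intro _ rfl
  have key : QA P n F (E ^ 2) ⊥ (F * E) := by
    by_cases hx : ∀ (k' : Type) [Field k'] [Algebra k k'], Module.Finite k k' → ∀ τ : Chg k',
        ¬ (NoX (MvPolynomial.aeval τ.fwd (MvPolynomial.map (algebraMap k k') F)) ∧
          NoX (MvPolynomial.aeval τ.fwd (MvPolynomial.map (algebraMap k k') E)))
    · by_cases hy : NoY F ∧ NoY E
      · exact Bl.prod6_y hP.toFormalClass (CharP.cast_eq_zero k p) hn F E hF hE hy.1 hy.2
      · refine red_cone' hp hP.toFormalClass (untwist_one hP.toFormalClass hpn) hBu hAu ?_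
        intro K _ _ _ _ G hG hW e
        have h2 : (2 : K) ≠ 0 := two_ne hp hp2
        by_cases he : e = 0
        · rw [he]
          exact Bl.fib6_zero hG hW F E hF hE hF0 hE0
        · refine Bl.fib6_ne h2 hG hW F E hF hE hF0 hE0 e he ?_
          refine Pool.Agent.Helper79.CP.geo6 h2 hG hW F E hF hE hE0 hx hy 1 (-(4 * e)) ?_
          rw [neg_ne_zero]
          have h4 : (4 : K) = 2 * 2 := by norm_num
          rw [h4]
          exact mul_ne_zero (mul_ne_zero h2 h2) he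
    · push Not at hx
      obtain ⟨k', _, _, _, τ, h1, h2⟩ := hx
      exact Bl.prod6_x hP.toFormalClass (CharP.cast_eq_zero k p) hn F E hF hE k' τ h1 h2
  have := red_aff hP hn hA hB hu hBu key
  rwa [map_pow, map_mul] at this

/-- **Cone pencils, tame part**: `g ^ 2 w ^ n = f` with the weights `1, 2` for `x, y` and the
degrees at most `6` and `3`. -/
theorem cone_tame (Bl : Cone6Blocks) (hp : p.Prime) (hp2 : p ≠ 2) (hP : StableClass p P)
    [Finite k] [CharP k p] (f g : MvPolynomial (Fin 2) k)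
    (hf : ∀ m ∈ f.support, m 0 + 2 * m 1 ≤ 6) (hg : ∀ m ∈ g.support, m 0 + 2 * m 1 ≤ 3)
    (n : ℕ) (hn : 0 < n) : P (Gen (MvPolynomial (Fin 2) k) n (g ^ 2) f) := by
  have hpp : Fact p.Prime := ⟨hp⟩
  have hk : (p : k) = 0 := CharP.cast_eq_zero k p
  have hP' := hP.toFormalClass
  induction n using Nat.strong_induction_on generalizing f g with
  | _ n ih =>
  by_cases hpn : p ∣ n
  · obtain ⟨m, rfl⟩ := hpn
    have hm : 0 < m := Nat.pos_of_mul_pos_left hn
    obtain ⟨φ, hφ⟩ := ex_root hk f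
    obtain ⟨φ', hφ'⟩ := ex_root hk g
    refine gen_insep hP' hk (g ^ 2) f (MvPolynomial.map φ' g ^ 2)
      (MvPolynomial.map φ f) ?_ hφ ?_
    · rw [map_pow, hφ', ← pow_mul, ← pow_mul, mul_comm]
    · refine ih m (by nlinarith [hp.two_le]) _ _ (fun d hd => hf d ?_) (fun d hd => hg d ?_) hm
      · exact MvPolynomial.support_map_subset φ f hd
      · exact MvPolynomial.support_map_subset φ' g hd
  · refine gen_mem hP' hk hn.ne' (g ^ 2) f fun hf0 hB => ?_
    have hg0 : g ≠ 0 := fun h => hB (by rw [h, zero_pow two_ne_zero])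
    refine qa_big hP' hk hn.ne' (mul_ne_zero hf0 hg0) (N := 2) ?_
      (cone6_open Bl hp hp2 hP hn.ne' hpn f g hf hg hf0 hg0)
    rw [mul_pow]
    exact Dvd.intro_left _ rfl

end Pool.Agent.Helper9.TP
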