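import Pool.Agent.Helper9.TP.Cone6
import Pool.Agent.Helper29.PF.Fib6
import Pool.Agent.Helper79.TP.Prod6

/-!
# Pencils of curves of genus two: the theorem for the covers `w ^ n`
-/

set_option autoImplicit false

namespace Pool.Agent.Helper9.TP

open Pool.Agent.Helper29.CQ
open Pool.Agent.Helper29.PF (StableClass)
open Pool.Agent.Helper9.QP (Gen)

theorem cone6Blocks : Cone6Blocks where
  fib6_ne h2 hG _ _ _ _ hW F E hF hE hF0 hE0 e he h :=
    Pool.Agent.Helper29.PF.fib6_ne h2 hG hW F E hF hE hF0 hE0 e he h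
  fib6_zero hG _ _ _ _ hW F E hF hE hF0 hE0 :=
    Pool.Agent.Helper29.PF.fib6_zero hG hW F E hF hE hF0 hE0
  prod6_x hP hk _ hn F E hF hE k' _ _ _ τ h h' :=
    Pool.Agent.Helper79.TP.prod6_x hP hk hn F E hF hE k' τ h h'
  prod6_y hP hk _ hn F E hF hE h h' :=
    Pool.Agent.Helper79.TP.prod6_y hP hk hn F E hF hE h h'

variable {p : ℕ} {P : ∀ (A : Type) [CommRing A], Prop} {k : Type} [Field k]

/-- **Cyclic covers of the cone**: `g ^ 2 w ^ n = f`, where `f` and `g` have degrees at most `6`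
and `3` if `x` and `y` have the weights `1` and `2`. -/
theorem cone_pencils (hp : p.Prime) (hp2 : p ≠ 2) (hP : StableClass p P) [Finite k] [CharP k p]
    (f g : MvPolynomial (Fin 2) k) (hf : ∀ m ∈ f.support, m 0 + 2 * m 1 ≤ 6)
    (hg : ∀ m ∈ g.support, m 0 + 2 * m 1 ≤ 3) (n : ℕ) (hn : 0 < n) :
    P (Gen (MvPolynomial (Fin 2) k) n (g ^ 2) f) :=
  cone_tame cone6Blocks hp hp2 hP f g hf hg n hn

end Pool.Agent.Helper9.TP
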