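import Pool.Agent.Helper9.TP.Defs2
import Pool.Agent.Helper9.TP.Cubic

/-!
# Cyclic covers of the plane branched along three conics
-/

set_option autoImplicit false

namespace Pool.Agent.Helper9.TP

open Polynomial
open Pool.Agent.Helper29.CQ (FormalClass GOps)
open Pool.Agent.Helper29.PF (StableClass)
open Pool.Agent.Helper65.CC Pool.Agent.Helper65.CC.KFn
open Pool.Agent.Helper9.QP (Gen gen_insep Cst)
open Pool.Agent.Helper67.CQ (ex_root)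
open Pool.Agent.Helper71.CP (ev ev_map)

/-- the blocks for three conics -/
structure ConicBlocks : Prop where
  cb_nd : ∀ {K : Type} [Field K] [IsAlgClosed K]
    {G : ∀ (R : Type) [CommRing R] [Algebra K R], Prop} (_ : (2 : K) ≠ 0) (_ : GOps K G)
    (F₀ F₁ F₂ : MvPolynomial (Fin 3) K), F₀.IsHomogeneous 2 → F₁.IsHomogeneous 2 →
    F₂.IsHomogeneous 2 → ∀ (i j : ℕ) (c : K),
    (∀ v : Fin 3 → K[X], v ≠ 0 → ¬ InvB F₀ F₁ F₂ i j c v) → (CB F₀ F₁ F₂ i j c).Mem G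
  cb_fin : ∀ {K : Type} [Field K] [IsAlgClosed K]
    {G : ∀ (R : Type) [CommRing R] [Algebra K R], Prop} (_ : (2 : K) ≠ 0) (_ : GOps K G)
    {k : Type} [Field k] [Finite k] [Algebra k K], Cst k G →
    ∀ (F₀ F₁ F₂ : MvPolynomial (Fin 3) k), F₀.IsHomogeneous 2 → F₁.IsHomogeneous 2 →
    F₂.IsHomogeneous 2 → ∀ (i j : ℕ) (c : k),
    (CB (MvPolynomial.map (algebraMap k K) F₀) (MvPolynomial.map (algebraMap k K) F₁)
      (MvPolynomial.map (algebraMap k K) F₂) i j (algebraMap k K c)).Mem G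
  cb_line : ∀ {K : Type} [Field K] [IsAlgClosed K]
    {G : ∀ (R : Type) [CommRing R] [Algebra K R], Prop} (_ : GOps K G)
    (l m₀ m₁ m₂ : MvPolynomial (Fin 3) K), l.IsHomogeneous 1 → m₀.IsHomogeneous 1 →
    m₁.IsHomogeneous 1 → m₂.IsHomogeneous 1 → ∀ (i j : ℕ) (c : K),
    (CB (l * m₀) (l * m₁) (l * m₂) i j c).Mem G
  net : ∀ {K : Type} [Field K] [IsAlgClosed K] (_ : (2 : K) ≠ 0)
    {k : Type} [Field k] [Finite k] [Algebra k K]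
    (F₀ F₁ F₂ : MvPolynomial (Fin 3) k), F₀.IsHomogeneous 2 → F₁.IsHomogeneous 2 →
    F₂.IsHomogeneous 2 → F₀ ≠ 0 → F₁ ≠ 0 → F₂ ≠ 0 → ∀ (i j : ℕ), 0 < i → 0 < j →
    ∀ (c : K), Transcendental k c → ∀ (v : Fin 3 → K[X]), v ≠ 0 →
    InvB (MvPolynomial.map (algebraMap k K) F₀) (MvPolynomial.map (algebraMap k K) F₁)
      (MvPolynomial.map (algebraMap k K) F₂) i j c v →
    (∃ u : Fin 3 → k, u ≠ 0 ∧ InvP F₀ u ∧ InvP F₁ u ∧ InvP F₂ u) ∨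
    (∃ l m₀ m₁ m₂ : MvPolynomial (Fin 3) k, l.IsHomogeneous 1 ∧ m₀.IsHomogeneous 1 ∧
      m₁.IsHomogeneous 1 ∧ m₂.IsHomogeneous 1 ∧ F₀ = l * m₀ ∧ F₁ = l * m₁ ∧ F₂ = l * m₂)
  fib2_ne : ∀ {K : Type} [Field K] [IsAlgClosed K]
    {G : ∀ (R : Type) [CommRing R] [Algebra K R], Prop} (_ : GOps K G)
    {k : Type} [Field k] [Finite k] [Algebra k K], Cst k G →
    ∀ (F₀ F₁ F₂ : MvPolynomial (Fin 3) k), F₀.IsHomogeneous 2 → F₁.IsHomogeneous 2 →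
    F₂.IsHomogeneous 2 → F₀ ≠ 0 → F₁ ≠ 0 → F₂ ≠ 0 → ∀ (i j : ℕ), 0 < i → 0 < j →
    i.Coprime j → ∀ (c : K), c ≠ 0 →
    (CB (MvPolynomial.map (algebraMap k K) F₀) (MvPolynomial.map (algebraMap k K) F₁)
      (MvPolynomial.map (algebraMap k K) F₂) i j c).Mem G →
    (FibT (MvPolynomial.map (algebraMap k K) (F₀ ^ i * F₂ ^ j))
      (MvPolynomial.map (algebraMap k K) (F₁ ^ (i + j)))
      (MvPolynomial.map (algebraMap k K) (F₀ * F₁ * F₂)) i j (c ^ j)).Mem G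
  fib2_zero : ∀ {K : Type} [Field K] [IsAlgClosed K]
    {G : ∀ (R : Type) [CommRing R] [Algebra K R], Prop} (_ : GOps K G)
    {k : Type} [Field k] [Finite k] [Algebra k K], Cst k G →
    ∀ (F₀ F₁ F₂ : MvPolynomial (Fin 3) k), F₀.IsHomogeneous 2 → F₁.IsHomogeneous 2 →
    F₂.IsHomogeneous 2 → F₀ ≠ 0 → F₁ ≠ 0 → F₂ ≠ 0 → ∀ (i j : ℕ), 0 < i → 0 < j →
    (FibT (MvPolynomial.map (algebraMap k K) (F₀ ^ i * F₂ ^ j))
      (MvPolynomial.map (algebraMap k K) (F₁ ^ (i + j)))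
      (MvPolynomial.map (algebraMap k K) (F₀ * F₁ * F₂)) i j 0).Mem G

variable {p : ℕ} {P : ∀ (A : Type) [CommRing A], Prop} {k : Type} [Field k]

/-- the cones over the conic bundles -/
theorem cb_mem (Bl : ConicBlocks) [Finite k] (F₀ F₁ F₂ : MvPolynomial (Fin 3) k)
    (h₀ : F₀.IsHomogeneous 2) (h₁ : F₁.IsHomogeneous 2) (h₂ : F₂.IsHomogeneous 2) (n₀ : F₀ ≠ 0)
    (n₁ : F₁ ≠ 0) (n₂ : F₂ ≠ 0) {i j : ℕ} (hi : 0 < i) (hj : 0 < j)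
    (hinv : ¬ ∃ u : Fin 3 → k, u ≠ 0 ∧ InvP F₀ u ∧ InvP F₁ u ∧ InvP F₂ u)
    {K : Type} [Field K] [IsAlgClosed K] [Algebra k K]
    {G : ∀ (R : Type) [CommRing R] [Algebra K R], Prop} (h2 : (2 : K) ≠ 0) (hG : GOps K G)
    (hW : CstA G) (c : K) :
    (CB (MvPolynomial.map (algebraMap k K) F₀) (MvPolynomial.map (algebraMap k K) F₁)
      (MvPolynomial.map (algebraMap k K) F₂) i j c).Mem G := by
  by_cases hc : Transcendental k c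
  · by_cases hnd : ∀ v : Fin 3 → K[X], v ≠ 0 → ¬ InvB (MvPolynomial.map (algebraMap k K) F₀)
        (MvPolynomial.map (algebraMap k K) F₁) (MvPolynomial.map (algebraMap k K) F₂) i j c v
    · exact Bl.cb_nd h2 hG _ _ _ (h₀.map _) (h₁.map _) (h₂.map _) i j c hnd
    · push Not at hnd
      obtain ⟨v, hv, hi'⟩ := hnd
      rcases Bl.net h2 F₀ F₁ F₂ h₀ h₁ h₂ n₀ n₁ n₂ i j hi hj c hc v hv hi' with
        h | ⟨l, m₀, m₁, m₂, hl, g₀, g₁, g₂, rfl, rfl, rfl⟩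
      · exact absurd h hinv
      · rw [map_mul, map_mul, map_mul]
        exact Bl.cb_line hG _ _ _ _ (hl.map _) (g₀.map _) (g₁.map _) (g₂.map _) i j c
  · have halg : IsAlgebraic k c := by
      rw [Transcendental, not_not] at hc
      exact hc
    have hint : IsIntegral k c := halg.isIntegral
    let k' := IntermediateField.adjoin k {c}
    have hfd : FiniteDimensional k k' := IntermediateField.adjoin.finiteDimensional hint
    have hfin : Finite k' := Module.finite_of_finite k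
    have hmap : ∀ F : MvPolynomial (Fin 3) k, MvPolynomial.map (algebraMap k K) F =
        MvPolynomial.map (algebraMap k' K) (MvPolynomial.map (algebraMap k k') F) := by
      intro F
      rw [MvPolynomial.map_map, ← IsScalarTower.algebraMap_eq]
    rw [hmap, hmap, hmap]
    exact Bl.cb_fin h2 hG (hW k') _ _ _ (h₀.map _) (h₁.map _) (h₂.map _) i j
      (⟨c, IntermediateField.mem_adjoin_simple_self k c⟩ : k')

/-- the fibres for three conics -/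
theorem fib2 (Bl : ConicBlocks) [Finite k] (F₀ F₁ F₂ : MvPolynomial (Fin 3) k)
    (h₀ : F₀.IsHomogeneous 2) (h₁ : F₁.IsHomogeneous 2) (h₂ : F₂.IsHomogeneous 2) (n₀ : F₀ ≠ 0)
    (n₁ : F₁ ≠ 0) (n₂ : F₂ ≠ 0) {i j : ℕ} (hi : 0 < i) (hj : 0 < j) (hij : i.Coprime j)
    (hinv : ¬ ∃ u : Fin 3 → k, u ≠ 0 ∧ InvP F₀ u ∧ InvP F₁ u ∧ InvP F₂ u)
    {K : Type} [Field K] [IsAlgClosed K] [Algebra k K]
    {G : ∀ (R : Type) [CommRing R] [Algebra K R], Prop} (h2 : (2 : K) ≠ 0) (hG : GOps K G)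
    (hW : CstA G) (e : K) :
    (FibT (MvPolynomial.map (algebraMap k K) (F₀ ^ i * F₂ ^ j))
      (MvPolynomial.map (algebraMap k K) (F₁ ^ (i + j)))
      (MvPolynomial.map (algebraMap k K) (F₀ * F₁ * F₂)) i j e).Mem G := by
  by_cases he : e = 0
  · rw [he]
    exact Bl.fib2_zero hG (hW k) F₀ F₁ F₂ h₀ h₁ h₂ n₀ n₁ n₂ i j hi hj
  obtain ⟨c, rfl⟩ := IsAlgClosed.exists_pow_nat_eq e hj
  have hc : c ≠ 0 := by
    rintro rfl
    exact he (zero_pow hj.ne')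
  exact Bl.fib2_ne hG (hW k) F₀ F₁ F₂ h₀ h₁ h₂ n₀ n₁ n₂ i j hi hj hij c hc
    (cb_mem Bl F₀ F₁ F₂ h₀ h₁ h₂ n₀ n₁ n₂ hi hj hinv h2 hG hW c)

/-- the open part of the cyclic cover of the plane -/
theorem conics_open (Bl : ConicBlocks) (hp : p.Prime) (hp2 : p ≠ 2) (hP : TriClass p P) [Finite k]
    [CharP k p] {n : ℕ} (hn : n ≠ 0) (hpn : ¬ p ∣ n) (f₀ f₁ f₂ : MvPolynomial (Fin 2) k)
    (d₀ : f₀.totalDegree ≤ 2) (d₁ : f₁.totalDegree ≤ 2) (d₂ : f₂.totalDegree ≤ 2)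
    (n₀ : f₀ ≠ 0) (n₁ : f₁ ≠ 0) (n₂ : f₂ ≠ 0) {i j : ℕ} (hi : 0 < i) (hj : 0 < j)
    (hij : i.Coprime j) : QA P n (f₀ ^ i * f₂ ^ j) (f₁ ^ (i + j)) ⊥ (f₀ * f₁ * f₂) := by
  have hdeg : ∀ (h : MvPolynomial (Fin 2) k) (d : ℕ), h.totalDegree ≤ d →
      ∀ m ∈ h.support, m 0 + 1 * m 1 ≤ d := by
    intro h d hd m hm
    have h2 := MvPolynomial.le_totalDegree hm
    have h3 : (m.sum fun _ e => e) = m 0 + m 1 := by
      rw [Finsupp.sum_fintype _ _ (fun _ => rfl), Fin.sum_univ_two]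
    omega
  obtain ⟨F₀, hF₀, rfl⟩ := exists_hom (b := 1) f₀ (hdeg f₀ 2 d₀)
  obtain ⟨F₁, hF₁, rfl⟩ := exists_hom (b := 1) f₁ (hdeg f₁ 2 d₁)
  obtain ⟨F₂, hF₂, rfl⟩ := exists_hom (b := 1) f₂ (hdeg f₂ 2 d₂)
  have hw : (![1, 1, 1] : Fin 3 → ℕ) = 1 := by
    funext i
    fin_cases i <;> rfl
  have hh : ∀ {F : MvPolynomial (Fin 3) k},
      MvPolynomial.IsWeightedHomogeneous (![1, 1, 1] : Fin 3 → ℕ) F 2 → F.IsHomogeneous 2 := by
    intro F hF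
    rw [hw] at hF
    exact hF
  have m₀ : F₀ ≠ 0 := fun h => n₀ (by rw [h, map_zero])
  have m₁ : F₁ ≠ 0 := fun h => n₁ (by rw [h, map_zero])
  have m₂ : F₂ ≠ 0 := fun h => n₂ (by rw [h, map_zero])
  have hA : Hom ![1, 1, 1] (2 * (i + j)) (F₀ ^ i * F₂ ^ j) := by
    have := ((Hom.of_wh hF₀).pow i).mul ((Hom.of_wh hF₂).pow j)
    rwa [← mul_add] at this
  have hB : Hom ![1, 1, 1] (2 * (i + j)) (F₁ ^ (i + j)) := (Hom.of_wh hF₁).pow (i + j)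
  have hu : Hom ![1, 1, 1] (2 + 2 + 2) (F₀ * F₁ * F₂) :=
    ((Hom.of_wh hF₀).mul (Hom.of_wh hF₁)).mul (Hom.of_wh hF₂)
  have hBu : F₁ ^ (i + j) ∣ (F₀ * F₁ * F₂) ^ (i + j) := by
    rw [mul_pow, mul_pow]
    exact Dvd.dvd.mul_right (Dvd.intro_left _ rfl) _
  have hAu : F₀ ^ i * F₂ ^ j ∣ (F₀ * F₁ * F₂) ^ (i + j) := by
    rw [mul_pow, mul_pow, pow_add F₀, pow_add F₂]
    exact ⟨F₀ ^ j * F₁ ^ (i + j) * F₂ ^ i, by ring⟩
  have key : QA P n (F₀ ^ i * F₂ ^ j) (F₁ ^ (i + j)) ⊥ (F₀ * F₁ * F₂) := by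
    by_cases hinv : ∃ u : Fin 3 → k, u ≠ 0 ∧ InvP F₀ u ∧ InvP F₁ u ∧ InvP F₂ u
    · obtain ⟨u, hu0, h0, h1, h2⟩ := hinv
      exact qa_prod hP.toFormalClass (CharP.cast_eq_zero k p) hn hA hB hu hBu u hu0
        ((h0.pow i).mul (h2.pow j)) (h1.pow (i + j)) ((h0.mul h1).mul h2)
    · refine red_cone'' hp hP.toFormalClass (untwist_tri hP hpn hi hj) hBu hAu ?_
      intro K _ _ _ _ G hG hW e
      exact fib2 Bl F₀ F₁ F₂ (hh hF₀) (hh hF₁) (hh hF₂) m₀ m₁ m₂ hi hj hij hinv (two_ne hp hp2)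
        hG hW e
  have := red_aff hP.toStableClass hn hA hB hu hBu key
  rwa [map_mul, map_pow, map_pow, map_pow, map_mul, map_mul] at this

/-- **Cyclic covers of the plane branched along three conics**:
`f₁ ^ (i + j) w ^ n = f₀ ^ i f₂ ^ j`. -/
theorem conics (Bl : ConicBlocks) (hp : p.Prime) (hp2 : p ≠ 2) (hP : TriClass p P)
    [Finite k] [CharP k p] (f₀ f₁ f₂ : MvPolynomial (Fin 2) k) (d₀ : f₀.totalDegree ≤ 2)
    (d₁ : f₁.totalDegree ≤ 2) (d₂ : f₂.totalDegree ≤ 2) {i j : ℕ} (hi : 0 < i) (hj : 0 < j)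
    (hij : i.Coprime j) (n : ℕ) (hn : 0 < n) :
    P (Gen (MvPolynomial (Fin 2) k) n (f₁ ^ (i + j)) (f₀ ^ i * f₂ ^ j)) := by
  have hpp : Fact p.Prime := ⟨hp⟩
  have hk : (p : k) = 0 := CharP.cast_eq_zero k p
  have hP' := hP.toFormalClass
  induction n using Nat.strong_induction_on generalizing f₀ f₁ f₂ with
  | _ n ih =>
  by_cases hpn : p ∣ n
  · obtain ⟨m, rfl⟩ := hpn
    have hm : 0 < m := Nat.pos_of_mul_pos_left hn
    obtain ⟨φ₀, hφ₀⟩ := ex_root hk f₀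
    obtain ⟨φ₁, hφ₁⟩ := ex_root hk f₁
    obtain ⟨φ₂, hφ₂⟩ := ex_root hk f₂
    have hd : ∀ (ψ : k →+* k) (a : MvPolynomial (Fin 2) k) (d : ℕ), a.totalDegree ≤ d →
        (MvPolynomial.map ψ a).totalDegree ≤ d := fun ψ a d ha =>
      (Finset.sup_mono (MvPolynomial.support_map_subset ψ a)).trans ha
    refine gen_insep hP' hk (f₁ ^ (i + j)) (f₀ ^ i * f₂ ^ j) (MvPolynomial.map φ₁ f₁ ^ (i + j))
      (MvPolynomial.map φ₀ f₀ ^ i * MvPolynomial.map φ₂ f₂ ^ j) ?_ ?_ ?_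
    · rw [map_pow, hφ₁, ← pow_mul, ← pow_mul, mul_comm]
    · rw [map_mul, map_pow, map_pow, hφ₀, hφ₂, mul_pow, ← pow_mul, ← pow_mul, ← pow_mul,
        ← pow_mul, mul_comm p, mul_comm p]
    · exact ih m (by nlinarith [hp.two_le]) _ _ _ (hd φ₀ f₀ 2 d₀) (hd φ₁ f₁ 2 d₁)
        (hd φ₂ f₂ 2 d₂) hm
  · refine gen_mem hP' hk hn.ne' (f₁ ^ (i + j)) (f₀ ^ i * f₂ ^ j) fun hA hB => ?_
    have n₀ : f₀ ≠ 0 := fun h => hA (by rw [h, zero_pow hi.ne', zero_mul])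
    have n₂ : f₂ ≠ 0 := fun h => hA (by rw [h, zero_pow hj.ne', mul_zero])
    have n₁ : f₁ ≠ 0 := fun h => hB (by rw [h, zero_pow (by omega)])
    refine qa_big hP' hk hn.ne' (mul_ne_zero (mul_ne_zero n₀ n₁) n₂) (N := i + j) ?_
      (conics_open Bl hp hp2 hP hn.ne' hpn f₀ f₁ f₂ d₀ d₁ d₂ n₀ n₁ n₂ hi hj hij)
    rw [mul_pow, mul_pow]
    exact Dvd.dvd.mul_right (Dvd.intro_left _ rfl) _

end Pool.Agent.Helper9.TP
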