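import Pool.Agent.Helper9.QP.Defs
import Pool.Agent.Helper71.CP.Defs

/-!
# Trinomial pencils: definitions
-/

set_option autoImplicit false

namespace Pool.Agent.Helper9.TP

open Pool.Agent.Helper29.CQ Pool.Agent.Helper65.CC Pool.Agent.Helper87.CC
  Pool.Agent.Helper65.CC.KFn
open Pool.Agent.Helper9.QP (A4 Cst)
open Pool.Agent.Helper71.CP (ev ev_map)

variable {K : Type} [Field K] {G : ∀ (R : Type) [CommRing R] [Algebra K R], Prop}

/-- the polynomial is invariant under the translations with the direction `v` -/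
def InvP (F : MvPolynomial (Fin 3) K) (v : Fin 3 → K) : Prop :=
  ∀ (R : Type) [CommRing R] [Algebra K R] (x y z t : R),
    ev F (x + t * algebraMap K R (v 0)) (y + t * algebraMap K R (v 1))
      (z + t * algebraMap K R (v 2)) = ev F x y z

/-- the fibre `e A(x, y, z) = B(x, y, z) v ^ i (1 - v) ^ j`, `U(x, y, z)` invertible -/
noncomputable def FibT (A B U : MvPolynomial (Fin 3) K) (i j : ℕ) (e : K) : KFn K :=
  ((A4 K).cls ⟨fun {R} _ _ x => algebraMap K R e * ev A x.1 x.2.1 x.2.2.1 -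
      ev B x.1 x.2.1 x.2.2.1 * (x.2.2.2 ^ i * (1 - x.2.2.2) ^ j), fun f x => by
    rw [map_sub, map_mul, map_mul, map_mul, map_pow, map_pow, ev_map, ev_map, map_sub, map_one,
      AlgHom.commutes]
    rfl⟩).opn ⟨fun {R} _ _ x => ev U x.1.1 x.1.2.1 x.1.2.2.1, fun f x => by
    rw [ev_map]
    rfl⟩

instance (A B U : MvPolynomial (Fin 3) K) (i j : ℕ) (e : K) : Rp (FibT A B U i j e) := by
  unfold FibT
  infer_instance

/-- the affine cone `F(x, y, z) - r Q(x, y, z) + e r ^ 3 = 0` -/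
noncomputable def CU (F Q : MvPolynomial (Fin 3) K) (e : K) : KFn K :=
  (A4 K).cls ⟨fun {R} _ _ x => ev F x.1 x.2.1 x.2.2.1 - x.2.2.2 * ev Q x.1 x.2.1 x.2.2.1 +
      algebraMap K R e * x.2.2.2 ^ 3, fun f x => by
    rw [map_add, map_sub, map_mul, map_mul, map_pow, ev_map, ev_map, AlgHom.commutes]
    rfl⟩

instance (F Q : MvPolynomial (Fin 3) K) (e : K) : Rp (CU F Q e) := by
  unfold CU
  infer_instance

/-- the cubic form `F(x, y, z) - r Q(x, y, z) + e r ^ 3` is invariant under the translations with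
the direction `v` -/
def InvU (F Q : MvPolynomial (Fin 3) K) (e : K) (v : Fin 4 → K) : Prop :=
  ∀ (R : Type) [CommRing R] [Algebra K R] (x y z r t : R),
    ev F (x + t * algebraMap K R (v 0)) (y + t * algebraMap K R (v 1))
      (z + t * algebraMap K R (v 2)) - (r + t * algebraMap K R (v 3)) *
      ev Q (x + t * algebraMap K R (v 0)) (y + t * algebraMap K R (v 1))
        (z + t * algebraMap K R (v 2)) + algebraMap K R e * (r + t * algebraMap K R (v 3)) ^ 3 =
    ev F x y z - r * ev Q x y z + algebraMap K R e * r ^ 3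

/-! Statements to be proved (blocks) for the cubic type.

(G1) `cu_mem`: the cone over a cubic surface without vertex
theorem cu_mem [IsAlgClosed K] (h2 : (2 : K) ≠ 0) (hG : GOps K G) (F Q : MvPolynomial (Fin 3) K)
    (hF : F.IsHomogeneous 3) (hQ : Q.IsHomogeneous 2) (e : K) (he : e ≠ 0)
    (h : ∀ v : Fin 4 → K, v ≠ 0 → ¬ InvU F Q e v) : (CU F Q e).Mem G

(G2) `cu_inv`: the cone with a vertex (`p = 3` possible: then `F(x + t v) = F(x) + t Q(x) - e t ^ 3`
and the cone is `{F = 0} x A ^ 1`, which is constant)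
theorem cu_inv [IsAlgClosed K] (h2 : (2 : K) ≠ 0) (hG : GOps K G) {k : Type} [Field k] [Finite k]
    [Algebra k K] (hW : Cst k G) (F Q : MvPolynomial (Fin 3) k)
    (hF : F.IsHomogeneous 3) (hQ : Q.IsHomogeneous 2) (hF0 : F ≠ 0) (e : K) (he : e ≠ 0)
    (v : Fin 4 → K) (hv : v ≠ 0)
    (h : InvU (MvPolynomial.map (algebraMap k K) F) (MvPolynomial.map (algebraMap k K) Q) e v) :
    (CU (MvPolynomial.map (algebraMap k K) F) (MvPolynomial.map (algebraMap k K) Q) e).Mem G ∨
    ∃ u : Fin 3 → K, u ≠ 0 ∧ InvP (MvPolynomial.map (algebraMap k K) F) u ∧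
      InvP (MvPolynomial.map (algebraMap k K) Q) u

(G3) `fib3_ne`, `fib3_zero`: the fibres, `r = F / (Q v)`
theorem fib3_ne [IsAlgClosed K] (h2 : (2 : K) ≠ 0) (hG : GOps K G) {k : Type} [Field k] [Finite k]
    [Algebra k K] (hW : Cst k G) (F Q : MvPolynomial (Fin 3) k)
    (hF : F.IsHomogeneous 3) (hQ : Q.IsHomogeneous 2) (hF0 : F ≠ 0) (hQ0 : Q ≠ 0) (e : K)
    (he : e ≠ 0)
    (h : (CU (MvPolynomial.map (algebraMap k K) F) (MvPolynomial.map (algebraMap k K) Q) e).Mem G) :
    (FibT (MvPolynomial.map (algebraMap k K) (F ^ 2)) (MvPolynomial.map (algebraMap k K) (Q ^ 3))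
      (MvPolynomial.map (algebraMap k K) (F * Q)) 2 1 e).Mem G
theorem fib3_zero [IsAlgClosed K] (hG : GOps K G) {k : Type} [Field k] [Finite k]
    [Algebra k K] (hW : Cst k G) (F Q : MvPolynomial (Fin 3) k)
    (hF : F.IsHomogeneous 3) (hQ : Q.IsHomogeneous 2) (hF0 : F ≠ 0) (hQ0 : Q ≠ 0) :
    (FibT (MvPolynomial.map (algebraMap k K) (F ^ 2)) (MvPolynomial.map (algebraMap k K) (Q ^ 3))
      (MvPolynomial.map (algebraMap k K) (F * Q)) 2 1 0).Mem G

(G4) `desc`: a common invariant direction over the finite field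
theorem desc {k K : Type} [Field k] [Finite k] [Field K] [Algebra k K]
    (S : Set (MvPolynomial (Fin 3) k)) (v : Fin 3 → K) (hv : v ≠ 0)
    (h : ∀ F ∈ S, InvP (MvPolynomial.map (algebraMap k K) F) v) :
    ∃ u : Fin 3 → k, u ≠ 0 ∧ ∀ F ∈ S, InvP F u
-/

end Pool.Agent.Helper9.TP
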