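import Pool.Agent.Helper9.TP.Weights
import Pool.Agent.Helper9.TP.Conics
import Pool.Agent.Helper49.TP.Thm

/-!
# Fano trinomials: the assembly
-/

set_option autoImplicit false

namespace Pool.Agent.Helper9.TP

open Polynomial
open Pool.Agent.Helper29.CQ (FormalClass GOps)
open Pool.Agent.Helper29.PF (StableClass)
open Pool.Agent.Helper65.CC Pool.Agent.Helper65.CC.KFn
open Pool.Agent.Helper9.QP (Gen gen_insep Cst torus_rule)
open Pool.Agent.Helper67.CQ (ex_root)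
open Pool.Agent.Helper71.CP (ev ev_map)
open MvPolynomial (IsWeightedHomogeneous)

/-- the blocks -/
structure FanoBlocks : Prop where
  fibw_ne : ∀ {K : Type} [Field K] [IsAlgClosed K]
    {G : ∀ (R : Type) [CommRing R] [Algebra K R], Prop} (_ : GOps K G)
    {k : Type} [Field k] [Finite k] [Algebra k K], Cst k G →
    ∀ {w : Fin 3 → ℕ}, (∀ i, 0 < w i) → ∀ (F₀ F₁ F₂ : MvPolynomial (Fin 3) k) {d₀ d₁ d₂ γ : ℕ},
    IsWeightedHomogeneous w F₀ d₀ → IsWeightedHomogeneous w F₁ d₁ →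
    IsWeightedHomogeneous w F₂ d₂ → F₀ ≠ 0 → F₁ ≠ 0 → F₂ ≠ 0 → ∀ (s t : ℕ), 0 < s → 0 < t →
    s.Coprime t → 0 < γ → d₀ = d₁ + t * γ → d₀ = d₂ + (s + t) * γ → ∀ (c : K), c ≠ 0 →
    (TS (MvPolynomial.map (algebraMap k K) F₀) (MvPolynomial.map (algebraMap k K) F₁)
      (MvPolynomial.map (algebraMap k K) F₂) s t c).Mem G →
    (FibT (MvPolynomial.map (algebraMap k K) (F₀ ^ s * F₂ ^ t))
      (MvPolynomial.map (algebraMap k K) (F₁ ^ (s + t)))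
      (MvPolynomial.map (algebraMap k K) (F₀ * F₁ * F₂)) s t (c ^ t)).Mem G
  fibw_zero : ∀ {K : Type} [Field K] [IsAlgClosed K]
    {G : ∀ (R : Type) [CommRing R] [Algebra K R], Prop} (_ : GOps K G)
    {k : Type} [Field k] [Finite k] [Algebra k K], Cst k G →
    ∀ {w : Fin 3 → ℕ}, (∀ i, 0 < w i) → ∀ (F₀ F₁ F₂ : MvPolynomial (Fin 3) k) {d₀ d₁ d₂ : ℕ},
    IsWeightedHomogeneous w F₀ d₀ → IsWeightedHomogeneous w F₁ d₁ →
    IsWeightedHomogeneous w F₂ d₂ → F₀ ≠ 0 → F₁ ≠ 0 → F₂ ≠ 0 → ∀ (s t : ℕ), 0 < s → 0 < t →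
    (FibT (MvPolynomial.map (algebraMap k K) (F₀ ^ s * F₂ ^ t))
      (MvPolynomial.map (algebraMap k K) (F₁ ^ (s + t)))
      (MvPolynomial.map (algebraMap k K) (F₀ * F₁ * F₂)) s t 0).Mem G
  mem_one : ∀ {K : Type} [Field K] [IsAlgClosed K]
    {G : ∀ (R : Type) [CommRing R] [Algebra K R], Prop} (_ : (2 : K) ≠ 0) (_ : GOps K G)
    (_ : CstA G) {k : Type} [Field k] [Finite k] [Algebra k K]
    (F₀ F₁ F₂ : MvPolynomial (Fin 3) k) (s t : ℕ), 0 < s → 0 < t → s ≠ t → s + t ≤ 4 →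
    IsWeightedHomogeneous ![1, 2, 1] F₀ 4 → IsWeightedHomogeneous ![1, 2, 1] F₁ (4 - t) →
    IsWeightedHomogeneous ![1, 2, 1] F₂ (4 - (s + t)) →
    F₀.coeff (Finsupp.single 1 2) ≠ 0 → F₁ ≠ 0 → F₂ ≠ 0 → ∀ (c : K), c ≠ 0 →
    (TS (MvPolynomial.map (algebraMap k K) F₀) (MvPolynomial.map (algebraMap k K) F₁)
      (MvPolynomial.map (algebraMap k K) F₂) s t c).Mem G ∨
    ∃ τ : ChgW ![1, 2, 1] k, NoV 0 (MvPolynomial.aeval τ.fwd F₀) ∧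
      NoV 0 (MvPolynomial.aeval τ.fwd F₁) ∧ NoV 0 (MvPolynomial.aeval τ.fwd F₂)
  mem_three : ∀ {K : Type} [Field K] [IsAlgClosed K]
    {G : ∀ (R : Type) [CommRing R] [Algebra K R], Prop} (_ : (2 : K) ≠ 0) (_ : GOps K G)
    (_ : CstA G) {k : Type} [Field k] [Finite k] [Algebra k K]
    (F₀ F₁ F₂ : MvPolynomial (Fin 3) k),
    IsWeightedHomogeneous ![1, 3, 1] F₀ 6 → IsWeightedHomogeneous ![1, 3, 1] F₁ 4 →
    IsWeightedHomogeneous ![1, 3, 1] F₂ 0 →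
    F₀.coeff (Finsupp.single 1 2) ≠ 0 → F₁ ≠ 0 → F₂ ≠ 0 → ∀ (c : K), c ≠ 0 →
    (TS (MvPolynomial.map (algebraMap k K) F₀) (MvPolynomial.map (algebraMap k K) F₁)
      (MvPolynomial.map (algebraMap k K) F₂) 2 1 c).Mem G ∨
    ∃ τ : ChgW ![1, 3, 1] k, NoV 0 (MvPolynomial.aeval τ.fwd F₀) ∧
      NoV 0 (MvPolynomial.aeval τ.fwd F₁) ∧ NoV 0 (MvPolynomial.aeval τ.fwd F₂)
  mem_two : ∀ {K : Type} [Field K] [IsAlgClosed K]
    {G : ∀ (R : Type) [CommRing R] [Algebra K R], Prop} (_ : (2 : K) ≠ 0) (_ : GOps K G)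
    (_ : CstA G) {k : Type} [Field k] [Finite k] [Algebra k K]
    (F₀ F₁ F₂ : MvPolynomial (Fin 3) k) (s t : ℕ), 0 < s → 0 < t → s ≠ t → s + t ≤ 6 →
    IsWeightedHomogeneous ![2, 3, 1] F₀ 6 → IsWeightedHomogeneous ![2, 3, 1] F₁ (6 - t) →
    IsWeightedHomogeneous ![2, 3, 1] F₂ (6 - (s + t)) →
    F₀.coeff (Finsupp.single 0 3) ≠ 0 → F₀.coeff (Finsupp.single 1 2) ≠ 0 → F₁ ≠ 0 → F₂ ≠ 0 →
    ∀ (c : K), c ≠ 0 →
    (TS (MvPolynomial.map (algebraMap k K) F₀) (MvPolynomial.map (algebraMap k K) F₁)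
      (MvPolynomial.map (algebraMap k K) F₂) s t c).Mem G ∨
    ∃ τ : ChgW ![2, 3, 1] k, NoV 2 (MvPolynomial.aeval τ.fwd F₀) ∧
      NoV 2 (MvPolynomial.aeval τ.fwd F₁) ∧ NoV 2 (MvPolynomial.aeval τ.fwd F₂)
  qa_lin : ∀ {p : ℕ} {P : ∀ (A : Type) [CommRing A], Prop} {k : Type} [Field k] [Finite k]
    (_ : FormalClass p P) (_ : (p : k) = 0) {n : ℕ} (_ : n ≠ 0)
    (f₀ f₁ f₂ : MvPolynomial (Fin 2) k), (∀ m ∈ f₀.support, m 1 ≤ 1) →
    (∀ m ∈ f₁.support, m 1 ≤ 1) → (∀ m ∈ f₂.support, m 1 ≤ 1) → f₀ ≠ 0 → f₁ ≠ 0 → f₂ ≠ 0 →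
    ∀ (s t : ℕ), 0 < s → 0 < t →
    QA P n (f₀ ^ s * f₂ ^ t) (f₁ ^ (s + t)) ⊥ (f₀ * f₁ * f₂)
  qa_binw : ∀ {p : ℕ} {P : ∀ (A : Type) [CommRing A], Prop} {k : Type} [Field k] [Finite k]
    (_ : FormalClass p P) (_ : (p : k) = 0) {n : ℕ} (_ : n ≠ 0) {a b d e N : ℕ} (_ : 0 < a)
    (_ : 0 < b) {A B u : MvPolynomial (Fin 2) k}, Hom ![a, b] d A → Hom ![a, b] d B →
    Hom ![a, b] e u → B ∣ u ^ N → QA P n A B ⊥ u
  qa_chg : ∀ {p : ℕ} {P : ∀ (A : Type) [CommRing A], Prop} {k : Type} [Field k] [Finite k]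
    (_ : FormalClass p P) (_ : (p : k) = 0) {n : ℕ} (_ : n ≠ 0) {w : Fin 3 → ℕ}
    (_ : ∀ i, 0 < w i) {d e N : ℕ} {A B u : MvPolynomial (Fin 3) k},
    IsWeightedHomogeneous w A d → IsWeightedHomogeneous w B d → IsWeightedHomogeneous w u e →
    B ∣ u ^ N → ∀ (τ : ChgW w k) (i : Fin 3), NoV i (MvPolynomial.aeval τ.fwd A) →
    NoV i (MvPolynomial.aeval τ.fwd B) → NoV i (MvPolynomial.aeval τ.fwd u) → QA P n A B ⊥ u
  tame : ∀ {p : ℕ} {P : ∀ (A : Type) [CommRing A], Prop} {k : Type} [Field k] [Finite k]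
    [CharP k p] (_ : p.Prime) (_ : p ≠ 2) (_ : StableClass p P) {a b : ℕ} (_ : 0 < a + b)
    (f g : MvPolynomial (Fin 2) k), (∀ m ∈ f.support, a * m 0 + b * m 1 ≤ 2 * (a + b)) →
    (∀ m ∈ g.support, a * m 0 + b * m 1 ≤ a + b) → ∀ n : ℕ, 0 < n →
    P (Gen (MvPolynomial (Fin 2) k) n (g ^ 2) f)
  conics : ConicBlocks

variable {p : ℕ} {P : ∀ (A : Type) [CommRing A], Prop} {k : Type} [Field k]

theorem NoV.mul {i : Fin 3} {F G : MvPolynomial (Fin 3) k} (hF : NoV i F) (hG : NoV i G) :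
    NoV i (F * G) := by
  classical
  intro m hm
  have h1 := MvPolynomial.support_mul F G hm
  obtain ⟨a, ha, b, hb, rfl⟩ := Finset.mem_add.1 h1
  rw [Finsupp.add_apply, hF a ha, hG b hb]

theorem NoV.pow {i : Fin 3} {F : MvPolynomial (Fin 3) k} (hF : NoV i F) (n : ℕ) :
    NoV i (F ^ n) := by
  induction n with
  | zero =>
    intro m hm
    rw [pow_zero] at hm
    have h1 : (1 : MvPolynomial (Fin 3) k) = MvPolynomial.monomial 0 1 := rfl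
    rw [h1] at hm
    have h2 := MvPolynomial.support_monomial_subset hm
    rw [Finset.mem_singleton] at h2
    rw [h2]
    rfl
  | succ n ih =>
    rw [pow_succ]
    exact ih.mul hF

/-- the geometric types -/
theorem type_open (Bl : FanoBlocks) (hp : p.Prime) (hp2 : p ≠ 2) (hP : TriClass p P) [Finite k]
    [CharP k p] {n : ℕ} (hn : n ≠ 0) (hpn : ¬ p ∣ n) {a b : ℕ} (ha : 0 < a) (hb : 0 < b)
    {d₀ d₁ d₂ γ s t : ℕ} (hγ : 0 < γ) (hs : 0 < s) (ht : 0 < t) (hst : s.Coprime t)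
    (e₁ : d₀ = d₁ + t * γ) (e₂ : d₀ = d₂ + (s + t) * γ) (i : Fin 3)
    (F₀ F₁ F₂ : MvPolynomial (Fin 3) k) (h₀ : IsWeightedHomogeneous ![a, b, 1] F₀ d₀)
    (h₁ : IsWeightedHomogeneous ![a, b, 1] F₁ d₁) (h₂ : IsWeightedHomogeneous ![a, b, 1] F₂ d₂)
    (n₀ : F₀ ≠ 0) (n₁ : F₁ ≠ 0) (n₂ : F₂ ≠ 0)
    (hmem : ∀ (K : Type) [Field K] [IsAlgClosed K] [Algebra k K]
      (G : ∀ (R : Type) [CommRing R] [Algebra K R], Prop), (2 : K) ≠ 0 → GOps K G → CstA G →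
      ∀ c : K, c ≠ 0 →
      (TS (MvPolynomial.map (algebraMap k K) F₀) (MvPolynomial.map (algebraMap k K) F₁)
        (MvPolynomial.map (algebraMap k K) F₂) s t c).Mem G ∨
      ∃ τ : ChgW ![a, b, 1] k, NoV i (MvPolynomial.aeval τ.fwd F₀) ∧
        NoV i (MvPolynomial.aeval τ.fwd F₁) ∧ NoV i (MvPolynomial.aeval τ.fwd F₂)) :
    QA P n (de k F₀ ^ s * de k F₂ ^ t) (de k F₁ ^ (s + t)) ⊥
      (de k F₀ * de k F₁ * de k F₂) := by
  have hk : (p : k) = 0 := CharP.cast_eq_zero k p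
  have hP' := hP.toFormalClass
  have hw : ∀ i, 0 < (![a, b, 1] : Fin 3 → ℕ) i := by
    intro i
    fin_cases i
    · exact ha
    · exact hb
    · exact one_pos
  have hd : s * d₀ + t * d₂ = (s + t) * d₁ := by
    have h3 : d₁ = d₂ + s * γ := by
      have h4 := e₁.symm.trans e₂
      rw [add_mul] at h4
      omega
    rw [e₁, h3]
    ring
  have hA : IsWeightedHomogeneous ![a, b, 1] (F₀ ^ s * F₂ ^ t) ((s + t) * d₁) := by
    rw [← hd]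
    have := (h₀.pow s).mul (h₂.pow t)
    simpa using this
  have hB : IsWeightedHomogeneous ![a, b, 1] (F₁ ^ (s + t)) ((s + t) * d₁) := by
    have := h₁.pow (s + t)
    simpa using this
  have hu : IsWeightedHomogeneous ![a, b, 1] (F₀ * F₁ * F₂) (d₀ + d₁ + d₂) :=
    (h₀.mul h₁).mul h₂
  have hBu : F₁ ^ (s + t) ∣ (F₀ * F₁ * F₂) ^ (s + t) := by
    rw [mul_pow, mul_pow]
    exact Dvd.dvd.mul_right (Dvd.intro_left _ rfl) _
  have hAu : F₀ ^ s * F₂ ^ t ∣ (F₀ * F₁ * F₂) ^ (s + t) := by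
    rw [mul_pow, mul_pow, pow_add F₀, pow_add F₂]
    exact ⟨F₀ ^ t * F₁ ^ (s + t) * F₂ ^ s, by ring⟩
  have key : QA P n (F₀ ^ s * F₂ ^ t) (F₁ ^ (s + t)) ⊥ (F₀ * F₁ * F₂) := by
    by_cases hτ : ∃ τ : ChgW ![a, b, 1] k, NoV i (MvPolynomial.aeval τ.fwd F₀) ∧
        NoV i (MvPolynomial.aeval τ.fwd F₁) ∧ NoV i (MvPolynomial.aeval τ.fwd F₂)
    · obtain ⟨τ, t₀, t₁, t₂⟩ := hτ
      refine Bl.qa_chg hP' hk hn hw hA hB hu hBu τ i ?_ ?_ ?_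
      · rw [map_mul, map_pow, map_pow]
        exact (t₀.pow s).mul (t₂.pow t)
      · rw [map_pow]
        exact t₁.pow _
      · rw [map_mul, map_mul]
        exact (t₀.mul t₁).mul t₂
    · refine red_cone'' hp hP' (untwist_tri hP hpn hs ht) hBu hAu ?_
      intro K _ _ _ _ G hG hW e
      by_cases he : e = 0
      · rw [he]
        exact Bl.fibw_zero hG (hW k) hw F₀ F₁ F₂ h₀ h₁ h₂ n₀ n₁ n₂ s t hs ht
      obtain ⟨c, rfl⟩ := IsAlgClosed.exists_pow_nat_eq e ht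
      have hc : c ≠ 0 := by
        rintro rfl
        exact he (zero_pow ht.ne')
      refine Bl.fibw_ne hG (hW k) hw F₀ F₁ F₂ h₀ h₁ h₂ n₀ n₁ n₂ s t hs ht hst hγ e₁ e₂ c hc ?_
      exact (hmem K G (two_ne hp hp2) hG hW c hc).resolve_right hτ
  have hbin : QA P n (pr k (F₀ ^ s * F₂ ^ t)) (pr k (F₁ ^ (s + t))) ⊥ (pr k (F₀ * F₁ * F₂)) :=
    Bl.qa_binw hP' hk hn ha hb (Hom.of_wh hA).prw (Hom.of_wh hB).prw (Hom.of_wh hu).prw
      (pr_dvd hBu)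
  have := qa_affw hP' (fun A _ hA _ h => torus_rule hP.toStableClass A hA h) hk rfl
    (Hom.of_wh hA) (Hom.of_wh hB) (Hom.of_wh hu) hBu hbin key
  rwa [map_mul, map_pow, map_pow, map_pow, map_mul, map_mul] at this

theorem s12 : (Finsupp.equivFunOnFinite.symm ![0, 2, 0] : Fin 3 →₀ ℕ) = Finsupp.single 1 2 := by
  ext i
  fin_cases i <;> simp

theorem s03 : (Finsupp.equivFunOnFinite.symm ![3, 0, 0] : Fin 3 →₀ ℕ) = Finsupp.single 0 3 := by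
  ext i
  fin_cases i <;> simp

/-- type (I): the weights `1, 2; 1` -/
theorem one_open (Bl : FanoBlocks) (hp : p.Prime) (hp2 : p ≠ 2) (hP : TriClass p P) [Finite k]
    [CharP k p] {n : ℕ} (hn : n ≠ 0) (hpn : ¬ p ∣ n) {s t : ℕ} (hs : 0 < s) (ht : 0 < t)
    (hst : s.Coprime t) (hne : s ≠ t) (f₀ f₁ f₂ : MvPolynomial (Fin 2) k)
    (g₀ : ∀ m ∈ f₀.support, m 0 + 2 * m 1 ≤ 4) (g₁ : ∀ m ∈ f₁.support, m 0 + 2 * m 1 + t ≤ 4)
    (g₂ : ∀ m ∈ f₂.support, m 0 + 2 * m 1 + (s + t) ≤ 4) (n₀ : f₀ ≠ 0) (n₁ : f₁ ≠ 0)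
    (n₂ : f₂ ≠ 0) : QA P n (f₀ ^ s * f₂ ^ t) (f₁ ^ (s + t)) ⊥ (f₀ * f₁ * f₂) := by
  have hle : s + t ≤ 4 := by
    obtain ⟨m, hm⟩ := MvPolynomial.support_nonempty.2 n₂
    have := g₂ m hm
    omega
  by_cases hy : f₀.coeff (Finsupp.equivFunOnFinite.symm ![0, 2]) = 0
  · refine Bl.qa_lin hP.toFormalClass (CharP.cast_eq_zero k p) hn f₀ f₁ f₂ ?_ ?_ ?_ n₀ n₁ n₂ s t
      hs ht
    · intro m hm
      by_contra h
      have h1 := g₀ m hm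
      have h2 : m = Finsupp.equivFunOnFinite.symm ![0, 2] := by
        ext l
        fin_cases l
        · change m 0 = 0
          omega
        · change m 1 = 2
          omega
      rw [h2] at hm
      exact MvPolynomial.mem_support_iff.1 hm hy
    · intro m hm
      have := g₁ m hm
      omega
    · intro m hm
      have := g₂ m hm
      omega
  · obtain ⟨F₀, hF₀, rfl, c₀⟩ := exists_homw (a := 1) (b := 2) (d := 4) f₀
      (fun m hm => by have := g₀ m hm; omega)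
    obtain ⟨F₁, hF₁, rfl, -⟩ := exists_homw (a := 1) (b := 2) (d := 4 - t) f₁
      (fun m hm => by have := g₁ m hm; omega)
    obtain ⟨F₂, hF₂, rfl, -⟩ := exists_homw (a := 1) (b := 2) (d := 4 - (s + t)) f₂
      (fun m hm => by have := g₂ m hm; omega)
    have m₀ : F₀ ≠ 0 := fun h => n₀ (by rw [h, map_zero])
    have m₁ : F₁ ≠ 0 := fun h => n₁ (by rw [h, map_zero])
    have m₂ : F₂ ≠ 0 := fun h => n₂ (by rw [h, map_zero])
    refine type_open Bl hp hp2 hP hn hpn one_pos two_pos (γ := 1) one_pos hs ht hst (by omega)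
      (by omega) 0 F₀ F₁ F₂ hF₀ hF₁ hF₂ m₀ m₁ m₂ ?_
    intro K _ _ _ G h2 hG hW c hc
    refine Bl.mem_one h2 hG hW F₀ F₁ F₂ s t hs ht hne hle hF₀ hF₁ hF₂ ?_ m₁ m₂ c hc
    rw [← s12, c₀ 0 2 (by norm_num)]
    exact hy

/-- conics -/
theorem two_open (Bl : FanoBlocks) (hp : p.Prime) (hp2 : p ≠ 2) (hP : TriClass p P) [Finite k]
    [CharP k p] {n : ℕ} (hn : n ≠ 0) (hpn : ¬ p ∣ n) {s t : ℕ} (hs : 0 < s) (ht : 0 < t)
    (hst : s.Coprime t) (f₀ f₁ f₂ : MvPolynomial (Fin 2) k)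
    (g₀ : ∀ m ∈ f₀.support, m 0 + m 1 ≤ 2) (g₁ : ∀ m ∈ f₁.support, m 0 + m 1 ≤ 2)
    (g₂ : ∀ m ∈ f₂.support, m 0 + m 1 ≤ 2) (n₀ : f₀ ≠ 0) (n₁ : f₁ ≠ 0)
    (n₂ : f₂ ≠ 0) : QA P n (f₀ ^ s * f₂ ^ t) (f₁ ^ (s + t)) ⊥ (f₀ * f₁ * f₂) := by
  have hdeg : ∀ f : MvPolynomial (Fin 2) k, (∀ m ∈ f.support, m 0 + m 1 ≤ 2) →
      f.totalDegree ≤ 2 := by
    intro f hf
    refine Finset.sup_le fun m hm => ?_
    have h1 := hf m hm
    rw [Finsupp.sum_fintype _ _ (fun _ => rfl), Fin.sum_univ_two]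
    exact h1
  exact conics_open Bl.conics hp hp2 hP hn hpn f₀ f₁ f₂ (hdeg _ g₀) (hdeg _ g₁) (hdeg _ g₂)
    n₀ n₁ n₂ hs ht hst

/-- type (II): the weights `2, 3; 1` -/
theorem six_open (Bl : FanoBlocks) (hp : p.Prime) (hp2 : p ≠ 2) (hP : TriClass p P) [Finite k]
    [CharP k p] {n : ℕ} (hn : n ≠ 0) (hpn : ¬ p ∣ n) {s t : ℕ} (hs : 0 < s) (ht : 0 < t)
    (hst : s.Coprime t) (hne : s ≠ t) (f₀ f₁ f₂ : MvPolynomial (Fin 2) k)
    (g₀ : ∀ m ∈ f₀.support, 2 * m 0 + 3 * m 1 ≤ 6)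
    (g₁ : ∀ m ∈ f₁.support, 2 * m 0 + 3 * m 1 + t ≤ 6)
    (g₂ : ∀ m ∈ f₂.support, 2 * m 0 + 3 * m 1 + (s + t) ≤ 6) (n₀ : f₀ ≠ 0) (n₁ : f₁ ≠ 0)
    (n₂ : f₂ ≠ 0) : QA P n (f₀ ^ s * f₂ ^ t) (f₁ ^ (s + t)) ⊥ (f₀ * f₁ * f₂) := by
  have hle : s + t ≤ 6 := by
    obtain ⟨m, hm⟩ := MvPolynomial.support_nonempty.2 n₂
    have := g₂ m hm
    omega
  by_cases hy : f₀.coeff (Finsupp.equivFunOnFinite.symm ![0, 2]) = 0
  · refine Bl.qa_lin hP.toFormalClass (CharP.cast_eq_zero k p) hn f₀ f₁ f₂ ?_ ?_ ?_ n₀ n₁ n₂ s t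
      hs ht
    · intro m hm
      by_contra h
      have h1 := g₀ m hm
      have h2 : m = Finsupp.equivFunOnFinite.symm ![0, 2] := by
        ext l
        fin_cases l
        · change m 0 = 0
          omega
        · change m 1 = 2
          omega
      rw [h2] at hm
      exact MvPolynomial.mem_support_iff.1 hm hy
    · intro m hm
      have := g₁ m hm
      omega
    · intro m hm
      have := g₂ m hm
      omega
  by_cases hx : f₀.coeff (Finsupp.equivFunOnFinite.symm ![3, 0]) = 0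
  · refine two_open Bl hp hp2 hP hn hpn hs ht hst f₀ f₁ f₂ ?_ ?_ ?_ n₀ n₁ n₂
    · intro m hm
      by_contra h
      have h1 := g₀ m hm
      have h2 : m = Finsupp.equivFunOnFinite.symm ![3, 0] := by
        ext l
        fin_cases l
        · change m 0 = 3
          omega
        · change m 1 = 0
          omega
      rw [h2] at hm
      exact MvPolynomial.mem_support_iff.1 hm hx
    · intro m hm
      have := g₁ m hm
      omega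
    · intro m hm
      have := g₂ m hm
      omega
  · obtain ⟨F₀, hF₀, rfl, c₀⟩ := exists_homw (a := 2) (b := 3) (d := 6) f₀ g₀
    obtain ⟨F₁, hF₁, rfl, -⟩ := exists_homw (a := 2) (b := 3) (d := 6 - t) f₁
      (fun m hm => by have := g₁ m hm; omega)
    obtain ⟨F₂, hF₂, rfl, -⟩ := exists_homw (a := 2) (b := 3) (d := 6 - (s + t)) f₂
      (fun m hm => by have := g₂ m hm; omega)
    have m₀ : F₀ ≠ 0 := fun h => n₀ (by rw [h, map_zero])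
    have m₁ : F₁ ≠ 0 := fun h => n₁ (by rw [h, map_zero])
    have m₂ : F₂ ≠ 0 := fun h => n₂ (by rw [h, map_zero])
    refine type_open Bl hp hp2 hP hn hpn two_pos three_pos (γ := 1) one_pos hs ht hst (by omega)
      (by omega) 2 F₀ F₁ F₂ hF₀ hF₁ hF₂ m₀ m₁ m₂ ?_
    intro K _ _ _ G h2 hG hW c hc
    refine Bl.mem_two h2 hG hW F₀ F₁ F₂ s t hs ht hne hle hF₀ hF₁ hF₂ ?_ ?_ m₁ m₂ c hc
    · rw [← s03, c₀ 3 0 (by norm_num)]
      exact hx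
    · rw [← s12, c₀ 0 2 (by norm_num)]
      exact hy

/-- from the case `s = t = 1`: `a = f f₁ / (f₁ ^ 2) ^ 2` -/
theorem tame_open (Bl : FanoBlocks) (hp : p.Prime) (hp2 : p ≠ 2) (hP : TriClass p P) [Finite k]
    [CharP k p] {n : ℕ} (hn : n ≠ 0) {a b : ℕ} (hab : 0 < a + b)
    (f₀ f₁ f₂ : MvPolynomial (Fin 2) k)
    (g : ∀ m ∈ (f₀ * f₂ ^ 2 * f₁).support, a * m 0 + b * m 1 ≤ 2 * (a + b))
    (g' : ∀ m ∈ (f₁ ^ 2).support, a * m 0 + b * m 1 ≤ a + b) (n₀ : f₀ ≠ 0) (n₁ : f₁ ≠ 0)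
    (n₂ : f₂ ≠ 0) : QA P n (f₀ ^ 1 * f₂ ^ 2) (f₁ ^ (1 + 2)) ⊥ (f₀ * f₁ * f₂) := by
  refine qa_mul (l := f₁) (N := 1) ?_ ?_
  · rw [pow_one, mul_comm f₀, mul_assoc]
    exact Dvd.intro _ rfl
  · have h1 := Bl.tame hp hp2 hP.toStableClass hab _ _ g g' n (Nat.pos_of_ne_zero hn)
    refine qa_of_gen hP.toFormalClass (CharP.cast_eq_zero k p) hn ?_ ?_ ?_ (N := 4) ?_ ?_
    · exact mul_ne_zero (mul_ne_zero (pow_ne_zero _ n₀) (pow_ne_zero _ n₂)) n₁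
    · exact mul_ne_zero (pow_ne_zero _ n₁) n₁
    · exact mul_ne_zero (mul_ne_zero n₀ n₁) n₂
    · rw [← pow_succ, mul_pow, mul_pow]
      exact Dvd.dvd.mul_right (Dvd.intro_left _ rfl) _
    · have e1 : f₁ ^ (1 + 2) * f₁ = (f₁ ^ 2) ^ 2 := by ring
      rw [e1, pow_one]
      exact h1

/-- supports of products -/
theorem supp_prod (a b : ℕ) {f g : MvPolynomial (Fin 2) k} {d e : ℕ}
    (hf : ∀ m ∈ f.support, a * m 0 + b * m 1 ≤ d) (hg : ∀ m ∈ g.support, a * m 0 + b * m 1 ≤ e) :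
    ∀ m ∈ (f * g).support, a * m 0 + b * m 1 ≤ d + e := by
  classical
  intro m hm
  have h1 := MvPolynomial.support_mul f g hm
  obtain ⟨x, hx, y, hy, rfl⟩ := Finset.mem_add.1 h1
  have h2 := hf x hx
  have h3 := hg y hy
  rw [Finsupp.add_apply, Finsupp.add_apply]
  nlinarith

end Pool.Agent.Helper9.TP
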