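import Pool.Agent.Helper49.TP.Thm
import Pool.Agent.Helper29.PF.Fermat
import Pool.Agent.Helper29.PF.PencilQ

/-!
# Pencils of cubic curves and Fermat sums
-/

set_option autoImplicit false

namespace Pool.Agent.Helper9.TP

open Pool.Agent.Helper29.PF (fermat_tower plane_closed)

variable {p : ℕ} {P : ∀ (A : Type) [CommRing A], Prop} {k : Type} [Field k]

/-- **Fermat sums over the plane with a double cubic curve and a triple conic.** -/
theorem cubic_sums (hp : p.Prime) (hp2 : p ≠ 2) (hP : TriClass p P) [Finite k] [CharP k p]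
    (f g : MvPolynomial (Fin 2) k) (hf : f.totalDegree ≤ 3) (hg : g.totalDegree ≤ 2) {m : ℕ}
    (c : Fin m → k) (n : Fin m → ℕ) (hn : ∀ i, 0 < n i) :
    P (MvPolynomial (Fin m) (MvPolynomial (Fin 2) k) ⧸ Ideal.span {MvPolynomial.C (g ^ 3) *
      (∑ i, MvPolynomial.C (MvPolynomial.C (c i)) * MvPolynomial.X i ^ n i) -
        MvPolynomial.C (f ^ 2)}) := by
  have hk : (p : k) = 0 := CharP.cast_eq_zero k p
  exact fermat_tower hp hP.toFormalClass inferInstance
    (fun n hn => Pool.Agent.Helper49.TP.cubic_pencils hp hp2 hP f g hf hg n hn)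
    (plane_closed hP.toFormalClass hk _) (plane_closed hP.toFormalClass hk _) c hn

end Pool.Agent.Helper9.TP
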