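import Pool.Agent.Helper9.TP.Fano
import Pool.Agent.Helper9.TP.Sums

/-!
# Fano trinomials: the arithmetic of the weights and the theorem
-/

set_option autoImplicit false

namespace Pool.Agent.Helper9.TP

open Polynomial
open Pool.Agent.Helper29.CQ (FormalClass GOps)
open Pool.Agent.Helper29.PF (StableClass fermat_tower plane_closed)
open Pool.Agent.Helper9.QP (Gen)

/-! ### The arithmetic of the weights -/

theorem not_big {a x K : ℕ} (h : a * x < a * (K + 1)) : x ≤ K :=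
  Nat.lt_succ_iff.1 (lt_of_mul_lt_mul_left h (Nat.zero_le a))

/-- type (I) -/
theorem bound_one {a b i j e : ℕ} (ha : 0 < a) (hab : a < b) (hb : b ≤ a + a)
    (h : a * i + b * j + e * a ≤ a + b + a) : i + 2 * j + e ≤ 4 := by
  have h1 : a * (i + e) = a * i + e * a := by ring
  have hj : j ≤ 2 := by
    apply not_big (a := b)
    omega
  interval_cases j
  · have : i + e ≤ 4 := by
      apply not_big (a := a)
      omega
    omega
  · have : i + e ≤ 2 := by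
      apply not_big (a := a)
      omega
    omega
  · have : i + e ≤ 0 := by
      apply not_big (a := a)
      omega
    omega

/-- type (II) -/
theorem bound_six {a b c i j e : ℕ} (hc : c < a) (h1 : 2 * a ≤ b + c) (hb : b ≤ a + c)
    (h : a * i + b * j + e * c ≤ a + b + c) : 2 * i + 3 * j + e ≤ 6 := by
  have h0 : e * c = c * e := mul_comm _ _
  rw [h0] at h
  have hj : j ≤ 2 := by
    apply not_big (a := b)
    omega
  have hi : i ≤ 3 := by
    apply not_big (a := a)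
    omega
  have he : ∀ K, c * e < c * (K + 1) → e ≤ K := fun K hK => not_big hK
  interval_cases j <;> interval_cases i
  · have := he 6 (by omega)
    omega
  · have := he 4 (by omega)
    omega
  · have := he 2 (by omega)
    omega
  · have := he 0 (by omega)
    omega
  · have := he 3 (by omega)
    omega
  · have := he 1 (by omega)
    omega
  · exfalso
    omega
  · exfalso
    omega
  · have := he 0 (by omega)
    omega
  · exfalso
    omega
  · exfalso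
    omega
  · exfalso
    omega

/-- type (III) -/
theorem bound_three {a b c i j e : ℕ} (hc : a < c) (h2 : 2 * c ≤ a + b) (hb : b ≤ a + c)
    (h : a * i + b * j + e * c ≤ a + b + c) : i + 3 * j + 2 * e ≤ 6 := by
  have h0 : e * c = c * e := mul_comm _ _
  rw [h0] at h
  have hj : j ≤ 2 := by
    apply not_big (a := b)
    omega
  have he : e ≤ 3 := by
    apply not_big (a := c)
    omega
  have hi : ∀ K, a * i < a * (K + 1) → i ≤ K := fun K hK => not_big hK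
  interval_cases j <;> interval_cases e
  · have := hi 6 (by omega)
    omega
  · have := hi 4 (by omega)
    omega
  · have := hi 2 (by omega)
    omega
  · have := hi 0 (by omega)
    omega
  · have := hi 3 (by omega)
    omega
  · have := hi 1 (by omega)
    omega
  · exfalso
    omega
  · exfalso
    omega
  · have := hi 0 (by omega)
    omega
  · exfalso
    omega
  · exfalso
    omega
  · exfalso
    omega

variable {p : ℕ} {P : ∀ (A : Type) [CommRing A], Prop} {k : Type} [Field k]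

/-- type (III): the weights `1, 3; 2` -/
theorem three_open (Bl : FanoBlocks) (hp : p.Prime) (hp2 : p ≠ 2) (hP : TriClass p P) [Finite k]
    [CharP k p] {n : ℕ} (hn : n ≠ 0) (hpn : ¬ p ∣ n) (f₀ f₁ f₂ : MvPolynomial (Fin 2) k)
    (g₀ : ∀ m ∈ f₀.support, m 0 + 3 * m 1 ≤ 6) (g₁ : ∀ m ∈ f₁.support, m 0 + 3 * m 1 ≤ 4)
    (g₂ : ∀ m ∈ f₂.support, m 0 + 3 * m 1 ≤ 0) (n₀ : f₀ ≠ 0) (n₁ : f₁ ≠ 0)
    (n₂ : f₂ ≠ 0) : QA P n (f₀ ^ 2 * f₂ ^ 1) (f₁ ^ (2 + 1)) ⊥ (f₀ * f₁ * f₂) := by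
  by_cases hy : f₀.coeff (Finsupp.equivFunOnFinite.symm ![0, 2]) = 0
  · refine Bl.qa_lin hP.toFormalClass (CharP.cast_eq_zero k p) hn f₀ f₁ f₂ ?_ ?_ ?_ n₀ n₁ n₂ 2 1
      two_pos one_pos
    · intro m hm
      by_contra h
      have h1 := g₀ m hm
      have h2 : m = Finsupp.equivFunOnFinite.symm ![0, 2] := by
        ext l
        fin_cases l
        · change m 0 = 0
          omega
        · change m 1 = 2
          omega
      rw [h2] at hm
      exact MvPolynomial.mem_support_iff.1 hm hy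
    · intro m hm
      have := g₁ m hm
      omega
    · intro m hm
      have := g₂ m hm
      omega
  · obtain ⟨F₀, hF₀, rfl, c₀⟩ := exists_homw (a := 1) (b := 3) (d := 6) f₀
      (fun m hm => by have := g₀ m hm; omega)
    obtain ⟨F₁, hF₁, rfl, -⟩ := exists_homw (a := 1) (b := 3) (d := 4) f₁
      (fun m hm => by have := g₁ m hm; omega)
    obtain ⟨F₂, hF₂, rfl, -⟩ := exists_homw (a := 1) (b := 3) (d := 0) f₂
      (fun m hm => by have := g₂ m hm; omega)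
    have m₀ : F₀ ≠ 0 := fun h => n₀ (by rw [h, map_zero])
    have m₁ : F₁ ≠ 0 := fun h => n₁ (by rw [h, map_zero])
    have m₂ : F₂ ≠ 0 := fun h => n₂ (by rw [h, map_zero])
    refine type_open Bl hp hp2 hP hn hpn one_pos three_pos (γ := 2) two_pos two_pos one_pos
      (by norm_num) (by norm_num) (by norm_num) 0 F₀ F₁ F₂ hF₀ hF₁ hF₂ m₀ m₁ m₂ ?_
    intro K _ _ _ G h2 hG hW c hc
    refine Bl.mem_three h2 hG hW F₀ F₁ F₂ hF₀ hF₁ hF₂ ?_ m₁ m₂ c hc
    rw [← s12, c₀ 0 2 (by norm_num)]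
    exact hy

/-- cubic curves -/
theorem cub_open (hp : p.Prime) (hp2 : p ≠ 2) (hP : TriClass p P) [Finite k]
    [CharP k p] {n : ℕ} (hn : n ≠ 0) (hpn : ¬ p ∣ n) (f₀ f₁ f₂ : MvPolynomial (Fin 2) k)
    (g₀ : ∀ m ∈ f₀.support, m 0 + m 1 ≤ 3) (g₁ : ∀ m ∈ f₁.support, m 0 + m 1 ≤ 2)
    (g₂ : ∀ m ∈ f₂.support, m 0 + m 1 ≤ 0) (n₀ : f₀ ≠ 0) (n₁ : f₁ ≠ 0)
    (n₂ : f₂ ≠ 0) : QA P n (f₀ ^ 2 * f₂ ^ 1) (f₁ ^ (2 + 1)) ⊥ (f₀ * f₁ * f₂) := by
  have hdeg : ∀ (f : MvPolynomial (Fin 2) k) (d : ℕ), (∀ m ∈ f.support, m 0 + m 1 ≤ d) →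
      f.totalDegree ≤ d := by
    intro f d hf
    refine Finset.sup_le fun m hm => ?_
    have h1 := hf m hm
    rw [Finsupp.sum_fintype _ _ (fun _ => rfl), Fin.sum_univ_two]
    exact h1
  obtain ⟨κ, rfl⟩ : ∃ κ : k, f₂ = MvPolynomial.C κ :=
    ⟨_, MvPolynomial.totalDegree_eq_zero_iff_eq_C.1 (Nat.le_zero.1 (hdeg f₂ 0 g₂))⟩
  have hκ : κ ≠ 0 := by
    rintro rfl
    exact n₂ (map_zero _)
  have hu : ∀ r : k, r ≠ 0 → IsUnit (MvPolynomial.C r : MvPolynomial (Fin 2) k) := fun r hr =>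
    (isUnit_iff_ne_zero.2 hr).map MvPolynomial.C
  have hdC : ∀ (r : k) (f : MvPolynomial (Fin 2) k) (d : ℕ), f.totalDegree ≤ d →
      (MvPolynomial.C r * f).totalDegree ≤ d := by
    intro r f d hf
    refine (MvPolynomial.totalDegree_mul _ _).trans ?_
    rw [MvPolynomial.totalDegree_C, zero_add]
    exact hf
  have h1 := Pool.Agent.Helper9.TP.cubic_open Pool.Agent.Helper49.TP.cubicBlocks hp hp2 hP hn hpn
    (MvPolynomial.C (κ ^ 2) * f₀) (MvPolynomial.C κ * f₁) (hdC _ _ _ (hdeg f₀ 3 g₀))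
    (hdC _ _ _ (hdeg f₁ 2 g₁)) (mul_ne_zero (hu _ (pow_ne_zero 2 hκ)).ne_zero n₀)
    (mul_ne_zero (hu _ hκ).ne_zero n₁)
  refine qa_mul (l := MvPolynomial.C (κ ^ 3)) (N := 0) ?_ ?_
  · exact (hu _ (pow_ne_zero 3 hκ)).dvd
  · have e1 : f₀ ^ 2 * MvPolynomial.C κ ^ 1 * MvPolynomial.C (κ ^ 3) =
        (MvPolynomial.C (κ ^ 2) * f₀) ^ 2 := by
      rw [map_pow, map_pow]
      ring
    have e2 : f₁ ^ (2 + 1) * MvPolynomial.C (κ ^ 3) = (MvPolynomial.C κ * f₁) ^ 3 := by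
      rw [map_pow]
      ring
    rw [e1, e2]
    refine qa_congr (N := 1) (M := 1) ?_ ?_ h1
    · rw [pow_one]
      have h3 := hu (κ ^ 2) (pow_ne_zero 2 hκ)
      have e3 : MvPolynomial.C (κ ^ 2) * f₀ * (MvPolynomial.C κ * f₁) =
          f₀ * f₁ * MvPolynomial.C κ * MvPolynomial.C (κ ^ 2) := by ring
      rw [e3]
      exact (h3.mul_right_dvd).2 dvd_rfl
    · rw [pow_one]
      have e3 : MvPolynomial.C (κ ^ 2) * f₀ * (MvPolynomial.C κ * f₁) =
          f₀ * f₁ * MvPolynomial.C κ * MvPolynomial.C (κ ^ 2) := by ring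
      rw [e3]
      exact Dvd.intro _ rfl

/-- **the open part**, `a ≤ b` -/
theorem fano_le (Bl : FanoBlocks) (hp : p.Prime) (hp2 : p ≠ 2) (hP : TriClass p P) [Finite k]
    [CharP k p] {n : ℕ} (hn : n ≠ 0) (hpn : ¬ p ∣ n) {a b c s t : ℕ} (hab : a ≤ b)
    (habc : 0 < a + b + c) (hs : 0 < s) (ht : 0 < t) (hst : s.Coprime t) (hne : s ≠ t)
    (f₀ f₁ f₂ : MvPolynomial (Fin 2) k)
    (g₀ : ∀ m ∈ f₀.support, a * m 0 + b * m 1 ≤ a + b + c)
    (g₁ : ∀ m ∈ f₁.support, a * m 0 + b * m 1 + t * c ≤ a + b + c)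
    (g₂ : ∀ m ∈ f₂.support, a * m 0 + b * m 1 + (s + t) * c ≤ a + b + c) (n₀ : f₀ ≠ 0)
    (n₁ : f₁ ≠ 0) (n₂ : f₂ ≠ 0) :
    QA P n (f₀ ^ s * f₂ ^ t) (f₁ ^ (s + t)) ⊥ (f₀ * f₁ * f₂) := by
  have h3 : 3 ≤ s + t := by omega
  have h2c : 2 * c ≤ a + b := by
    obtain ⟨m, hm⟩ := MvPolynomial.support_nonempty.2 n₂
    have h4 := g₂ m hm
    have h5 : 3 * c ≤ (s + t) * c := Nat.mul_le_mul_right c h3
    omega
  have g₁' : ∀ m ∈ f₁.support, a * m 0 + b * m 1 ≤ a + b + c := fun m hm =>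
    (Nat.le_add_right _ _).trans (g₁ m hm)
  have g₂' : ∀ m ∈ f₂.support, a * m 0 + b * m 1 ≤ a + b + c := fun m hm =>
    (Nat.le_add_right _ _).trans (g₂ m hm)
  by_cases h1 : a + c < b
  · have key : ∀ f : MvPolynomial (Fin 2) k, (∀ m ∈ f.support, a * m 0 + b * m 1 ≤ a + b + c) →
        ∀ m ∈ f.support, m 1 ≤ 1 := by
      intro f hf m hm
      have h4 := hf m hm
      apply not_big (a := b)
      omega
    exact Bl.qa_lin hP.toFormalClass (CharP.cast_eq_zero k p) hn f₀ f₁ f₂ (key f₀ g₀)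
      (key f₁ g₁') (key f₂ g₂') n₀ n₁ n₂ s t hs ht
  push Not at h1
  have ha : 0 < a := by
    by_contra h
    omega
  by_cases h2 : a = b ∧ b = c
  · obtain ⟨rfl, rfl⟩ := h2
    have key : ∀ {i j e : ℕ}, a * i + a * j + e * a ≤ a + a + a → i + j + e ≤ 3 := by
      intro i j e h
      apply not_big (a := a)
      have h5 : a * (i + j + e) = a * i + a * j + e * a := by ring
      omega
    have hst3 : s + t = 3 := by
      obtain ⟨m, hm⟩ := MvPolynomial.support_nonempty.2 n₂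
      have h4 := key (g₂ m hm)
      omega
    have k₀ : ∀ m ∈ f₀.support, m 0 + m 1 ≤ 3 := fun m hm => by
      have h4 := key (i := m 0) (j := m 1) (e := 0) (by have := g₀ m hm; omega)
      omega
    have k₁ : ∀ m ∈ f₁.support, m 0 + m 1 + t ≤ 3 := fun m hm => key (g₁ m hm)
    have k₂ : ∀ m ∈ f₂.support, m 0 + m 1 + (s + t) ≤ 3 := fun m hm => key (g₂ m hm)
    rcases (show (s = 2 ∧ t = 1) ∨ (s = 1 ∧ t = 2) by omega) with ⟨rfl, rfl⟩ | ⟨rfl, rfl⟩
    · exact cub_open hp hp2 hP hn hpn f₀ f₁ f₂ k₀ (fun m hm => by have := k₁ m hm; omega)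
        (fun m hm => by have := k₂ m hm; omega) n₀ n₁ n₂
    · have l₀ : ∀ m ∈ f₀.support, 1 * m 0 + 1 * m 1 ≤ 3 := fun m hm => by
        have := k₀ m hm; omega
      have l₁ : ∀ m ∈ f₁.support, 1 * m 0 + 1 * m 1 ≤ 1 := fun m hm => by
        have := k₁ m hm; omega
      have l₂ : ∀ m ∈ f₂.support, 1 * m 0 + 1 * m 1 ≤ 0 := fun m hm => by
        have := k₂ m hm; omega
      have l₂₂ := supp_prod 1 1 l₂ l₂
      have l₁₁ := supp_prod 1 1 l₁ l₁
      rw [← sq] at l₂₂ l₁₁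
      have l₃ := supp_prod 1 1 (supp_prod 1 1 l₀ l₂₂) l₁
      exact tame_open Bl hp hp2 hP hn (a := 1) (b := 1) (by norm_num) f₀ f₁ f₂
        (fun m hm => (l₃ m hm).trans (by norm_num)) (fun m hm => (l₁₁ m hm).trans (by norm_num))
        n₀ n₁ n₂
  by_cases h4 : b + c < 2 * a
  · have key : ∀ f : MvPolynomial (Fin 2) k, (∀ m ∈ f.support, a * m 0 + b * m 1 ≤ a + b + c) →
        ∀ m ∈ f.support, m 0 + m 1 ≤ 2 := by
      intro f hf m hm
      have h5 := hf m hm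
      apply not_big (a := a)
      have h6 : a * (m 0 + m 1) = a * m 0 + a * m 1 := by ring
      have h7 : a * m 1 ≤ b * m 1 := Nat.mul_le_mul_right _ hab
      omega
    exact two_open Bl hp hp2 hP hn hpn hs ht hst f₀ f₁ f₂ (key f₀ g₀) (key f₁ g₁') (key f₂ g₂')
      n₀ n₁ n₂
  push Not at h4
  rcases lt_trichotomy c a with hca | rfl | hac
  · refine six_open Bl hp hp2 hP hn hpn hs ht hst hne f₀ f₁ f₂ ?_ ?_ ?_ n₀ n₁ n₂
    · intro m hm
      have := bound_six (i := m 0) (j := m 1) (e := 0) hca h4 h1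
        (by have := g₀ m hm; omega)
      omega
    · exact fun m hm => bound_six hca h4 h1 (g₁ m hm)
    · exact fun m hm => bound_six hca h4 h1 (g₂ m hm)
  · have hlt : c < b := by
      rcases hab.eq_or_lt with h | h
      · exact absurd ⟨h, h.symm⟩ h2
      · exact h
    refine one_open Bl hp hp2 hP hn hpn hs ht hst hne f₀ f₁ f₂ ?_ ?_ ?_ n₀ n₁ n₂
    · intro m hm
      have := bound_one (i := m 0) (j := m 1) (e := 0) ha hlt h1
        (by have := g₀ m hm; omega)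
      omega
    · exact fun m hm => bound_one ha hlt h1 (g₁ m hm)
    · exact fun m hm => bound_one ha hlt h1 (g₂ m hm)
  · have k₀ : ∀ m ∈ f₀.support, m 0 + 3 * m 1 ≤ 6 := fun m hm => by
      have := bound_three (i := m 0) (j := m 1) (e := 0) hac h2c h1
        (by have := g₀ m hm; omega)
      omega
    have k₁ : ∀ m ∈ f₁.support, m 0 + 3 * m 1 + 2 * t ≤ 6 := fun m hm =>
      bound_three hac h2c h1 (g₁ m hm)
    have k₂ : ∀ m ∈ f₂.support, m 0 + 3 * m 1 + 2 * (s + t) ≤ 6 := fun m hm =>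
      bound_three hac h2c h1 (g₂ m hm)
    have hst3 : s + t = 3 := by
      obtain ⟨m, hm⟩ := MvPolynomial.support_nonempty.2 n₂
      have h4 := k₂ m hm
      omega
    rcases (show (s = 2 ∧ t = 1) ∨ (s = 1 ∧ t = 2) by omega) with ⟨rfl, rfl⟩ | ⟨rfl, rfl⟩
    · exact three_open Bl hp hp2 hP hn hpn f₀ f₁ f₂ k₀ (fun m hm => by have := k₁ m hm; omega)
        (fun m hm => by have := k₂ m hm; omega) n₀ n₁ n₂
    · have l₀ : ∀ m ∈ f₀.support, 1 * m 0 + 3 * m 1 ≤ 6 := fun m hm => by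
        have := k₀ m hm; omega
      have l₁ : ∀ m ∈ f₁.support, 1 * m 0 + 3 * m 1 ≤ 2 := fun m hm => by
        have := k₁ m hm; omega
      have l₂ : ∀ m ∈ f₂.support, 1 * m 0 + 3 * m 1 ≤ 0 := fun m hm => by
        have := k₂ m hm; omega
      have l₂₂ := supp_prod 1 3 l₂ l₂
      have l₁₁ := supp_prod 1 3 l₁ l₁
      rw [← sq] at l₂₂ l₁₁
      have l₃ := supp_prod 1 3 (supp_prod 1 3 l₀ l₂₂) l₁
      exact tame_open Bl hp hp2 hP hn (a := 1) (b := 3) (by norm_num) f₀ f₁ f₂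
        (fun m hm => (l₃ m hm).trans (by norm_num)) (fun m hm => (l₁₁ m hm).trans (by norm_num))
        n₀ n₁ n₂

/-- **the open part** -/
theorem fano_open (Bl : FanoBlocks) (hp : p.Prime) (hp2 : p ≠ 2) (hP : TriClass p P) [Finite k]
    [CharP k p] {n : ℕ} (hn : n ≠ 0) (hpn : ¬ p ∣ n) {a b c s t : ℕ}
    (habc : 0 < a + b + c) (hs : 0 < s) (ht : 0 < t) (hst : s.Coprime t) (hne : s ≠ t)
    (f₀ f₁ f₂ : MvPolynomial (Fin 2) k)
    (g₀ : ∀ m ∈ f₀.support, a * m 0 + b * m 1 ≤ a + b + c)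
    (g₁ : ∀ m ∈ f₁.support, a * m 0 + b * m 1 + t * c ≤ a + b + c)
    (g₂ : ∀ m ∈ f₂.support, a * m 0 + b * m 1 + (s + t) * c ≤ a + b + c) (n₀ : f₀ ≠ 0)
    (n₁ : f₁ ≠ 0) (n₂ : f₂ ≠ 0) :
    QA P n (f₀ ^ s * f₂ ^ t) (f₁ ^ (s + t)) ⊥ (f₀ * f₁ * f₂) := by
  rcases le_total a b with hab | hab
  · exact fano_le Bl hp hp2 hP hn hpn hab habc hs ht hst hne f₀ f₁ f₂ g₀ g₁ g₂ n₀ n₁ n₂
  · apply qa_swap
    have hi := MvPolynomial.rename_injective (R := k) _ (Equiv.injective (Equiv.swap (0 : Fin 2) 1))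
    rw [map_mul, map_pow, map_pow, map_pow, map_mul, map_mul]
    refine fano_le Bl hp hp2 hP hn hpn (a := b) (b := a) (c := c) hab (by omega) hs ht hst hne
      _ _ _ ?_ ?_ ?_
      (fun h => n₀ (hi (by rw [h, map_zero]))) (fun h => n₁ (hi (by rw [h, map_zero])))
      (fun h => n₂ (hi (by rw [h, map_zero])))
    · intro m hm
      obtain ⟨m', hm', e0, e1⟩ := supp_swap hm
      have := g₀ m' hm'
      rw [← e0, ← e1]
      omega
    · intro m hm
      obtain ⟨m', hm', e0, e1⟩ := supp_swap hm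
      have := g₁ m' hm'
      rw [← e0, ← e1]
      omega
    · intro m hm
      obtain ⟨m', hm', e0, e1⟩ := supp_swap hm
      have := g₂ m' hm'
      rw [← e0, ← e1]
      omega

/-- **Fano trinomials**: `f₁ ^ (s + t) w ^ n = f₀ ^ s f₂ ^ t`, where
`f₀ - r ^ t f₁ + r ^ (s + t) f₂` has at most the weight `a + b + c` for the weights `a, b, c` of
`x, y, r`. -/
theorem fano_gen (Bl : FanoBlocks) (hp : p.Prime) (hp2 : p ≠ 2) (hP : TriClass p P) [Finite k]
    [CharP k p] {a b c s t : ℕ} (habc : 0 < a + b + c) (hs : 0 < s) (ht : 0 < t)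
    (hst : s.Coprime t) (f₀ f₁ f₂ : MvPolynomial (Fin 2) k)
    (g₀ : ∀ m ∈ f₀.support, a * m 0 + b * m 1 ≤ a + b + c)
    (g₁ : ∀ m ∈ f₁.support, a * m 0 + b * m 1 + t * c ≤ a + b + c)
    (g₂ : ∀ m ∈ f₂.support, a * m 0 + b * m 1 + (s + t) * c ≤ a + b + c) (n : ℕ) (hn : 0 < n) :
    P (Gen (MvPolynomial (Fin 2) k) n (f₁ ^ (s + t)) (f₀ ^ s * f₂ ^ t)) := by
  have hk : (p : k) = 0 := CharP.cast_eq_zero k p
  by_cases hne : s = t
  · obtain rfl := hne
    have h1 : s = 1 := by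
      rw [Nat.coprime_self] at hst
      exact hst
    subst h1
    rw [pow_one, pow_one]
    by_cases n₂ : f₂ = 0
    · refine gen_mem hP.toFormalClass hk hn.ne' _ _ fun hA _ => absurd ?_ hA
      rw [n₂, mul_zero]
    have hab : 0 < a + b := by
      obtain ⟨m, hm⟩ := MvPolynomial.support_nonempty.2 n₂
      have h4 := g₂ m hm
      omega
    refine Bl.tame hp hp2 hP.toStableClass hab (f₀ * f₂) f₁ ?_ ?_ n hn
    · classical
      intro m hm
      have h1 := MvPolynomial.support_mul f₀ f₂ hm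
      obtain ⟨x, hx, y, hy, rfl⟩ := Finset.mem_add.1 h1
      have h2 := g₀ x hx
      have h3 := g₂ y hy
      rw [Finsupp.add_apply, Finsupp.add_apply, mul_add, mul_add]
      omega
    · intro m hm
      have := g₁ m hm
      omega
  · refine gen_tri hp hP.toFormalClass (fun f₀ f₁ f₂ =>
      (∀ m ∈ f₀.support, a * m 0 + b * m 1 ≤ a + b + c) ∧
      (∀ m ∈ f₁.support, a * m 0 + b * m 1 + t * c ≤ a + b + c) ∧
      ∀ m ∈ f₂.support, a * m 0 + b * m 1 + (s + t) * c ≤ a + b + c) ?_ hs ht ?_ n hn f₀ f₁ f₂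
      ⟨g₀, g₁, g₂⟩
    · rintro f₀ f₁ f₂ ⟨g₀, g₁, g₂⟩ ψ₀ ψ₁ ψ₂
      exact ⟨fun m hm => g₀ m (MvPolynomial.support_map_subset _ _ hm),
        fun m hm => g₁ m (MvPolynomial.support_map_subset _ _ hm),
        fun m hm => g₂ m (MvPolynomial.support_map_subset _ _ hm)⟩
    · rintro n hn hpn f₀ f₁ f₂ ⟨g₀, g₁, g₂⟩ n₀ n₁ n₂
      exact fano_open Bl hp hp2 hP hn hpn habc hs ht hst hne f₀ f₁ f₂ g₀ g₁ g₂ n₀ n₁ n₂

/-- **Fermat sums over the weighted plane** -/
theorem fano_sums (Bl : FanoBlocks) (hp : p.Prime) (hp2 : p ≠ 2) (hP : TriClass p P) [Finite k]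
    [CharP k p] {a b c s t : ℕ} (habc : 0 < a + b + c) (hs : 0 < s) (ht : 0 < t)
    (hst : s.Coprime t) (f g h : MvPolynomial (Fin 2) k)
    (hf : ∀ m ∈ f.support, a * m 0 + b * m 1 ≤ a + b + c)
    (hg : ∀ m ∈ g.support, a * m 0 + b * m 1 + t * c ≤ a + b + c)
    (hh : ∀ m ∈ h.support, a * m 0 + b * m 1 + (s + t) * c ≤ a + b + c) {m : ℕ}
    (e : Fin m → k) (n : Fin m → ℕ) (hn : ∀ i, 0 < n i) :
    P (MvPolynomial (Fin m) (MvPolynomial (Fin 2) k) ⧸ Ideal.span {MvPolynomial.C (g ^ (s + t)) *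
      (∑ i, MvPolynomial.C (MvPolynomial.C (e i)) * MvPolynomial.X i ^ n i) -
        MvPolynomial.C (f ^ s * h ^ t)}) := by
  have hk : (p : k) = 0 := CharP.cast_eq_zero k p
  exact fermat_tower hp hP.toFormalClass inferInstance
    (fun n hn => fano_gen Bl hp hp2 hP habc hs ht hst f g h hf hg hh n hn)
    (plane_closed hP.toFormalClass hk _) (plane_closed hP.toFormalClass hk _) e hn

end Pool.Agent.Helper9.TP
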