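import Pool.Agent.Helper71.WP.IC

/-!
# Kummer classes: definitions
-/

set_option autoImplicit false

namespace Pool.Agent.Helper9.KC

open Polynomial TensorProduct
open Pool.Agent.Helper71.IC (Fg Pair Line Summand Glue Descent)

/-- Untwisting of `w ^ n = a`, `a` a unit and `p` not dividing `n`: `A[w] / (w ^ n - a)` is in `P`
if `A[z, v] / (a z ^ n - v ^ s (1 - v) ^ t)` is. -/
def Untwist (p : ℕ) (P : ∀ (A : Type) [CommRing A], Prop) (A : Type) [CommRing A] (n s t : ℕ)
    (a : A) : Prop :=
  IsUnit a → ¬ p ∣ n → 0 < s → 0 < t →
    P (AdjoinRoot (C (C a * X ^ n) - X ^ s * (1 - X) ^ t : A[X][X])) →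
      P (AdjoinRoot (X ^ n - C a : A[X]))

/-- **Kummer classes**: classes of finitely generated rings in which `p = 0`, closed under cut and
paste, products, descent along finite free algebras and untwisting. -/
structure KummerClass (p : ℕ) (P : ∀ (A : Type) [CommRing A], Prop) : Prop where
  /-- the members are finitely generated and `p = 0` in them -/
  fg : ∀ (A : Type) [CommRing A], P A → Fg p A
  /-- rings of dimension at most one -/
  curve : ∀ (A : Type) [CommRing A], Fg p A → ringKrullDim A ≤ 1 → P A
  /-- isomorphisms, tensor products -/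
  pair : ∀ (A B : Type) [CommRing A] [CommRing B], Pair P A B
  /-- affine lines -/
  line : ∀ (A : Type) [CommRing A], Line P A
  /-- summands -/
  summand : ∀ (A : Type) [CommRing A] (e : A), Summand P A e
  /-- cut and paste -/
  glue : ∀ (A : Type) [CommRing A] (a : A), Fg p A → Glue P A a
  /-- descent -/
  descent : ∀ (A B : Type) [CommRing A] [CommRing B] [Algebra A B], Fg p A → Descent P A B
  /-- untwisting -/
  untwist : ∀ (A : Type) [CommRing A] (n s t : ℕ) (a : A), Fg p A → Untwist p P A n s t a

end Pool.Agent.Helper9.KC
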