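import Pool.Agent.Helper71.W6.Chg
import Pool.Agent.Helper9.TP.FanoThm

/-!
# Powers: the cyclic covers `w ^ n = a ^ d`
-/

set_option autoImplicit false

namespace Pool.Agent.Helper9.TP

open Polynomial TensorProduct
open Pool.Agent.Helper87.CC (IsLC isLC_std ft_of_surj ft_of_hom ft_loc ft_alg)
open Pool.Agent.Helper29.CQ (FormalClass)
open Pool.Agent.Helper67.CQ
open Pool.Agent.Helper9.QP (PK lc_comp lc_quot lc_away lc_ft lc_char ft_fin char_fin)
open Pool.Agent.Helper79.TP (tens_ext tens_ex pk_ext)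

variable {p : ℕ} {P : ∀ (A : Type) [CommRing A], Prop}

/-- the models of a locally closed subscheme are in the class -/
def PL (P : ∀ (A : Type) [CommRing A], Prop) {S : Type} [CommRing S] (I : Ideal S) (u : S) :
    Prop :=
  ∀ (T : Type) [CommRing T] (j : S →+* T), IsLC j I u → P T

theorem pl_model (hP : FormalClass p P) {S T : Type} [CommRing S] [CommRing T] {I : Ideal S}
    {u : S} {j : S →+* T} (hj : IsLC j I u) (h : P T) : PL P I u := by
  intro T' _ j' hj'
  obtain ⟨e⟩ := hj.equiv hj'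
  exact hP.iso _ _ e h

theorem pl_glue (hP : FormalClass p P) {S : Type} [CommRing S] (hft : Algebra.FiniteType ℤ S)
    (hp : (p : S) = 0) {I : Ideal S} {u : S} (f : S) (h0 : PL P (I ⊔ Ideal.span {f}) u)
    (h1 : PL P I (u * f)) : PL P I u := fun T _ j hj =>
  hP.glue T (j f) (lc_ft hj hft) (lc_char j hp) (h0 _ _ (lc_quot hj f)) (h1 _ _ (lc_away hj f))

theorem pl_open (hP : FormalClass p P) {S : Type} [CommRing S] {I : Ideal S} {u : S} (f : S)
    (h0 : PL P (I ⊔ Ideal.span {f}) u) (h : PL P I u) : PL P I (u * f) := by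
  obtain ⟨T, hT, j, hj⟩ : ∃ (T : Type) (_ : CommRing T) (j : S →+* T), IsLC j I u :=
    ⟨_, _, _, isLC_std I u⟩
  exact pl_model hP (lc_away hj f) (hP.opn T (j f) (h T j hj) (h0 _ _ (lc_quot hj f)))

theorem lc_drop {S T : Type} [CommRing S] [CommRing T] {j : S →+* T} {f g : S}
    (h : IsLC j (Ideal.span {f * g}) (1 * f)) : IsLC j (Ideal.span {g}) (1 * f) where
  zero b hb := by
    obtain ⟨c, rfl⟩ := Ideal.mem_span_singleton'.1 hb
    have h1 : IsUnit (j f) := by
      have := h.unit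
      rwa [one_mul] at this
    apply h1.mul_left_cancel
    rw [mul_zero, ← map_mul]
    refine h.zero _ (Ideal.mem_span_singleton'.2 ⟨c, ?_⟩)
    ring
  unit := h.unit
  ex E _ v hv hu := by
    refine h.ex E v (fun b hb => ?_) hu
    obtain ⟨c, rfl⟩ := Ideal.mem_span_singleton'.1 hb
    rw [← mul_assoc]
    exact hv _ (Ideal.mem_span_singleton'.2 ⟨c * f, rfl⟩)
  uniq := h.uniq

section

variable {R k' : Type} [CommRing R] [Field k'] [Algebra k' R]

theorem prod_unit {T : Type} [CommRing T] {a : R} (ha : IsUnit a) (n : ℕ) (j : R[X] →+* T)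
    (ζ : k') (h : j (X ^ n - C (algebraMap k' R ζ * a)) = 0) (Z : Multiset k') (hZ : ζ ∉ Z) :
    IsUnit (j (Z.map fun ξ => (X ^ n - C (algebraMap k' R ξ * a) : R[X])).prod) := by
  induction Z using Multiset.induction_on with
  | empty =>
    rw [Multiset.map_zero, Multiset.prod_zero, map_one]
    exact isUnit_one
  | cons ξ Z ih =>
    rw [Multiset.mem_cons, not_or] at hZ
    rw [Multiset.map_cons, Multiset.prod_cons, map_mul]
    refine IsUnit.mul ?_ (ih hZ.2)
    have h1 : j (X ^ n - C (algebraMap k' R ξ * a)) = j (C (algebraMap k' R (ζ - ξ) * a)) := by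
      rw [← sub_eq_zero, ← map_sub, ← h]
      congr 1
      rw [map_sub (algebraMap k' R), sub_mul, C_sub]
      ring
    rw [h1]
    refine IsUnit.map j (IsUnit.map C (IsUnit.mul ?_ ha))
    exact (isUnit_iff_ne_zero.2 (sub_ne_zero.2 hZ.1)).map (algebraMap k' R)

theorem pl_list (hP : FormalClass p P) (hft : Algebra.FiniteType ℤ R) (hp : (p : R) = 0) {a : R}
    (ha : IsUnit a) (n : ℕ) (Z : Multiset k')
    (h : ∀ ζ ∈ Z, PK P n (algebraMap k' R ζ * a)) :
    PL P (Ideal.span {(Z.map fun ζ => (X ^ n - C (algebraMap k' R ζ * a) : R[X])).prod}) 1 := by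
  have hft' : Algebra.FiniteType ℤ R[X] := ft_alg hft inferInstance
  have hp' : (p : R[X]) = 0 := by rw [← map_natCast (C : R →+* R[X]), hp, map_zero]
  induction Z using Multiset.induction_on with
  | empty =>
    intro T _ j hj
    have h1 : j 1 = 0 := hj.zero 1 (Ideal.subset_span (by simp))
    rw [map_one] at h1
    exact p_zero hP (subsingleton_of_zero_eq_one h1.symm)
  | cons ζ Z ih =>
    rw [Multiset.map_cons, Multiset.prod_cons]
    have hb : PL P (Ideal.span {(X ^ n - C (algebraMap k' R ζ * a) : R[X])}) 1 :=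
      pl_model hP (isLC_quot _) (h ζ (Multiset.mem_cons_self ζ Z))
    have ih' := ih fun ξ hξ => h ξ (Multiset.mem_cons_of_mem hξ)
    refine pl_glue hP hft' hp' (X ^ n - C (algebraMap k' R ζ * a)) ?_ ?_
    · rw [sup_eq_right.2]
      · exact hb
      · rw [Ideal.span_singleton_le_iff_mem]
        exact Ideal.mul_mem_right _ _ (Ideal.mem_span_singleton_self _)
    · intro T _ j hj
      refine pl_open hP (X ^ n - C (algebraMap k' R ζ * a)) ?_ ih' T j (lc_drop hj)
      by_cases hζ : ζ ∈ Z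
      · rw [sup_eq_right.2]
        · exact hb
        · rw [Ideal.span_singleton_le_iff_mem, Ideal.mem_span_singleton]
          exact Multiset.dvd_prod (Multiset.mem_map_of_mem _ hζ)
      · intro T' _ j' hj'
        have h1 := hj'.zero _ (Ideal.mem_sup_right (Ideal.mem_span_singleton_self _))
        have h2 := hj'.zero _ (Ideal.mem_sup_left (Ideal.mem_span_singleton_self _))
        have h3 := prod_unit ha n j' ζ h1 Z hζ
        rw [h2] at h3
        exact p_zero hP (subsingleton_of_zero_eq_one (isUnit_zero_iff.1 h3))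

end

theorem kum_trans {R B B' : Type} [CommRing R] [CommRing B] [CommRing B'] {i : R →+* B} {w : B}
    {n : ℕ} {a : R} (h1 : IsKum i w n a) {o : B →+* B'} {ξ : B'} {d : ℕ} (h2 : IsKum o ξ d w) :
    IsKum (o.comp i) ξ (d * n) a where
  rel := by
    rw [pow_mul, h2.rel, ← map_pow, h1.rel]
    rfl
  ex E _ v c hc := by
    obtain ⟨f, hf1, hf2⟩ := h1.ex E v (c ^ d) (by rw [← pow_mul, hc])
    obtain ⟨g, hg1, hg2⟩ := h2.ex E f c hf2.symm
    exact ⟨g, by rw [← RingHom.comp_assoc, hg1, hf1], hg2⟩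
  uniq E _ f g hfg hw := by
    refine h2.uniq E f g (h1.uniq E _ _ ?_ ?_) hw
    · rw [RingHom.comp_assoc, RingHom.comp_assoc, hfg]
    · rw [RingHom.comp_apply, RingHom.comp_apply, ← h2.rel, map_pow, map_pow, hw]

theorem pow_sub_prod {k' S : Type} [Field k'] [CommRing S] [Algebra k' S] (Z : Multiset k') (d : ℕ)
    (hZ : (X ^ d - 1 : k'[X]) = (Z.map fun ζ => X - C ζ).prod) (hd : Multiset.card Z = d)
    (y z : S) (hz : IsUnit z) :
    y ^ d - z ^ d = (Z.map fun ζ => y - algebraMap k' S ζ * z).prod := by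
  obtain ⟨v, rfl⟩ := hz
  have h1 := congrArg (aeval (y * ((v⁻¹ : Sˣ) : S))) hZ
  rw [map_sub, map_pow, aeval_X, map_one, map_multiset_prod, Multiset.map_map] at h1
  have h2 : ∀ ζ : k', (y * ((v⁻¹ : Sˣ) : S) - algebraMap k' S ζ) * (v : S) =
      y - algebraMap k' S ζ * v := by
    intro ζ
    rw [sub_mul, mul_assoc, Units.inv_mul, mul_one]
  have h3 : (Z.map fun ζ => y - algebraMap k' S ζ * (v : S)).prod =
      (Z.map fun ζ => y * ((v⁻¹ : Sˣ) : S) - algebraMap k' S ζ).prod * (v : S) ^ d := by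
    rw [← hd, ← Multiset.card_map (fun ζ : k' => (v : S)) Z, ← Multiset.prod_replicate,
      Multiset.card_map, ← Multiset.map_const', ← Multiset.prod_map_mul]
    congr 1
    refine Multiset.map_congr rfl fun ζ _ => (h2 ζ).symm
  rw [h3]
  have h4 : (Multiset.map ((aeval (y * ((v⁻¹ : Sˣ) : S))) ∘ fun ζ : k' => X - C ζ) Z) =
      Z.map fun ζ => y * ((v⁻¹ : Sˣ) : S) - algebraMap k' S ζ := by
    refine Multiset.map_congr rfl fun ζ _ => ?_
    rw [Function.comp_apply, map_sub, aeval_X, aeval_C]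
  rw [h4] at h1
  rw [← h1, sub_mul, one_mul, mul_pow, mul_assoc, ← mul_pow, Units.inv_mul, one_pow, mul_one]

/-- **powers of the parameter** -/
theorem pk_pow (hP : FormalClass p P) {k T : Type} [Field k] [Finite k] [CommRing T] [Algebra k T]
    (hT : Algebra.FiniteType ℤ T) (hpT : (p : T) = 0) {a : T} (ha : IsUnit a) {n d : ℕ}
    (hd : d ≠ 0) (h : ∀ (k' : Type) [Field k'] [Algebra k k'] [Module.Finite k k'] (ζ : k'),
      ζ ≠ 0 → PK P n (((1 : T) ⊗ₜ[k] ζ) * (a ⊗ₜ[k] (1 : k')))) : PK P n (a ^ d) := by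
  let k' := SplittingField (X ^ d - 1 : k[X])
  have hfk : Module.Finite k k' := inferInstance
  refine pk_ext (k := k) hP k' hT (a ^ d) ?_
  let _ : Algebra k' (T ⊗[k] k') :=
    (Algebra.TensorProduct.includeRight : k' →ₐ[k] T ⊗[k] k').toRingHom.toAlgebra
  have hal : ∀ ζ : k', algebraMap k' (T ⊗[k] k') ζ = (1 : T) ⊗ₜ[k] ζ := fun _ => rfl
  set a' : T ⊗[k] k' := a ⊗ₜ[k] (1 : k') with ha'
  have hau : IsUnit a' := ha.map (Algebra.TensorProduct.includeLeftRingHom : T →+* T ⊗[k] k')
  have e1 : (a ^ d) ⊗ₜ[k] (1 : k') = a' ^ d := by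
    rw [ha', Algebra.TensorProduct.tmul_pow, one_pow]
  rw [e1]
  have hR : Algebra.FiniteType ℤ (T ⊗[k] k') := by
    have h1 : Module.Finite T (T ⊗[k] k') := inferInstance
    exact ft_alg hT inferInstance
  have hpR : (p : T ⊗[k] k') = 0 := by
    rw [← map_natCast (Algebra.TensorProduct.includeLeftRingHom : T →+* T ⊗[k] k'), hpT, map_zero]
  -- the roots of unity
  have hmon : (X ^ d - 1 : k'[X]).Monic := by
    have := monic_X_pow_sub_C (1 : k') hd
    rwa [C_1] at this
  have hmap : (X ^ d - 1 : k[X]).map (algebraMap k k') = X ^ d - 1 := by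
    rw [Polynomial.map_sub, Polynomial.map_pow, map_X, Polynomial.map_one]
  have hsp : (X ^ d - 1 : k'[X]).Splits := by
    rw [← hmap]
    exact SplittingField.splits (X ^ d - 1 : k[X])
  have hZ := hsp.eq_prod_roots_of_monic hmon
  set Z : Multiset k' := (X ^ d - 1 : k'[X]).roots with hZd
  have hcard : Multiset.card Z = d := by
    have h1 := congrArg natDegree hZ
    rw [natDegree_multiset_prod_X_sub_C_eq_card] at h1
    rw [← h1]
    have := natDegree_X_pow_sub_C (n := d) (r := (1 : k'))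
    rwa [C_1] at this
  have hroot : ∀ ζ ∈ Z, ζ ≠ 0 := by
    intro ζ hζ h0
    have h1 := (mem_roots'.1 hζ).2
    rw [IsRoot.def, eval_sub, eval_pow, eval_X, eval_one, h0, zero_pow hd, zero_sub,
      neg_eq_zero] at h1
    exact one_ne_zero h1
  -- the cover
  have hB := isKum_std n (a' ^ d)
  set B := AdjoinRoot (X ^ n - C (a' ^ d) : (T ⊗[k] k')[X]) with hBd
  set w : B := AdjoinRoot.root (X ^ n - C (a' ^ d) : (T ⊗[k] k')[X]) with hw
  have hB1 := kum_trans hB (isKum_std d w)
  obtain ⟨e⟩ := (isKum_std (d * n) (a' ^ d)).equiv (RingEquiv.refl (T ⊗[k] k')) hB1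
  have h1 : P (AdjoinRoot (X ^ (d * n) - C (a' ^ d) : (T ⊗[k] k')[X])) := by
    have h2 := pl_list hP hR hpR hau n Z fun ζ hζ => h k' ζ (hroot ζ hζ)
    have h3 : (X ^ (d * n) - C (a' ^ d) : (T ⊗[k] k')[X]) =
        (Z.map fun ζ => (X ^ n - C (algebraMap k' (T ⊗[k] k') ζ * a') : (T ⊗[k] k')[X])).prod := by
      have h4 := pow_sub_prod (S := (T ⊗[k] k')[X]) Z d hZ hcard (X ^ n) (C a') (hau.map C)
      rw [mul_comm d n, pow_mul, C_pow, h4]
      congr 1
      refine Multiset.map_congr rfl fun ζ _ => ?_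
      rw [C_mul]
      rfl
    rw [← h3] at h2
    exact h2 _ _ (isLC_quot _)
  have h5 : P (AdjoinRoot (X ^ d - C w : B[X])) := hP.iso _ _ e h1
  have hBft : Algebra.FiniteType ℤ B := hB.ft hR
  have hmon' : (X ^ d - C w : B[X]).Monic := monic_X_pow_sub_C _ hd
  rcases subsingleton_or_nontrivial B with h0 | h0
  · exact p_zero hP h0
  have := hmon'.free_adjoinRoot
  have := hmon'.finite_adjoinRoot
  have := Pool.Agent.Helper71.PN.adj_nontrivial hmon' (by
    rw [natDegree_X_pow_sub_C]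
    exact Nat.pos_of_ne_zero hd)
  exact hP.transfer B _ hBft h5

/-- extension of the base field -/
theorem lc_tensor {σ k : Type} [Field k] (k' : Type) [Field k'] [Algebra k k']
    {u : MvPolynomial σ k} {T : Type} [CommRing T] {j : MvPolynomial σ k →+* T}
    (hj : IsLC j ⊥ u) [Algebra k T] (hjC : ∀ x : k, algebraMap k T x = j (MvPolynomial.C x)) :
    ∃ j' : MvPolynomial σ k' →+* T ⊗[k] k', IsLC j' ⊥ (MvPolynomial.map (algebraMap k k') u) ∧
      (∀ x, j' (MvPolynomial.map (algebraMap k k') x) = j x ⊗ₜ 1) ∧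
      ∀ x, j' (MvPolynomial.C x) = 1 ⊗ₜ x := by
  let iL : T →+* T ⊗[k] k' := Algebra.TensorProduct.includeLeftRingHom
  let iR : k' →+* T ⊗[k] k' := (Algebra.TensorProduct.includeRight : k' →ₐ[k] T ⊗[k] k').toRingHom
  have hLR : ∀ x : k, iL (algebraMap k T x) = iR (algebraMap k k' x) := by
    intro x
    change (algebraMap k T x) ⊗ₜ[k] (1 : k') = (1 : T) ⊗ₜ[k] algebraMap k k' x
    rw [Algebra.algebraMap_eq_smul_one, Algebra.algebraMap_eq_smul_one, TensorProduct.smul_tmul]
  let j' : MvPolynomial σ k' →+* T ⊗[k] k' :=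
    MvPolynomial.eval₂Hom iR fun i => iL (j (MvPolynomial.X i))
  have hj' : j'.comp (MvPolynomial.map (algebraMap k k')) = iL.comp j := by
    apply MvPolynomial.ringHom_ext
    · intro x
      rw [RingHom.comp_apply, RingHom.comp_apply, MvPolynomial.map_C]
      change MvPolynomial.eval₂ _ _ _ = _
      rw [MvPolynomial.eval₂_C, ← hLR, hjC]
    · intro i
      rw [RingHom.comp_apply, RingHom.comp_apply, MvPolynomial.map_X]
      change MvPolynomial.eval₂ _ _ _ = _
      rw [MvPolynomial.eval₂_X]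
  have hj1 : ∀ x, j' (MvPolynomial.map (algebraMap k k') x) = iL (j x) := fun x =>
    RingHom.congr_fun hj' x
  have hjR : ∀ x, j' (MvPolynomial.C x) = iR x := by
    intro x
    change MvPolynomial.eval₂ _ _ _ = _
    rw [MvPolynomial.eval₂_C]
  refine ⟨j', ⟨?_, ?_, ?_, ?_⟩, hj1, hjR⟩
  · intro b hb
    rw [Ideal.mem_bot.1 hb, map_zero]
  · rw [hj1]
    exact hj.unit.map iL
  · intro E _ v _ hv
    obtain ⟨g, hg⟩ := hj.ex E (v.comp (MvPolynomial.map (algebraMap k k'))) (fun b hb => by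
      rw [Ideal.mem_bot.1 hb, map_zero]) hv
    obtain ⟨r, hr1, hr2⟩ := tens_ex (k := k) (A := T) (B := k') g (v.comp MvPolynomial.C) (by
      intro x
      have h1 := RingHom.congr_fun hg (MvPolynomial.C x)
      rw [RingHom.comp_apply, RingHom.comp_apply, MvPolynomial.map_C] at h1
      rw [hjC, h1]
      rfl)
    refine ⟨r, ?_⟩
    apply MvPolynomial.ringHom_ext
    · intro x
      rw [RingHom.comp_apply, hjR]
      exact hr2 x
    · intro i
      rw [RingHom.comp_apply]
      have h1 : j' (MvPolynomial.X i) = iL (j (MvPolynomial.X i)) := by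
        change MvPolynomial.eval₂ _ _ _ = _
        rw [MvPolynomial.eval₂_X]
      rw [h1]
      have h2 := RingHom.congr_fun hg (MvPolynomial.X i)
      rw [RingHom.comp_apply, RingHom.comp_apply, MvPolynomial.map_X] at h2
      rw [← h2]
      exact hr1 _
  · intro E _ f g hfg
    have h3 : f.comp iL = g.comp iL := by
      apply hj.uniq
      rw [RingHom.comp_assoc, RingHom.comp_assoc, ← hj', ← RingHom.comp_assoc,
        ← RingHom.comp_assoc, hfg]
    refine tens_ext _ _ (fun b => RingHom.congr_fun h3 b) fun b => ?_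
    have h4 := RingHom.congr_fun hfg (MvPolynomial.C b)
    rw [RingHom.comp_apply, RingHom.comp_apply, hjR] at h4
    exact h4

/-- **powers of the equation** -/
theorem qa_pow (hP : FormalClass p P) {k : Type} [Field k] [Finite k] (hk : (p : k) = 0)
    {l n d N M : ℕ} (hd : d ≠ 0) {A B u : MvPolynomial (Fin l) k} (hA : A ∣ u ^ N) (hB : B ∣ u ^ M)
    (h : ∀ (k' : Type) [Field k'] [Algebra k k'] [Module.Finite k k'] (ζ : k'), ζ ≠ 0 →
      QA P n (MvPolynomial.C ζ * MvPolynomial.map (algebraMap k k') A)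
        (MvPolynomial.map (algebraMap k k') B) ⊥ (MvPolynomial.map (algebraMap k k') u)) :
    QA P n (A ^ d) (B ^ d) ⊥ u := by
  intro T _ j a₀ hj _ ha₀
  have hjB : IsUnit (j B) := unit_of_dvd j hB hj.unit
  have hjA : IsUnit (j A) := unit_of_dvd j hA hj.unit
  obtain ⟨a, ha⟩ := ex_b j A B hjB
  have hau : IsUnit a := by
    rw [← ha] at hjA
    exact isUnit_of_mul_isUnit_left hjA
  have h1 : a₀ = a ^ d := by
    apply (hjB.pow d).mul_right_cancel
    rw [← map_pow, ha₀, map_pow, ← ha, mul_pow, map_pow]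
  rw [h1]
  let _ : Algebra k T := (j.comp MvPolynomial.C).toAlgebra
  have hjC : ∀ x : k, algebraMap k T x = j (MvPolynomial.C x) := fun x => rfl
  refine pk_pow (k := k) hP (lc_ft hj (ft_fin l)) (lc_char j (char_fin hk l)) hau hd ?_
  intro k' _ _ _ ζ hζ
  obtain ⟨j', h2, h3, h4⟩ := lc_tensor k' hj hjC
  refine h k' ζ hζ _ j' _ h2 ?_ ?_
  · rw [h3]
    exact hjB.map (Algebra.TensorProduct.includeLeftRingHom : T →+* T ⊗[k] k')
  · rw [h3, map_mul, h3, h4, mul_assoc, ← ha]
    congr 1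
    rw [Algebra.TensorProduct.tmul_mul_tmul, one_mul]

end Pool.Agent.Helper9.TP
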