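import Pool.Agent.Helper9.QP.QK
import Pool.Agent.Helper9.TP.Defs

/-!
# Cyclic covers `w ^ n = A / B` of locally closed subschemes
-/

set_option autoImplicit false

namespace Pool.Agent.Helper9.TP

open Polynomial
open Pool.Agent.Helper87.CC (IsLC isLC_std ft_of_surj ft_of_hom ft_loc ft_alg)
open Pool.Agent.Helper29.CQ (FormalClass)
open Pool.Agent.Helper67.CQ
open Pool.Agent.Helper9.QP

variable {p : ℕ} {P : ∀ (A : Type) [CommRing A], Prop}

/-- the cyclic cover `w ^ n = A / B` of the locally closed subscheme `I = 0`, `u ≠ 0` -/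
def QA (P : ∀ (A : Type) [CommRing A], Prop) (n : ℕ) {S : Type} [CommRing S] (A B : S)
    (I : Ideal S) (u : S) : Prop :=
  ∀ (T : Type) [CommRing T] (j : S →+* T) (a : T), IsLC j I u → IsUnit (j B) →
    a * j B = j A → PK P n a

theorem ex_b {S T : Type} [CommRing S] [CommRing T] (j : S →+* T) (A B : S) (h : IsUnit (j B)) :
    ∃ a : T, a * j B = j A := by
  obtain ⟨v, hv⟩ := h
  refine ⟨j A * (v⁻¹ : Tˣ), ?_⟩
  rw [← hv, mul_assoc, Units.inv_mul, mul_one]

theorem unit_of_dvd {S T : Type} [CommRing S] [CommRing T] (j : S →+* T) {B u : S} {N : ℕ}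
    (h : B ∣ u ^ N) (hu : IsUnit (j u)) : IsUnit (j B) :=
  isUnit_of_dvd_unit (map_dvd j h) (by rw [map_pow]; exact hu.pow N)

theorem qa_model (hP : FormalClass p P) {n : ℕ} {S : Type} [CommRing S] {A B : S} {I : Ideal S}
    {u : S} {T : Type} [CommRing T] {j : S →+* T} {a : T} (hj : IsLC j I u)
    (ha : a * j B = j A) (h : PK P n a) : QA P n A B I u := by
  intro T' _ j' a' hj' hG' ha'
  obtain ⟨e, he⟩ := lc_equiv hj hj'
  have h1 : e a = a' := by
    apply hG'.mul_right_cancel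
    rw [ha', ← he, ← he, ← ha, map_mul]
  rw [← h1]
  exact pk_iso hP e a h

theorem qa_glue (hP : FormalClass p P) {n : ℕ} {S : Type} [CommRing S]
    (hft : Algebra.FiniteType ℤ S) (hp : (p : S) = 0) {A B : S} {I : Ideal S} {u : S} (f : S)
    (h0 : QA P n A B (I ⊔ Ideal.span {f}) u) (h1 : QA P n A B I (u * f)) : QA P n A B I u := by
  intro T _ j a hj hG ha
  refine pk_glue hP (lc_ft hj hft) (lc_char j hp) a (j f) ?_ ?_
  · refine h0 _ _ _ (lc_quot hj f) ?_ ?_
    · exact hG.map (Ideal.Quotient.mk _)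
    · rw [RingHom.comp_apply, RingHom.comp_apply, ← ha, map_mul]
  · refine h1 _ _ _ (lc_away hj f) ?_ ?_
    · exact hG.map (algebraMap T (Localization.Away (j f)))
    · rw [RingHom.comp_apply, RingHom.comp_apply, ← ha, map_mul]

theorem qa_open (hP : FormalClass p P) {n : ℕ} {S : Type} [CommRing S] {A B : S} {I : Ideal S}
    {u : S} (f : S) {N : ℕ} (hB : B ∣ u ^ N) (h0 : QA P n A B (I ⊔ Ideal.span {f}) u)
    (h1 : QA P n A B I u) : QA P n A B I (u * f) := by
  have hj := isLC_std I u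
  obtain ⟨T, hT, j, hj⟩ : ∃ (T : Type) (_ : CommRing T) (j : S →+* T), IsLC j I u :=
    ⟨_, _, _, hj⟩
  have hG : IsUnit (j B) := unit_of_dvd j hB hj.unit
  obtain ⟨a, ha⟩ := ex_b j A B hG
  refine qa_model hP (lc_away hj f) (a := algebraMap T (Localization.Away (j f)) a) ?_ ?_
  · rw [RingHom.comp_apply, RingHom.comp_apply, ← ha, map_mul]
  · refine pk_open hP a (j f) ?_ (h1 T j a hj hG ha)
    refine h0 _ _ _ (lc_quot hj f) ?_ ?_
    · exact hG.map (Ideal.Quotient.mk _)
    · rw [RingHom.comp_apply, RingHom.comp_apply, ← ha, map_mul]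

theorem qa_curve (hP : FormalClass p P) {n : ℕ} (hn : n ≠ 0) {S : Type} [CommRing S]
    (hft : Algebra.FiniteType ℤ S) (hp : (p : S) = 0) {A B : S} {I : Ideal S} {u : S}
    (hd : ringKrullDim (S ⧸ I) ≤ 1) : QA P n A B I u := by
  intro T _ j a hj _ _
  refine pk_curve hP hn (lc_ft hj hft) (lc_char j hp) ?_ a
  obtain ⟨e⟩ := (isLC_std I u).equiv hj
  rw [← ringKrullDim_eq_of_ringEquiv e]
  exact dim_away _ hd

theorem lc_poly {S T : Type} [CommRing S] [CommRing T] {j : S →+* T} {u : S} (h : IsLC j ⊥ u) :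
    IsLC (mapRingHom j) ⊥ (C u) where
  zero b hb := by rw [Ideal.mem_bot.1 hb, map_zero]
  unit := by
    rw [coe_mapRingHom, map_C]
    exact h.unit.map C
  ex E _ v _ hv := by
    obtain ⟨g, hg⟩ := h.ex E (v.comp C) (fun b hb => by rw [Ideal.mem_bot.1 hb, map_zero]) hv
    refine ⟨eval₂RingHom g (v X), ?_⟩
    refine Polynomial.ringHom_ext' ?_ ?_
    · refine RingHom.ext fun x => ?_
      have h1 := RingHom.congr_fun hg x
      simpa using h1
    · simp
  uniq E _ g g' hh := by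
    refine Polynomial.ringHom_ext' ?_ ?_
    · apply h.uniq
      refine RingHom.ext fun x => ?_
      have h1 := RingHom.congr_fun hh (C x)
      simpa using h1
    · have h1 := RingHom.congr_fun hh X
      simpa using h1

theorem qa_poly (hP : FormalClass p P) {n : ℕ} {S : Type} [CommRing S] {A B u : S} {N : ℕ}
    (hB : B ∣ u ^ N) (h : QA P n A B ⊥ u) : QA P n (C A) (C B) ⊥ (C u) := by
  obtain ⟨T, hT, j, hj⟩ : ∃ (T : Type) (_ : CommRing T) (j : S →+* T), IsLC j ⊥ u :=
    ⟨_, _, _, isLC_std ⊥ u⟩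
  have hG : IsUnit (j B) := unit_of_dvd j hB hj.unit
  obtain ⟨a, ha⟩ := ex_b j A B hG
  refine qa_model hP (lc_poly hj) (a := C a) ?_ (pk_poly hP a (h T j a hj hG ha))
  rw [coe_mapRingHom, map_C, map_C, ← ha, C_mul]

theorem lc_pull {S S' T : Type} [CommRing S] [CommRing S'] [CommRing T] (e : S ≃+* S') {u : S}
    {j : S →+* T} (hj : IsLC j ⊥ u) : IsLC (j.comp (e.symm : S' →+* S)) ⊥ (e u) := by
  have h1 : ∀ x, (j.comp (e.symm : S' →+* S)) (e x) = j x := fun x => by
    change j (e.symm (e x)) = j x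
    rw [e.symm_apply_apply]
  refine ⟨?_, ?_, ?_, ?_⟩
  · intro b hb
    rw [Ideal.mem_bot.1 hb, map_zero]
  · rw [h1]
    exact hj.unit
  · intro E _ v _ hv
    obtain ⟨g, hg⟩ := hj.ex E (v.comp (e : S →+* S')) (fun b hb => by
      rw [Ideal.mem_bot.1 hb, map_zero]) hv
    refine ⟨g, RingHom.ext fun x => ?_⟩
    have h2 := RingHom.congr_fun hg (e.symm x)
    change g (j (e.symm x)) = v (e (e.symm x)) at h2
    rw [e.apply_symm_apply] at h2
    exact h2
  · intro E _ g g' hh
    apply hj.uniq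
    refine RingHom.ext fun x => ?_
    have h2 := RingHom.congr_fun hh (e x)
    change g (j (e.symm (e x))) = g' (j (e.symm (e x))) at h2
    rw [e.symm_apply_apply] at h2
    exact h2

theorem qa_equiv {n : ℕ} {S S' : Type} [CommRing S] [CommRing S'] (e : S ≃+* S') {A B u : S}
    (h : QA P n (e A) (e B) ⊥ (e u)) : QA P n A B ⊥ u := by
  intro T _ j a hj hG ha
  have h1 : ∀ x, (j.comp (e.symm : S' →+* S)) (e x) = j x := fun x => by
    change j (e.symm (e x)) = j x
    rw [e.symm_apply_apply]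
  refine h T (j.comp (e.symm : S' →+* S)) a (lc_pull e hj) ?_ ?_
  · rw [h1]
    exact hG
  · rw [h1, h1]
    exact ha

/-! ### Homogeneous polynomials -/

variable {k : Type} [Field k]

/-- weighted homogeneous polynomials in finitely many variables -/
def Hom {σ : Type} (wt : σ → ℕ) (d : ℕ) (F : MvPolynomial σ k) : Prop :=
  ∀ (R : Type) [CommRing R] [Algebra k R] (x : σ → R) (t : R),
    MvPolynomial.aeval (fun i => t ^ wt i * x i) F = t ^ d * MvPolynomial.aeval x F

theorem Hom.of_wh {σ : Type} [Fintype σ] {wt : σ → ℕ} {d : ℕ} {F : MvPolynomial σ k}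
    (h : MvPolynomial.IsWeightedHomogeneous wt F d) : Hom wt d F := by
  intro R _ _ x t
  rw [MvPolynomial.aeval_def, MvPolynomial.aeval_def, MvPolynomial.eval₂_eq',
    MvPolynomial.eval₂_eq', Finset.mul_sum]
  refine Finset.sum_congr rfl fun m hm => ?_
  have h1 := h (MvPolynomial.mem_support_iff.1 hm)
  rw [Finsupp.weight_apply, Finsupp.sum_fintype _ _ (fun i => by simp)] at h1
  have h2 : ∏ i, (t ^ wt i * x i) ^ m i = t ^ d * ∏ i, x i ^ m i := by
    rw [← h1, ← Finset.prod_pow_eq_pow_sum, ← Finset.prod_mul_distrib]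
    refine Finset.prod_congr rfl fun i _ => ?_
    rw [mul_pow, smul_eq_mul, ← pow_mul, mul_comm (m i)]
  rw [h2]
  ring

theorem Hom.mul {σ : Type} {wt : σ → ℕ} {d e : ℕ} {F G : MvPolynomial σ k} (hF : Hom wt d F)
    (hG : Hom wt e G) : Hom wt (d + e) (F * G) := by
  intro R _ _ x t
  rw [map_mul, hF, hG, map_mul]
  ring

theorem Hom.pow {σ : Type} {wt : σ → ℕ} {d : ℕ} {F : MvPolynomial σ k} (hF : Hom wt d F)
    (n : ℕ) : Hom wt (d * n) (F ^ n) := by
  intro R _ _ x t
  rw [map_pow, hF, map_pow]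
  ring

theorem Hom.one {σ : Type} {wt : σ → ℕ} : Hom wt 0 (1 : MvPolynomial σ k) := by
  intro R _ _ x t
  simp

/-- the value at `z = 0` -/
noncomputable def pr (k : Type) [Field k] : MvPolynomial (Fin 3) k →ₐ[k] MvPolynomial (Fin 2) k :=
  MvPolynomial.aeval ![MvPolynomial.X 0, MvPolynomial.X 1, 0]

/-- the value at `z = 1` -/
noncomputable def de (k : Type) [Field k] : MvPolynomial (Fin 3) k →ₐ[k] MvPolynomial (Fin 2) k :=
  MvPolynomial.aeval ![MvPolynomial.X 0, MvPolynomial.X 1, 1]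

/-- the value at `x = 1` -/
noncomputable def dx (k : Type) [Field k] : MvPolynomial (Fin 2) k →ₐ[k] k[X] :=
  MvPolynomial.aeval ![1, X]

theorem Hom.pr {b d : ℕ} {F : MvPolynomial (Fin 3) k} (hF : Hom ![1, b, 1] d F) :
    Hom ![1, b] d (pr k F) := by
  intro R _ _ x t
  have h1 : ∀ y : Fin 2 → R, MvPolynomial.aeval y (TP.pr k F) =
      MvPolynomial.aeval ![y 0, y 1, 0] F := by
    intro y
    have h2 : (MvPolynomial.aeval y).comp (TP.pr k) = MvPolynomial.aeval ![y 0, y 1, 0] := by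
      apply MvPolynomial.algHom_ext
      intro i
      fin_cases i <;> simp [TP.pr]
    exact DFunLike.congr_fun h2 F
  rw [h1, h1]
  have h3 := hF R ![x 0, x 1, 0] t
  rw [← h3]
  congr 1
  congr 1
  funext i
  fin_cases i <;> simp

theorem pr_dvd {B u : MvPolynomial (Fin 3) k} {N : ℕ} (h : B ∣ u ^ N) :
    pr k B ∣ (pr k u) ^ N := by
  rw [← map_pow]
  exact map_dvd (pr k) h

end Pool.Agent.Helper9.TP
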