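import Pool.Agent.Helper9.TP.QA
import Pool.Agent.Helper9.QP.Arith

/-!
# The complement of a hyperplane in a weighted cone is a torus over an affine chart
-/

set_option autoImplicit false

namespace Pool.Agent.Helper9.TP

open Polynomial
open Pool.Agent.Helper87.CC (IsLC isLC_std ft_of_surj ft_of_hom ft_loc ft_alg)
open Pool.Agent.Helper29.CQ (FormalClass)
open Pool.Agent.Helper67.CQ
open Pool.Agent.Helper9.QP (PK Lau cL lc_comp lc_quot lc_away pk_glue pk_open pk_curve pk_poly
  pk_lau pk_iso dim_away lc_ft lc_char lc_equiv ft_fin char_fin pk_of_lau)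

variable {p : ℕ} {P : ∀ (A : Type) [CommRing A], Prop} {k : Type} [Field k]

/-- a chart `X i₀ = 1` -/
structure IsChart {σ : Type} (i₀ : σ) {S' : Type} [CommRing S'] [Algebra k S']
    (D : MvPolynomial σ k →ₐ[k] S') : Prop where
  one : D (MvPolynomial.X i₀) = 1
  surj : Function.Surjective D
  ex : ∀ (E : Type) [CommRing E] [Algebra k E] (y : σ → E), y i₀ = 1 →
    ∃ g : S' →ₐ[k] E, ∀ F, g (D F) = MvPolynomial.aeval y F

theorem isChart_de : IsChart (2 : Fin 3) (de k) where
  one := by simp [de]
  surj F := by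
    refine ⟨MvPolynomial.aeval ![MvPolynomial.X 0, MvPolynomial.X 1] F, ?_⟩
    have h1 : (de k).comp (MvPolynomial.aeval ![MvPolynomial.X 0, MvPolynomial.X 1]) =
        AlgHom.id k (MvPolynomial (Fin 2) k) := by
      apply MvPolynomial.algHom_ext
      intro i
      fin_cases i <;> simp [de]
    exact DFunLike.congr_fun h1 F
  ex E _ _ y hy := by
    refine ⟨MvPolynomial.aeval ![y 0, y 1], fun F => ?_⟩
    have h1 : (MvPolynomial.aeval ![y 0, y 1]).comp (de k) = MvPolynomial.aeval y := by
      apply MvPolynomial.algHom_ext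
      intro i
      fin_cases i
      · simp [de]
      · simp [de]
      · simp [de, hy]
    exact DFunLike.congr_fun h1 F

theorem isChart_dx : IsChart (0 : Fin 2) (dx k) where
  one := by simp [dx]
  surj F := by
    refine ⟨aeval (MvPolynomial.X 1) F, ?_⟩
    have h1 : (dx k).comp (aeval (MvPolynomial.X 1)) = AlgHom.id k k[X] := by
      apply Polynomial.algHom_ext
      simp [dx]
    exact DFunLike.congr_fun h1 F
  ex E _ _ y hy := by
    refine ⟨aeval (y 1), fun F => ?_⟩
    have h1 : (aeval (y 1)).comp (dx k) = MvPolynomial.aeval y := by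
      apply MvPolynomial.algHom_ext
      intro i
      fin_cases i
      · simp [dx, hy]
      · simp [dx]
    exact DFunLike.congr_fun h1 F

theorem lc_torus {σ : Type} {i₀ : σ} {S' : Type} [CommRing S'] [Algebra k S']
    {D : MvPolynomial σ k →ₐ[k] S'} (hD : IsChart i₀ D) {wt : σ → ℕ} (hw : wt i₀ = 1)
    {A B u : MvPolynomial σ k} {d e : ℕ} (hA : Hom wt d A) (hB : Hom wt d B) (hu : Hom wt e u) :
    ∃ j : MvPolynomial σ k →+* Lau (Localization.Away (D u)),
      IsLC j ⊥ (u * MvPolynomial.X i₀) ∧
      ∀ a : Localization.Away (D u),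
        a * algebraMap _ _ (D B) = algebraMap _ _ (D A) → cL a * j B = j A := by
  set C0 := Localization.Away (D u) with hC0
  let ι : S' →ₐ[k] C0 := IsScalarTower.toAlgHom k S' C0
  let m : C0 →ₐ[k] Lau C0 := (IsScalarTower.toAlgHom k C0[X] (Lau C0)).comp
    (IsScalarTower.toAlgHom k C0 C0[X])
  have hm : ∀ c, m c = cL c := fun c => rfl
  let Z : Lau C0 := algebraMap C0[X] (Lau C0) X
  have hZ : IsUnit Z := IsLocalization.Away.algebraMap_isUnit (X : C0[X])
  let φ : MvPolynomial σ k →ₐ[k] Lau C0 := (m.comp ι).comp D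
  let j : MvPolynomial σ k →ₐ[k] Lau C0 :=
    MvPolynomial.aeval fun i => Z ^ wt i * φ (MvPolynomial.X i)
  have jX : ∀ i, j (MvPolynomial.X i) = Z ^ wt i * φ (MvPolynomial.X i) := fun i => by simp [j]
  have hφ : ∀ F, MvPolynomial.aeval (fun i => φ (MvPolynomial.X i)) F = φ F := by
    intro F
    have h1 : MvPolynomial.aeval (fun i => φ (MvPolynomial.X i)) = φ := by
      apply MvPolynomial.algHom_ext
      intro i
      simp
    exact DFunLike.congr_fun h1 F
  have jF : ∀ {F : MvPolynomial σ k} {n : ℕ}, Hom wt n F → j F = Z ^ n * φ F := by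
    intro F n hF
    have h1 := hF (Lau C0) (fun i => φ (MvPolynomial.X i)) Z
    rw [hφ] at h1
    exact h1
  have jX0 : j (MvPolynomial.X i₀) = Z := by
    rw [jX, hw, pow_one]
    change Z * m (ι (D (MvPolynomial.X i₀))) = Z
    rw [hD.one, map_one, map_one, mul_one]
  have hιu : IsUnit (ι (D u)) := IsLocalization.Away.algebraMap_isUnit _
  have hjC : ∀ c : k, (j : MvPolynomial σ k →+* Lau C0) (MvPolynomial.C c) =
      φ (MvPolynomial.C c) := by
    intro c
    change j (algebraMap k _ c) = φ (algebraMap k _ c)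
    rw [AlgHom.commutes, AlgHom.commutes]
  refine ⟨(j : MvPolynomial σ k →+* Lau C0), ⟨?_, ?_, ?_, ?_⟩, ?_⟩
  · intro x hx
    rw [Ideal.mem_bot.1 hx, map_zero]
  · change IsUnit (j _)
    rw [map_mul, jF hu, jX0]
    exact ((hZ.pow e).mul (hιu.map m)).mul hZ
  · intro E _ v _ hv
    let _ : Algebra k E := (v.comp MvPolynomial.C).toAlgebra
    let v' : MvPolynomial σ k →ₐ[k] E := { v with commutes' := fun _ => rfl }
    have hv' : ∀ x, v' x = v x := fun _ => rfl
    have hv0 : ∀ F, MvPolynomial.aeval (fun i => v' (MvPolynomial.X i)) F = v' F := by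
      intro F
      have h1 : MvPolynomial.aeval (fun i => v' (MvPolynomial.X i)) = v' := by
        apply MvPolynomial.algHom_ext
        intro i
        simp
      exact DFunLike.congr_fun h1 F
    have hu0 : IsUnit (v' u * v' (MvPolynomial.X i₀)) := by
      rw [← map_mul]
      exact hv
    have hut : IsUnit (v' (MvPolynomial.X i₀)) := isUnit_of_mul_isUnit_right hu0
    have hu1 := isUnit_of_mul_isUnit_left hu0
    obtain ⟨t, ht⟩ := hut
    let y : σ → E := fun i => ((t⁻¹ : Eˣ) : E) ^ wt i * v' (MvPolynomial.X i)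
    have hty : ∀ i, (t : E) ^ wt i * y i = v' (MvPolynomial.X i) := by
      intro i
      change (t : E) ^ wt i * (((t⁻¹ : Eˣ) : E) ^ wt i * v' (MvPolynomial.X i)) = _
      rw [← mul_assoc, ← mul_pow, Units.mul_inv, one_pow, one_mul]
    have hy0 : y i₀ = 1 := by
      change ((t⁻¹ : Eˣ) : E) ^ wt i₀ * v' (MvPolynomial.X i₀) = 1
      rw [hw, pow_one, ← ht, Units.inv_mul]
    obtain ⟨g', hg'⟩ := hD.ex E y hy0
    have hvu : v' u = (t : E) ^ e * g' (D u) := by
      rw [hg', ← hu E y t, ← hv0]
      congr 1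
      congr 1
      funext i
      exact (hty i).symm
    have hgu : IsUnit (g' (D u)) := by
      rw [hvu] at hu1
      exact isUnit_of_mul_isUnit_right hu1
    let g0 : C0 →+* E := IsLocalization.Away.lift (g := (g' : S' →+* E)) (D u) hgu
    have hg0 : ∀ x, g0 (algebraMap S' C0 x) = g' x := fun x =>
      IsLocalization.Away.lift_eq (g := (g' : S' →+* E)) _ hgu x
    let g1 : C0[X] →+* E := eval₂RingHom g0 (t : E)
    have hg1 : IsUnit (g1 X) := by
      rw [coe_eval₂RingHom, eval₂_X]
      exact t.isUnit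
    let g2 : Lau C0 →+* E := IsLocalization.Away.lift (g := g1) (X : C0[X]) hg1
    have hg2 : ∀ x, g2 (algebraMap C0[X] (Lau C0) x) = g1 x := fun x =>
      IsLocalization.Away.lift_eq (g := g1) _ hg1 x
    have hgZ : g2 Z = t := by
      change g2 (algebraMap C0[X] (Lau C0) X) = _
      rw [hg2, coe_eval₂RingHom, eval₂_X]
    have hgm : ∀ F, g2 (φ F) = g' (D F) := by
      intro F
      change g2 (algebraMap C0[X] (Lau C0) (C (algebraMap S' C0 (D F)))) = _
      rw [hg2, coe_eval₂RingHom, eval₂_C, hg0]
    refine ⟨g2, ?_⟩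
    apply MvPolynomial.ringHom_ext
    · intro c
      rw [RingHom.comp_apply, hjC, hgm]
      change g' (D (algebraMap k _ c)) = _
      rw [AlgHom.commutes, AlgHom.commutes]
      rfl
    · intro i
      rw [RingHom.comp_apply]
      change g2 (j (MvPolynomial.X i)) = v' (MvPolynomial.X i)
      rw [jX, map_mul, map_pow, hgZ, hgm, hg', MvPolynomial.aeval_X, hty]
  · intro E _ h h' hh
    have e2 : h Z = h' Z := by
      rw [← jX0]
      exact RingHom.congr_fun hh _
    have e3 : ∀ i, h (φ (MvPolynomial.X i)) = h' (φ (MvPolynomial.X i)) := by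
      intro i
      have e0 : h (j (MvPolynomial.X i)) = h' (j (MvPolynomial.X i)) := RingHom.congr_fun hh _
      rw [jX, map_mul, map_mul, map_pow, map_pow, ← e2] at e0
      exact ((hZ.map h).pow _).mul_left_cancel e0
    have e4 : ∀ F, h (φ F) = h' (φ F) := by
      intro F
      have h1 : h.comp (φ : MvPolynomial σ k →+* Lau C0) =
          h'.comp (φ : MvPolynomial σ k →+* Lau C0) := by
        apply MvPolynomial.ringHom_ext
        · intro c
          have h2 := RingHom.congr_fun hh (MvPolynomial.C c)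
          rw [RingHom.comp_apply, RingHom.comp_apply, hjC] at h2
          exact h2
        · intro i
          exact e3 i
      exact RingHom.congr_fun h1 F
    apply IsLocalization.ringHom_ext (Submonoid.powers (X : C0[X]))
    refine Polynomial.ringHom_ext' ?_ e2
    apply IsLocalization.ringHom_ext (Submonoid.powers (D u))
    refine RingHom.ext fun s => ?_
    obtain ⟨F, rfl⟩ := hD.surj s
    exact e4 F
  · intro a ha
    change cL a * j B = j A
    rw [jF hA, jF hB, ← hm]
    have h1 := congrArg m ha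
    rw [map_mul] at h1
    change m a * φ B = φ A at h1
    rw [← h1]
    ring

end Pool.Agent.Helper9.TP
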