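import Pool.Agent.Helper9.TP.Defs3

/-!
# Fano trinomials: arbitrary weights
-/

set_option autoImplicit false

namespace Pool.Agent.Helper9.TP

open Polynomial
open Pool.Agent.Helper87.CC (IsLC isLC_std ft_of_surj ft_of_hom ft_loc ft_alg)
open Pool.Agent.Helper29.CQ (FormalClass GOps)
open Pool.Agent.Helper29.PF (StableClass)
open Pool.Agent.Helper67.CQ
open Pool.Agent.Helper9.QP (PK Lau cL lc_comp lc_quot lc_away pk_glue pk_open pk_curve pk_poly
  pk_lau pk_iso dim_away lc_ft lc_char lc_equiv ft_fin char_fin pk_of_lau torus_rule pk_zero Gen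
  IsGen isGen_std p_closed Cst gen_insep)

variable {p : ℕ} {P : ∀ (A : Type) [CommRing A], Prop} {k : Type} [Field k]

/-! ### The affine part -/

theorem Hom.prw {w : Fin 3 → ℕ} {d : ℕ} {F : MvPolynomial (Fin 3) k} (hF : Hom w d F) :
    Hom ![w 0, w 1] d (TP.pr k F) := by
  intro R _ _ x t
  have h1 : ∀ y : Fin 2 → R, MvPolynomial.aeval y (TP.pr k F) =
      MvPolynomial.aeval ![y 0, y 1, 0] F := by
    intro y
    have h2 : (MvPolynomial.aeval y).comp (TP.pr k) = MvPolynomial.aeval ![y 0, y 1, 0] := by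
      apply MvPolynomial.algHom_ext
      intro i
      fin_cases i <;> simp [TP.pr]
    exact DFunLike.congr_fun h2 F
  rw [h1, h1]
  have h3 := hF R ![x 0, x 1, 0] t
  rw [← h3]
  congr 1
  congr 1
  funext i
  fin_cases i <;> simp

/-- the affine part of the cyclic cover of the weighted projective plane with the weights `w` -/
theorem qa_affw (hP : FormalClass p P)
    (hT : ∀ (A : Type) [CommRing A], Algebra.FiniteType ℤ A → (p : A) = 0 → P (Lau A) → P A)
    [Finite k] (hk : (p : k) = 0) {n : ℕ} {d e N : ℕ} {w : Fin 3 → ℕ} (hw : w 2 = 1)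
    {A B u : MvPolynomial (Fin 3) k} (hA : Hom w d A) (hB : Hom w d B) (hu : Hom w e u)
    (hBu : B ∣ u ^ N) (hbin : QA P n (pr k A) (pr k B) ⊥ (pr k u)) (h : QA P n A B ⊥ u) :
    QA P n (de k A) (de k B) ⊥ (de k u) := by
  have hG : IsUnit (algebraMap (MvPolynomial (Fin 2) k) (Localization.Away (de k u))
      (de k B)) := by
    refine dvd_unit (N := N) (u := de k u) ?_ (IsLocalization.Away.algebraMap_isUnit _)
    rw [← map_pow]
    exact map_dvd (de k) hBu
  obtain ⟨a, ha⟩ := ex_b (algebraMap (MvPolynomial (Fin 2) k) (Localization.Away (de k u)))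
    (de k A) (de k B) hG
  refine qa_model hP (isLC_away (de k u)) ha ?_
  refine pk_of_lau hP hT (ft_loc (ft_fin 2) _) ?_ a ?_
  · rw [← map_natCast (algebraMap (MvPolynomial (Fin 2) k) _), char_fin hk, map_zero]
  obtain ⟨j, hj, hja⟩ := lc_torus isChart_de hw hA hB hu
  have h1 : QA P n A B ⊥ (u * MvPolynomial.X 2) := by
    refine qa_open hP _ hBu (qa_flat ?_) h
    exact hbin
  refine h1 _ j (cL a) hj ?_ (hja a ha)
  refine unit_of_dvd j (N := N) (u := u * MvPolynomial.X 2) ?_ hj.unit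
  rw [mul_pow]
  exact hBu.mul_right _

theorem exists_homw {a b d : ℕ} (f : MvPolynomial (Fin 2) k)
    (hf : ∀ m ∈ f.support, a * m 0 + b * m 1 ≤ d) : ∃ F : MvPolynomial (Fin 3) k,
    MvPolynomial.IsWeightedHomogeneous (![a, b, 1] : Fin 3 → ℕ) F d ∧ de k F = f ∧
    ∀ i j : ℕ, a * i + b * j = d → F.coeff (Finsupp.equivFunOnFinite.symm ![i, j, 0]) =
      f.coeff (Finsupp.equivFunOnFinite.symm ![i, j]) := by
  classical
  let T : (Fin 2 →₀ ℕ) → (Fin 3 →₀ ℕ) := fun m =>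
    Finsupp.equivFunOnFinite.symm ![m 0, m 1, d - (a * m 0 + b * m 1)]
  refine ⟨∑ m ∈ f.support, MvPolynomial.monomial (T m) (f.coeff m), ?_, ?_, ?_⟩
  · refine MvPolynomial.IsWeightedHomogeneous.sum _ _ _ fun m hm => ?_
    refine MvPolynomial.isWeightedHomogeneous_monomial _ _ _ ?_
    rw [Finsupp.weight_apply, Finsupp.sum_fintype _ _ (fun i => by simp), Fin.sum_univ_three]
    have h1 := hf m hm
    change m 0 • a + m 1 • b + (d - (a * m 0 + b * m 1)) • 1 = d
    simp only [smul_eq_mul, mul_one]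
    rw [mul_comm (m 1) b, mul_comm (m 0) a]
    omega
  · rw [map_sum]
    conv_rhs => rw [MvPolynomial.as_sum f]
    refine Finset.sum_congr rfl fun m _ => ?_
    rw [MvPolynomial.monomial_eq, MvPolynomial.monomial_eq, Finsupp.prod_fintype _ _
      (fun _ => pow_zero _), Finsupp.prod_fintype _ _ (fun _ => pow_zero _), Fin.prod_univ_three,
      Fin.prod_univ_two, map_mul, map_mul, map_mul, map_pow, map_pow, map_pow]
    have h1 : de k (MvPolynomial.C (f.coeff m)) = MvPolynomial.C (f.coeff m) := by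
      change de k (algebraMap k _ (f.coeff m)) = _
      rw [AlgHom.commutes]
      rfl
    have h2 : de k (MvPolynomial.X 0) = MvPolynomial.X 0 := by simp [de]
    have h3 : de k (MvPolynomial.X 1) = MvPolynomial.X 1 := by simp [de]
    have h4 : de k (MvPolynomial.X 2) = 1 := by simp [de]
    rw [h1, h2, h3, h4, one_pow, mul_one]
    rfl
  · intro i j hij
    rw [MvPolynomial.coeff_sum]
    simp only [MvPolynomial.coeff_monomial]
    set m₀ : Fin 2 →₀ ℕ := Finsupp.equivFunOnFinite.symm ![i, j] with hm₀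
    have h1 : ∀ m ∈ f.support,
        (T m = Finsupp.equivFunOnFinite.symm ![i, j, 0] ↔ m = m₀) := by
      intro m _
      constructor
      · intro h
        ext l
        have h2 := DFunLike.congr_fun h (Fin.castSucc l)
        fin_cases l
        · exact h2
        · exact h2
      · rintro rfl
        ext l
        fin_cases l
        · rfl
        · rfl
        · change d - (a * i + b * j) = 0
          omega
    rw [Finset.sum_congr rfl fun m hm => by rw [if_congr (h1 m hm) rfl rfl]]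
    rw [Finset.sum_ite_eq' f.support m₀ (fun m => f.coeff m)]
    by_cases h2 : m₀ ∈ f.support
    · rw [if_pos h2]
    · rw [if_neg h2]
      exact (MvPolynomial.notMem_support_iff.1 h2).symm

/-! ### Changes of the equation -/

theorem qa_mul {n : ℕ} {S : Type} [CommRing S] {A B l : S} {I : Ideal S} {u : S} {N : ℕ}
    (hl : l ∣ u ^ N) (h : QA P n (A * l) (B * l) I u) : QA P n A B I u := by
  intro T _ j a hj hB ha
  refine h T j a hj ?_ ?_
  · rw [map_mul]
    exact hB.mul (unit_of_dvd j hl hj.unit)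
  · rw [map_mul, map_mul, ← ha, mul_assoc]

/-- two locally closed subschemes -/
theorem qa_of_gen [Finite k] (hP : FormalClass p P) (hk : (p : k) = 0) {n : ℕ} (hn : n ≠ 0)
    {A B u : MvPolynomial (Fin 2) k} (hA : A ≠ 0) (hB : B ≠ 0) (hu : u ≠ 0) {N : ℕ}
    (hBu : B ∣ u ^ N) (h : P (Gen (MvPolynomial (Fin 2) k) n B A)) : QA P n A B ⊥ u := by
  have hD := isGen_std n B A
  obtain ⟨q, hq⟩ := gen_closed hD
  have hcl := p_closed hP hk A B
  have hj := isLC_away B
  obtain ⟨a, ha⟩ := ex_b (algebraMap (MvPolynomial (Fin 2) k) (Localization.Away B)) A B hj.unit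
  obtain ⟨r, hr⟩ := gen_open hD hj ha
  have h1 : QA P n A B ⊥ B := qa_model hP hj ha (opn' hP _ hq hr h hcl)
  have h2 : QA P n A B ⊥ (B * u) := by
    refine qa_open hP u (N := 1) (by rw [pow_one]) ?_ h1
    refine qa_curve hP hn (ft_fin 2) (char_fin hk 2) ?_
    rw [bot_sup_eq]
    exact dim_quot hu
  refine qa_congr (N := N + 1) (M := 1) ?_ ?_ h2
  · rw [pow_succ]
    exact mul_dvd_mul_right hBu u
  · rw [pow_one]
    exact Dvd.intro_left _ rfl

/-- the exchange of the variables -/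
theorem qa_swap {n : ℕ} {A B u : MvPolynomial (Fin 2) k}
    (h : QA P n (MvPolynomial.rename (Equiv.swap (0 : Fin 2) 1) A)
      (MvPolynomial.rename (Equiv.swap (0 : Fin 2) 1) B) ⊥
      (MvPolynomial.rename (Equiv.swap (0 : Fin 2) 1) u)) : QA P n A B ⊥ u :=
  qa_equiv (MvPolynomial.renameEquiv k (Equiv.swap (0 : Fin 2) 1)).toRingEquiv h

theorem supp_swap {f : MvPolynomial (Fin 2) k} {m : Fin 2 →₀ ℕ}
    (hm : m ∈ (MvPolynomial.rename (Equiv.swap (0 : Fin 2) 1) f).support) :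
    ∃ m' ∈ f.support, m' 0 = m 1 ∧ m' 1 = m 0 := by
  classical
  rw [MvPolynomial.support_rename_of_injective (Equiv.injective _), Finset.mem_image] at hm
  obtain ⟨m', hm', rfl⟩ := hm
  refine ⟨m', hm', ?_, ?_⟩
  · have := Finsupp.mapDomain_apply (Equiv.injective (Equiv.swap (0 : Fin 2) 1)) m' 0
    rw [Equiv.swap_apply_left] at this
    exact this.symm
  · have := Finsupp.mapDomain_apply (Equiv.injective (Equiv.swap (0 : Fin 2) 1)) m' 1
    rw [Equiv.swap_apply_right] at this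
    exact this.symm

/-- **from the open part to the ring**, and the inseparable covers -/
theorem gen_tri (hp : p.Prime) (hP : FormalClass p P) [Finite k] [CharP k p]
    (D : MvPolynomial (Fin 2) k → MvPolynomial (Fin 2) k → MvPolynomial (Fin 2) k → Prop)
    (hD : ∀ f₀ f₁ f₂, D f₀ f₁ f₂ → ∀ ψ₀ ψ₁ ψ₂ : k →+* k, D (MvPolynomial.map ψ₀ f₀)
      (MvPolynomial.map ψ₁ f₁) (MvPolynomial.map ψ₂ f₂)) {s t : ℕ} (hs : 0 < s) (ht : 0 < t)
    (h : ∀ n : ℕ, n ≠ 0 → ¬ p ∣ n → ∀ f₀ f₁ f₂, D f₀ f₁ f₂ → f₀ ≠ 0 → f₁ ≠ 0 → f₂ ≠ 0 →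
      QA P n (f₀ ^ s * f₂ ^ t) (f₁ ^ (s + t)) ⊥ (f₀ * f₁ * f₂)) (n : ℕ) (hn : 0 < n)
    (f₀ f₁ f₂ : MvPolynomial (Fin 2) k) (hf : D f₀ f₁ f₂) :
    P (Gen (MvPolynomial (Fin 2) k) n (f₁ ^ (s + t)) (f₀ ^ s * f₂ ^ t)) := by
  have hpp : Fact p.Prime := ⟨hp⟩
  have hk : (p : k) = 0 := CharP.cast_eq_zero k p
  induction n using Nat.strong_induction_on generalizing f₀ f₁ f₂ with
  | _ n ih =>
  by_cases hpn : p ∣ n
  · obtain ⟨m, rfl⟩ := hpn
    have hm : 0 < m := Nat.pos_of_mul_pos_left hn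
    obtain ⟨φ₀, hφ₀⟩ := ex_root hk f₀
    obtain ⟨φ₁, hφ₁⟩ := ex_root hk f₁
    obtain ⟨φ₂, hφ₂⟩ := ex_root hk f₂
    refine gen_insep hP hk (f₁ ^ (s + t)) (f₀ ^ s * f₂ ^ t) (MvPolynomial.map φ₁ f₁ ^ (s + t))
      (MvPolynomial.map φ₀ f₀ ^ s * MvPolynomial.map φ₂ f₂ ^ t) ?_ ?_ ?_
    · rw [map_pow, hφ₁, ← pow_mul, ← pow_mul, mul_comm]
    · rw [map_mul, map_pow, map_pow, hφ₀, hφ₂, mul_pow, ← pow_mul, ← pow_mul, ← pow_mul,
        ← pow_mul, mul_comm p, mul_comm p]
    · exact ih m (by nlinarith [hp.two_le]) hm _ _ _ (hD _ _ _ hf φ₀ φ₁ φ₂)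
  · refine gen_mem hP hk hn.ne' (f₁ ^ (s + t)) (f₀ ^ s * f₂ ^ t) fun hA hB => ?_
    have n₀ : f₀ ≠ 0 := fun h => hA (by rw [h, zero_pow hs.ne', zero_mul])
    have n₂ : f₂ ≠ 0 := fun h => hA (by rw [h, zero_pow ht.ne', mul_zero])
    have n₁ : f₁ ≠ 0 := fun h => hB (by rw [h, zero_pow (by omega)])
    refine qa_big hP hk hn.ne' (mul_ne_zero (mul_ne_zero n₀ n₁) n₂) (N := s + t) ?_
      (h n hn.ne' hpn f₀ f₁ f₂ hf n₀ n₁ n₂)
    rw [mul_pow, mul_pow]
    exact Dvd.dvd.mul_right (Dvd.intro_left _ rfl) _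

end Pool.Agent.Helper9.TP
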